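import Pool.Agent.Work.MP_8f87b2_h84.JEW1
import Pool.Agent.Work.MP_8f87b2_h4.TJ3V
import Pool.Agent.Work.MP_8f87b2_h4.JGJ3V

/-!
# MP_8f87b2_co: the rows W-JE-T and W-JE-J3, JM (all one soliton gadgets)
-/

set_option autoImplicit false
set_option linter.unusedSimpArgs false

namespace Pool.OddHC

open Finset Equiv BinaryTree Pool.Agent.Work.MP_8f87b2_co

open J J3 Ring1 H1

variable {k : ℕ} {F F' : Set (Cyc k)} {g g' : DG k} {R : BinaryTree Unit}

/-- **W-JE-T**: no common word, no condition -/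
theorem TyJE.disT (h : TyJE R F g) (h' : TyT F' g') : ∀ w ∈ g.B, w ∉ g'.B := by
  obtain ⟨B, S, w0, h1, hp, hB, hF, _⟩ := h.inn
  obtain ⟨b, m, a, w0', h1', rfl, rfl⟩ := h'
  intro w hw hw'
  obtain ⟨i, hi, rfl⟩ := hB w hw
  obtain ⟨j, hj, e⟩ := mem_gad20.1 hw'
  have e1 := congrArg Subtype.val e
  have hi20 : i < 20 := (by decide : ∀ i ∈ ixG13, i < 20) i hi
  rw [h1'.word w0' hj, h1.word w0 hi20] at e1
  by_cases h9 : i = 9
  · subst h9
    have hq : p12 (H1.W R .nil B S 9) = true := by rw [← e1]; exact p12_w3 h1'.mpos h1'.pos hj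
    have hR := h1.ne
    have iR : is1 R = false := is1_big (by have := h1.h3; omega)
    have bR := p12_one0 h1.one
    have gR : isNil R = false := isNil_f.2 hR
    have g1 : hd12 (.nil : BinaryTree Unit) = false := rfl
    have g2 : is1 (.nil : BinaryTree Unit) = false := rfl
    have g0 : isNil (.nil : BinaryTree Unit) = true := rfl
    have gn : ∀ A C : BinaryTree Unit, isNil (A △ C) = false := fun _ _ => rfl
    simp [H1.W, p12_node, p12_nil, bR, gn] at hq
    try simp [g1] at hq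
  · exact h1.tW h1'.mpos h1'.pos hi20 h9 hj e1.symm

theorem dj_JE_T : Dj (k := k) (TyJE R) TyT := fun _ _ _ _ h h' _ => h.disT h'

namespace J3

/-- `((R))` is no mirrored mixed word -/
theorem SqD.not_Mx9 {B S : BinaryTree Unit} (h : SqD k R B S) (h2 : 2 ≤ J3.cc R) {n : ℕ} (hn : 1 ≤ n)
    {Ψ : ZMod (2 * n + 1) → ℕ} : ¬ IsMx n Ψ (H1.W R .nil B S 9) := by
  rintro ⟨t, D, u, j, ht, hD, h1, hj, hj', e⟩
  have hone := one_S0 hn h1
  have hb := b2_le t
  obtain ⟨t, rfl⟩ : ∃ t', t = t' + 1 := ⟨t - 1, by omega⟩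
  obtain ⟨hS0, hSl⟩ := mirS_last hD u
  have h0 : Tsq.mir BinaryTree.nil = BinaryTree.nil := rfl
  have s1 : ∀ p ∈ ({1} : Multiset ℕ), p ≤ 2 := by
    intro p hp
    rw [Multiset.mem_singleton] at hp
    omega
  have c1 : ∀ {M : Multiset ℕ}, J.One M → J.One ({1} + M) := fun h => by
    rw [add_comm]
    exact h.add s1
  have nope : J.One (OddHC.cont (mw (t + 1) D u j)) → False := by
    intro h5
    apply h.not_one h2 (i := 9) (by norm_num)
    rw [e, HM.cont_mir]
    exact h5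
  have e9 : H1.W R .nil B S 9 = (R △ .nil) △ .nil := rfl
  interval_cases j
  · apply nope
    simp only [mw, W, cont_app, OddHC.cont_node, OddHC.cont_nil, raise_zero, app, add_zero, zero_add]
    rw [add_comm]
    exact (c1 (c1 hone)).add hb
  · apply nope
    simp only [mw, W, cont_app, OddHC.cont_node, OddHC.cont_nil, raise_zero, app, add_zero, zero_add]
    rw [← add_assoc]
    exact (hone.raise.add hb).add s1
  · -- 13
    have e1 : Tsq.mir (mw (t + 1) D u 13) = (.nil △ Tsq.mir (b2 (t + 1))) △ Tsq.mir (RR 0 D u) := by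
      simp only [mw, W, Tsq.mir_node, Tsq.mir_app, h0, app]
    rw [e1, e9] at e
    exact hS0 (H1.node_inj e).2.symm
  · apply nope
    simp only [mw, W, cont_app, OddHC.cont_node, OddHC.cont_nil, raise_zero, app, add_zero, zero_add]
    exact (c1 hone).raise.add hb
  · apply nope
    simp only [mw, W, cont_app, OddHC.cont_node, OddHC.cont_nil, raise_zero, app, add_zero, zero_add]
    exact c1 (hone.raise.add hb)
  · have e1 : Tsq.mir (mw (t + 1) D u 16) = .nil △ (Tsq.mir (b2 (t + 1)) △ Tsq.mir (RR 0 D u)) := by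
      simp only [mw, W, Tsq.mir_node, Tsq.mir_app, h0, app]
    rw [e1, e9] at e
    exact absurd (H1.node_inj e).1 (by simp)
  · apply nope
    simp only [mw, W, cont_app, OddHC.cont_node, OddHC.cont_nil, raise_zero, app, add_zero, zero_add]
    exact (hone.raise.add hb).raise
  · have e1 : Tsq.mir (mw (t + 1) D u 18) =
        app (Tsq.mir (b2 (t + 1)) △ Tsq.mir (RR 0 D u)) (.nil △ .nil) := by
      simp only [mw, W, Tsq.mir_node, Tsq.mir_app, h0, app]
    rw [e1, e9] at e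
    exact absurd (H1.node_inj e).2.symm (H1.app_ne (by simp))
  · have e1 : Tsq.mir (mw (t + 1) D u 19) = (Tsq.mir (b2 (t + 1)) △ Tsq.mir (RR 0 D u)) △ .nil := by
      simp only [mw, W, Tsq.mir_node, Tsq.mir_app, h0, app]
    rw [e1, e9] at e
    exact hS0 (H1.node_inj (H1.node_inj e).1).2.symm

end J3

/-- **W-JE-J3, W-JE-JM** (every set of words of the one soliton gadgets): `R` has height at least 4 and two parts larger than 2 -/
theorem TyJE.dis_JG (h : TyJE R F g) (h4 : 4 ≤ OddHC.ht R) (h2 : 2 ≤ J.c3 (OddHC.cont R)) {n : ℕ}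
    (hn : 1 ≤ n) {B' : Finset (X k)} {P U M : Set (ZMod (2 * n + 1) → ℕ)} (hJ : J.JG n B' P U M) :
    ∀ w ∈ g.B, w ∉ B' := by
  obtain ⟨B, S, w0, h1, hp, hB, hF, _⟩ := h.inn
  intro w hw hw'
  obtain ⟨i, hi, rfl⟩ := hB w hw
  have hi20 : i < 20 := (by decide : ∀ i ∈ ixG13, i < 20) i hi
  have e1 := h1.word w0 hi20
  rcases hJ _ hw' with ⟨Φ, _, h5⟩ | ⟨Φ, _, h5⟩ | ⟨Φ, _, h5⟩
  · rw [e1] at h5
    exact h1.not_one h2 hi20 (one_Pu hn h5)
  · rw [e1] at h5
    refine h1.not_one h2 hi20 ?_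
    rw [h5.2]
    exact one_RF hn _
  · rw [e1] at h5
    by_cases h9 : i = 9
    · subst h9
      exact h1.not_Mx9 h2 hn h5
    · exact h1.not_Mx h2 h4 hn hi20 h9 h5

end Pool.OddHC
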