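import Pool.Agent.Work.MP_8f87b2_h84.J1J

/-!
# MP_8f87b2_co: the words of the MIRRORED J1a at `[s][c]`, `c ≥ 4`, against the words of the one-soliton gadgets
-/

set_option autoImplicit false

namespace Pool.OddHC

open Finset Equiv BinaryTree Pool.Agent.Work.MP_8f87b2_co

namespace J

variable {k n s c : ℕ}

/-- a word of the mirrored gadget J1a over `R = [s][c]`, `B = [c]`, `S = [s]` -/
def IsJ1M (s c : ℕ) (w : BinaryTree Unit) : Prop := IsJ1 s c (Tsq.mir w)

theorem IsPu.mir {F : ZMod (2 * n + 1) → ℕ} {w : BinaryTree Unit} (h : IsPu n F w) :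
    IsPu n (rf F) (Tsq.mir w) := by
  obtain ⟨i, hi, h0, h4, rfl⟩ := h
  refine ⟨mx i, mx_lt i, ?_, ?_, ?_⟩
  · interval_cases i <;> first | exact absurd rfl h0 | exact absurd rfl h4 | decide
  · interval_cases i <;> first | exact absurd rfl h0 | exact absurd rfl h4 | decide
  · rw [mir_pw _ hi, mir_RF]

theorem IsUs.mir {F : ZMod (2 * n + 1) → ℕ} {w : BinaryTree Unit} (h : IsUs n F w) :
    IsUs n (rf F) (Tsq.mir w) := by
  obtain ⟨h1, rfl⟩ := h
  refine ⟨?_, mir_RF _⟩
  unfold rf
  simp only [sub_zero, sub_neg_eq_add, neg_add_cancel]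
  omega

theorem j1m_mx (hs : 4 ≤ s) (hc : 4 ≤ c) {F : ZMod (2 * n + 1) → ℕ}
    {w : BinaryTree Unit} (h : IsJ1M s c w) (h' : IsMx n F w) : False := by
  obtain ⟨s, rfl⟩ : ∃ m, s = m + 4 := ⟨s - 4, by omega⟩
  obtain ⟨c, rfl⟩ : ∃ m, c = m + 1 + 3 := ⟨c - 4, by omega⟩
  obtain ⟨i, hi, h1⟩ := h
  obtain ⟨t, D, u, j, ht, hD, _, hj, hj', e⟩ := h'
  have e1 : j1w (s + 4) (c + 1 + 3) i = mw t D u j := by
    rw [← mir_mir' (mw t D u j), ← e, h1]
    rfl
  have e2 := congrArg kn e1
  rw [kn_mw hD ht (by omega) hj', if_neg (by omega), kn_j1 hi] at e2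
  obtain ⟨t, rfl⟩ : ∃ m, t = m + 1 := ⟨t - 1, by omega⟩
  have f1 := congrArg (fun w => (cs w).head?.any isL) e1
  have f2 := congrArg (fun w => (cs w).reverse.head?.any isL) e1
  have f3 := congrArg (fun w => (cs ((cs w).reverse.headD .nil)).head?.any isL) e1
  have f4 := congrArg (fun w => (cs ((cs w).reverse.tail.headD .nil)).head?.any isL) e1
  have f5 := congrArg (fun w => (cs ((cs ((cs w).headD .nil)).reverse.headD .nil)).head?.any isL) e1
  have g1 : (cs (mw (t + 1) D u 11)).head?.any isL = true := by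
    change (cs (app (b2 (t + 1)) (.nil △ (.nil △ RR 0 D u)))).head?.any isL = true
    rw [cs_app, cs_b2]
    rfl
  have g2 : (cs (mw (t + 1) D u 14)).reverse.head?.any isL = true := by
    change (cs ((.nil △ RR 0 D u) △ b2 (t + 1))).reverse.head?.any isL = true
    rw [cs_node, cs_b2, List.reverse_cons, List.reverse_replicate]
    rfl
  have g3 : (cs ((cs (mw (t + 1) D u 13)).reverse.headD .nil)).head?.any isL = true := by
    change (cs ((cs (app (RR 0 D u) (app (b2 (t + 1)) (.nil △ .nil) △ .nil))).reverse.headD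
      .nil)).head?.any isL = true
    rw [cs_app, List.reverse_append]
    change (cs (app (b2 (t + 1)) (.nil △ .nil))).head?.any isL = true
    rw [cs_app, cs_b2]
    rfl
  have g4 : (cs ((cs (mw (t + 1) D u 16)).reverse.tail.headD .nil)).head?.any isL = true := by
    change (cs ((cs (app (RR 0 D u) (b2 (t + 1) △ (.nil △ .nil)))).reverse.tail.headD
      .nil)).head?.any isL = true
    rw [cs_app, List.reverse_append]
    change (cs (b2 (t + 1))).head?.any isL = true
    rw [cs_b2]
    rfl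
  have g5 : (cs ((cs (mw (t + 1) D u 18)).reverse.headD .nil)).head?.any isL = true := by
    change (cs ((cs (.nil △ app (RR 0 D u) (b2 (t + 1) △ .nil))).reverse.headD
      .nil)).head?.any isL = true
    rw [cs_node, cs_app, List.reverse_cons, List.reverse_append]
    change (cs (b2 (t + 1))).head?.any isL = true
    rw [cs_b2]
    rfl
  have g6 : (cs ((cs ((cs (mw (t + 1) D u 19)).headD .nil)).reverse.headD .nil)).head?.any isL =
      true := by
    change (cs ((cs (app (RR 0 D u) (b2 (t + 1) △ .nil))).reverse.headD .nil)).head?.any isL = true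
    rw [cs_app, List.reverse_append]
    change (cs (b2 (t + 1))).head?.any isL = true
    rw [cs_b2]
    rfl
  have r11 : (cs (j1w (s + 4) (c + 1 + 3) 11)).head?.any isL = false := rfl
  have r13 : (cs ((cs (j1w (s + 4) (c + 1 + 3) 13)).reverse.headD .nil)).head?.any isL =
    false := rfl
  have r14 : (cs (j1w (s + 4) (c + 1 + 3) 14)).reverse.head?.any isL = false := rfl
  have r12 : (cs ((cs (j1w (s + 4) (c + 1 + 3) 12)).reverse.tail.headD .nil)).head?.any isL =
    false := rfl
  have r16 : (cs ((cs (j1w (s + 4) (c + 1 + 3) 16)).reverse.tail.headD .nil)).head?.any isL =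
    false := rfl
  have r15 : (cs ((cs (j1w (s + 4) (c + 1 + 3) 15)).reverse.headD .nil)).head?.any isL =
    false := rfl
  have r18 : (cs ((cs (j1w (s + 4) (c + 1 + 3) 18)).reverse.headD .nil)).head?.any isL =
    false := rfl
  have r17 : (cs ((cs ((cs (j1w (s + 4) (c + 1 + 3) 17)).headD .nil)).reverse.headD
    .nil)).head?.any isL = false := rfl
  have r19 : (cs ((cs ((cs (j1w (s + 4) (c + 1 + 3) 19)).headD .nil)).reverse.headD
    .nil)).head?.any isL = false := rfl
  interval_cases i <;> simp only [j1k] at e2 <;> first | omega | skip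
  · subst e2; exact absurd (r11.symm.trans (f1.trans g1)) (by simp)
  · subst e2; exact absurd (r12.symm.trans (f4.trans g4)) (by simp)
  · subst e2; exact absurd (r13.symm.trans (f3.trans g3)) (by simp)
  · subst e2; exact absurd (r14.symm.trans (f2.trans g2)) (by simp)
  · subst e2; exact absurd (r15.symm.trans (f3.trans g5)) (by simp)
  · subst e2; exact absurd (r16.symm.trans (f4.trans g4)) (by simp)
  · subst e2; exact absurd (r17.symm.trans (f5.trans g6)) (by simp)
  · subst e2; exact absurd (r18.symm.trans (f3.trans g5)) (by simp)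
  · subst e2; exact absurd (r19.symm.trans (f5.trans g6)) (by simp)

/-- **mirrored J1a, `c ≥ 4`, against the one-soliton gadgets: no common word** -/
theorem JG.disj_J1M (hs : 4 ≤ s) (hc : 4 ≤ c) (hn : 1 ≤ n) {B B' : Finset (X k)}
    {P U M : Set (ZMod (2 * n + 1) → ℕ)} (h : JG n B P U M) (h' : ∀ w ∈ B', IsJ1M s c w.1) :
    ∀ w ∈ B, w ∉ B' := by
  intro w hw hw'
  have h2 := h' w hw'
  rcases h w hw with ⟨Φ, _, h1⟩ | ⟨G, _, h1⟩ | ⟨Ψ, _, h1⟩
  · exact j1_pu hs (by omega) hn h2 h1.mir
  · exact j1_us hs (by omega) hn h2 h1.mir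
  · exact j1m_mx hs hc h2 h1

/-- the kinds `kn` of two gadgets J1a, `(s + 1, 3)` right and `(s, 4)` mirrored: **no common word** -/
theorem j1_j1m {w : BinaryTree Unit} (hs : 5 ≤ s) (h : IsJ1 (s + 1) 3 w) (h' : IsJ1M s 4 w) : False := by
  obtain ⟨s, rfl⟩ : ∃ m, s = m + 5 := ⟨s - 5, by omega⟩
  obtain ⟨i, hi, h1⟩ := h
  obtain ⟨j, hj, h2⟩ := h'
  rw [h1] at h2
  have key : ∀ i < 20, ∀ j < 20, Tsq.mir (j1w (s + 5 + 1) 3 i) ≠ j1w (s + 5) 4 j := by
    intro i hi j hj e
    have e2 := congrArg kn e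
    have e3 : kn (Tsq.mir (j1w (s + 2 + 4) (0 + 3) i)) = j1km i := kn_j1m hi
    have e4 : kn (j1w (s + 1 + 4) (1 + 3) j) = j1k j := kn_j1 hj
    have e5 : j1km i = j1k j := e3.symm.trans (e2.trans e4)
    have hm0 : Tsq.mir (BinaryTree.nil : BinaryTree Unit) = .nil := rfl
    interval_cases i <;> interval_cases j <;> simp only [j1km, j1k] at e5 <;> first | omega | skip
    all_goals
      simp [j1w, H1.W, app, H1.ch, Tsq.mir_node, hm0] at e
  exact key i hi j hj h2

end J

end Pool.OddHC
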