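import Pool.Agent.Work.MP_8f87b2_h84.T3
import Pool.Agent.Work.MP_8f87b2_h84.J1M
import Pool.Agent.Work.MP_8f87b2_h20.S5Ty
import Pool.Agent.Work.MP_8f87b2_h40.TyJM
import Pool.Agent.Work.MP_8f87b2_h40.TyJ4
import Pool.Agent.Work.MP_8f87b2_h40.TyJ5
import Pool.Agent.Work.MP_8f87b2_h40.TyNM
import Pool.Agent.Work.MP_8f87b2_mid.FirstMax

/-!
# MP_8f87b2_co: rows JM / J3 (J4, J5, NM) / J1 / J1M / S5 of the matrix, words and inner words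
-/

set_option autoImplicit false

namespace Pool.OddHC

open Finset Equiv BinaryTree Pool.Agent.Work.MP_8f87b2_co

namespace J

variable {k n s c : ℕ} {F F' : Set (Cyc k)} {g g' : DG k}

theorem o1_hi {A : BinaryTree Unit} (h : 2 ≤ ht A) (C : BinaryTree Unit) :
    o1 (A △ C) = o1 A + o1 C := by
  rw [o1_node]
  congr 1
  unfold o1
  rw [H1.raise_one (by rw [← OddHC.ht_eq]; exact h)]

theorem o1_lp (m : ℕ) : o1 (lp m) = m := by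
  induction m with
  | zero => rfl
  | succ m ih =>
    change o1 (.nil △ lp m) = _
    rw [o1_o, ih]
    omega

/-- **the words of S5 have at least three parts 1** -/
theorem S5_o1 (h : TyS5 F g) (h3 : ∀ c ∈ F, 3 ≤ (contc c).count 1) : ∀ w ∈ g.B, 3 ≤ o1 w.1 := by
  obtain ⟨s, n, hs, hn, h⟩ := h
  have key : ∀ {P Q R : BinaryTree Unit}, IsTri P Q R F g → 3 ≤ o1 (w1 P Q R) →
      ∀ w ∈ g.B, 3 ≤ o1 w.1 := by
    intro P Q R ht hh w hw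
    rcases ht.words w hw with h1 | ⟨h1, _⟩
    · rw [h1]; exact hh
    · exact h3 _ h1
  obtain ⟨s, rfl⟩ : ∃ m, s = m + 3 := ⟨s - 3, by omega⟩
  have hts : ht (H1.ch (s + 3)) = s + 3 := H1.ch_ht _
  have hos := o1_ch s
  have h00 : o1 (BinaryTree.nil : BinaryTree Unit) = 0 := rfl
  rcases h with h | h | h
  · refine key h ?_
    change 3 ≤ o1 (app (lp (n + 2)) (H1.ch (s + 3) △ .nil))
    rw [o1_app, o1_lp, o1_hi (by omega)]
    omega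
  · refine key h ?_
    change 3 ≤ o1 (H1.ch (s + 3) △ lp (n + 2))
    rw [o1_hi (by omega), o1_lp]
    omega
  · refine key h ?_
    change 3 ≤ o1 (.nil △ (app (H1.ch (s + 3)) (lp n) △ H1.ch 2))
    rw [o1_o, o1_hi (by rw [ht_app]; omega), o1_app, o1_lp]
    omega

/-- W-JM-S5, W-J3-S5 -/
theorem JG.disj_S5 (hn : 1 ≤ n) {B : Finset (X k)} {P U M : Set (ZMod (2 * n + 1) → ℕ)}
    (h : JG n B P U M) (h' : TyS5 F' g') (h3 : ∀ c ∈ F', 3 ≤ (contc c).count 1) :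
    ∀ w ∈ B, w ∉ g'.B := by
  intro w hw hw'
  have h1 := h.o1 hn w hw
  have h2 := S5_o1 h' h3 w hw'
  omega

/-- W-S5-J1 -/
theorem S5.disj_J1 (hs : 3 ≤ s) (hc : 3 ≤ c) (h' : TyS5 F' g') (h3 : ∀ c ∈ F', 3 ≤ (contc c).count 1)
    {B : Finset (X k)} (h : ∀ w ∈ B, IsJ1 s c w.1) : ∀ w ∈ g'.B, w ∉ B := by
  intro w hw hw'
  have h1 := (h w hw').o1 hs hc
  have h2 := S5_o1 h' h3 w hw
  omega

/-- W-S5-J1M -/
theorem S5.disj_J1M (hs : 3 ≤ s) (hc : 3 ≤ c) (h' : TyS5 F' g') (h3 : ∀ c ∈ F', 3 ≤ (contc c).count 1)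
    {B : Finset (X k)} (h : ∀ w ∈ B, IsJ1M s c w.1) : ∀ w ∈ g'.B, w ∉ B := by
  intro w hw hw'
  have h1 := (h w hw').o1 hs hc
  rw [o1_mir] at h1
  have h2 := S5_o1 h' h3 w hw
  omega

/-- W-J1-J1 : `(s + 1, 3)` right and `(s, 4)` mirrored -/
theorem disj_J1_J1M (hs : 5 ≤ s) {B B' : Finset (X k)} (h : ∀ w ∈ B, IsJ1 (s + 1) 3 w.1)
    (h' : ∀ w ∈ B', IsJ1M s 4 w.1) : ∀ w ∈ B, w ∉ B' :=
  fun w hw hw' => j1_j1m hs (h w hw) (h' w hw')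

/-! ### Inner words -/

theorem t3_TT (x : X k) : t3 (TT x).1 = t3 x.1 := by
  unfold t3; rw [TT_apply, cont_TF]

theorem o1_TT (x : X k) : o1 (TT x).1 = o1 x.1 := by
  unfold o1; rw [TT_apply, cont_TF]

/-- the path property of the types -/
def PathA (g : DG k) : Prop := ∀ a ∈ g.arcs, ∃ n : ℕ, (TT ^ (n + 1)) a.1 = a.2 ∧ a.1 ∈ g.B ∧
  ∀ i < n, (TT ^ (i + 1)) a.1 ∈ innA a

theorem t3_pow (x : X k) (i : ℕ) : t3 ((TT ^ i) x).1 = t3 x.1 := by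
  induction i with
  | zero => rfl
  | succ i ih => rw [pow_succ', Perm.mul_apply, t3_TT, ih]

theorem inn_o1 (hp : PathA g) {m : ℕ} (hB : ∀ w ∈ g.B, o1 w.1 ≤ m) :
    ∀ a ∈ g.arcs, ∀ w ∈ innA a, o1 w.1 ≤ m := by
  intro a ha w hw
  obtain ⟨n, _, h2, _⟩ := hp a ha
  have e : w = TT a.1 := hw
  rw [e, o1_TT]
  exact hB _ h2

/-- I-JM-S5, I-J3-S5 -/
theorem JG.inner_S5 (hn : 1 ≤ n) {P U M : Set (ZMod (2 * n + 1) → ℕ)} (hp : PathA g)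
    (h : JG n g.B P U M) (h' : TyS5 F' g') (h3 : ∀ c ∈ F', 3 ≤ (contc c).count 1) :
    ∀ a ∈ g.arcs, ∀ w ∈ innA a, w ∉ g'.B := by
  intro a ha w hw hw'
  have h1 := inn_o1 hp (h.o1 hn) a ha w hw
  have h2 := S5_o1 h' h3 w hw'
  omega

/-- I-J1-S5 -/
theorem J1.inner_S5 (hs : 3 ≤ s) (hc : 3 ≤ c) (hp : PathA g) (h : ∀ w ∈ g.B, IsJ1 s c w.1)
    (h' : TyS5 F' g') (h3 : ∀ c ∈ F', 3 ≤ (contc c).count 1) :
    ∀ a ∈ g.arcs, ∀ w ∈ innA a, w ∉ g'.B := by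
  intro a ha w hw hw'
  have h1 := inn_o1 hp (m := 2) (fun w hw => (h w hw).o1 hs hc) a ha w hw
  have h2 := S5_o1 h' h3 w hw'
  omega

/-- I-J1M-S5 -/
theorem J1M.inner_S5 (hs : 3 ≤ s) (hc : 3 ≤ c) (hp : PathA g) (h : ∀ w ∈ g.B, IsJ1M s c w.1)
    (h' : TyS5 F' g') (h3 : ∀ c ∈ F', 3 ≤ (contc c).count 1) :
    ∀ a ∈ g.arcs, ∀ w ∈ innA a, w ∉ g'.B := by
  intro a ha w hw hw'
  have h1 := inn_o1 hp (m := 2) (fun w hw => by
    have := (h w hw).o1 hs hc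
    rwa [o1_mir] at this) a ha w hw
  have h2 := S5_o1 h' h3 w hw'
  omega

/-- every arc has a pure word at one end -/
def PureA (n : ℕ) (g : DG k) : Prop :=
  ∀ a ∈ g.arcs, ∃ Φ : ZMod (2 * n + 1) → ℕ, IsPu n Φ a.1.1 ∨ IsPu n Φ a.2.1

theorem inn_t3 (hn : 1 ≤ n) (hp : PathA g) (hA : PureA n g) :
    ∀ a ∈ g.arcs, ∀ w ∈ innA a, t3 w.1 = 1 := by
  intro a ha w hw
  obtain ⟨m, h1, h2, _⟩ := hp a ha
  have e : w = TT a.1 := hw
  rw [e, t3_TT]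
  obtain ⟨Φ, h3 | h3⟩ := hA a ha
  · exact h3.t3 hn
  · rw [← t3_pow a.1 (m + 1), h1]
    exact h3.t3 hn

/-- I-JM-J1, I-J3-J1 -/
theorem inner_J_J1 (hn : 1 ≤ n) (hp : PathA g) (hA : PureA n g) (hs : 3 ≤ s) (hc : 3 ≤ c)
    {B : Finset (X k)} (h' : ∀ w ∈ B, IsJ1 s c w.1) : ∀ a ∈ g.arcs, ∀ w ∈ innA a, w ∉ B := by
  intro a ha w hw hw'
  have h1 := inn_t3 hn hp hA a ha w hw
  have h2 := (h' w hw').t3 hs hc
  omega

/-- I-JM-J1M, I-J3-J1M -/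
theorem inner_J_J1M (hn : 1 ≤ n) (hp : PathA g) (hA : PureA n g) (hs : 3 ≤ s) (hc : 3 ≤ c)
    {B : Finset (X k)} (h' : ∀ w ∈ B, IsJ1M s c w.1) : ∀ a ∈ g.arcs, ∀ w ∈ innA a, w ∉ B := by
  intro a ha w hw hw'
  have h1 := inn_t3 hn hp hA a ha w hw
  have h2 := (h' w hw').t3 hs hc
  rw [t3_mir] at h2
  omega

/-! ### The pure ends -/

theorem Us_kn {G : ZMod (2 * n + 1) → ℕ} (hn : 1 ≤ n) {w : BinaryTree Unit} (h : IsUs n G w) :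
    kn (Tsq.mir w) = 0 := kn_us hn h.mir

/-- a mirrored pure word of a gadget is a pure word in the sense of `JG` -/
theorem JG.pureM (hn : 1 ≤ n) {B : Finset (X k)} {P U M : Set (ZMod (2 * n + 1) → ℕ)}
    (h : JG n B P U M) {w : X k} (hw : w ∈ B) {p t i : ℕ} {D : BinaryTree Unit} (hD : GD D)
    (hi : i < 10) (h0 : i ≠ 0) (h4 : i ≠ 4) (e : w.1 = Tsq.mir (pw (RR p D t) i)) :
    ∃ Φ, IsPu n Φ w.1 := by
  rcases h w hw with ⟨Φ, _, h1⟩ | ⟨G, _, h1⟩ | ⟨Ψ, _, t', D', u, j, ht, hD', _, hj, hj', h2⟩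
  · exact ⟨Φ, h1⟩
  · exfalso
    have h2 := Us_kn hn h1
    rw [e, mir_mir', kn_pw hD hi] at h2
    exact kd_pos h0 h4 h2
  · exfalso
    have h3 : mw t' D' u j = pw (RR p D t) i := by
      rw [← mir_mir' (mw t' D' u j), ← h2, e, mir_mir']
    have := (mix_pure hD' hD ht (by omega) hj' hi h3).1
    omega

/-- a pure word of a gadget without mixed words -/
theorem JG.pureR (hn : 1 ≤ n) {B : Finset (X k)} {P U : Set (ZMod (2 * n + 1) → ℕ)}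
    (h : JG n B P U ∅) {w : X k} (hw : w ∈ B) {p t i : ℕ} {D : BinaryTree Unit} (hD : GD D)
    (hi : i < 10) (h0 : i ≠ 0) (h4 : i ≠ 4) (e : w.1 = pw (RR p D t) i) :
    ∃ Φ, IsPu n Φ w.1 := by
  rcases h w hw with ⟨Φ, _, h1⟩ | ⟨G, _, h1⟩ | ⟨Ψ, h1, _⟩
  · exact ⟨Φ, h1⟩
  · exfalso
    have h2 := kn_us hn h1
    rw [e, kn_pw hD hi] at h2
    exact kd_pos h0 h4 h2
  · exact absurd h1 (Set.notMem_empty _)

end J

open J

variable {k n s c : ℕ} {F F' : Set (Cyc k)} {g g' : DG k}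

theorem TyJM.pureA (h : TyJM F g) (hn : 1 ≤ n) {P U M : Set (ZMod (2 * n + 1) → ℕ)}
    (hJ : JG n g.B P U M) : PureA n g := by
  obtain ⟨p, D, t, D', u, w0, h1, hp, rfl, rfl⟩ := h
  intro q hq
  have key : ∀ i, i < 10 → i ≠ 0 → i ≠ 4 → i ≠ 5 → ∃ Φ, IsPu n Φ (jM p D t D' u w0 i).1 := by
    intro i hi h0 h4 h5
    refine hJ.pureM hn (mem_gadJM.2 ⟨i, by omega, h5, rfl⟩) (p := p) (t := t) h1.gD hi h0 h4 ?_
    change Tsq.mir (jX p D t D' u w0 i).1 = _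
    rw [h1.word_lo w0 hi]
  have hp' : q = (jM p D t D' u w0 11, jM p D t D' u w0 1) ∨
      q = (jM p D t D' u w0 12, jM p D t D' u w0 3) ∨
      q = (jM p D t D' u w0 15, jM p D t D' u w0 6) ∨
      q = (jM p D t D' u w0 14, jM p D t D' u w0 8) := hq
  rcases hp' with e | e | e | e
  · obtain ⟨Φ, h2⟩ := key 1 (by norm_num) (by norm_num) (by norm_num) (by norm_num)
    exact ⟨Φ, Or.inr (by rw [e]; exact h2)⟩
  · obtain ⟨Φ, h2⟩ := key 3 (by norm_num) (by norm_num) (by norm_num) (by norm_num)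
    exact ⟨Φ, Or.inr (by rw [e]; exact h2)⟩
  · obtain ⟨Φ, h2⟩ := key 6 (by norm_num) (by norm_num) (by norm_num) (by norm_num)
    exact ⟨Φ, Or.inr (by rw [e]; exact h2)⟩
  · obtain ⟨Φ, h2⟩ := key 8 (by norm_num) (by norm_num) (by norm_num) (by norm_num)
    exact ⟨Φ, Or.inr (by rw [e]; exact h2)⟩

theorem TyNM.pureA (h : TyNM F g) (hn : 1 ≤ n) {P U M : Set (ZMod (2 * n + 1) → ℕ)}
    (hJ : JG n g.B P U M) : PureA n g := by
  obtain ⟨p, D, t, D', u, w0, h1, hp, rfl, rfl⟩ := h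
  intro q hq
  have key : ∀ i, i < 10 → i ≠ 0 → i ≠ 4 → i ∈ ixJN → ∃ Φ, IsPu n Φ (jM p D t D' u w0 i).1 := by
    intro i hi h0 h4 h5
    refine hJ.pureM hn (mem_gadJNM_B.2 ⟨i, h5, rfl⟩) (p := p) (t := t) h1.gD hi h0 h4 ?_
    change Tsq.mir (jX p D t D' u w0 i).1 = _
    rw [h1.word_lo w0 hi]
  have hp' : q = (jM p D t D' u w0 12, jM p D t D' u w0 3) ∨
      q = (jM p D t D' u w0 15, jM p D t D' u w0 6) ∨
      q = (jM p D t D' u w0 14, jM p D t D' u w0 8) := hq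
  rcases hp' with e | e | e
  · obtain ⟨Φ, h2⟩ := key 3 (by norm_num) (by norm_num) (by norm_num) (by decide)
    exact ⟨Φ, Or.inr (by rw [e]; exact h2)⟩
  · obtain ⟨Φ, h2⟩ := key 6 (by norm_num) (by norm_num) (by norm_num) (by decide)
    exact ⟨Φ, Or.inr (by rw [e]; exact h2)⟩
  · obtain ⟨Φ, h2⟩ := key 8 (by norm_num) (by norm_num) (by norm_num) (by decide)
    exact ⟨Φ, Or.inr (by rw [e]; exact h2)⟩

theorem TyJ5.pureA (h : TyJ5 F g) (hn : 1 ≤ n) {P U : Set (ZMod (2 * n + 1) → ℕ)}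
    (hJ : JG n g.B P U ∅) : PureA n g := by
  obtain ⟨p, D, D', u, w0, h1, hp, rfl, rfl⟩ := h
  intro q hq
  have hq' : q = (jX p D 0 D' u w0 8, jX p D 0 D' u w0 14) := hq
  subst hq'
  obtain ⟨Φ, h2⟩ := hJ.pureR hn (mem_gadJ5_B.2 ⟨8, by decide, rfl⟩) h1.gD (i := 8) (by norm_num)
    (by norm_num) (by norm_num) (h1.word_lo w0 (by norm_num))
  exact ⟨Φ, Or.inl h2⟩

theorem TyJ4.pureA (h : TyJ4 F g) (hn : 1 ≤ n) {P U : Set (ZMod (2 * n + 1) → ℕ)}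
    (hJ : JG n g.B P U ∅) : PureA n g := by
  obtain ⟨p, D, D', u, w0, h1, hp, rfl, rfl⟩ := h
  intro q hq
  obtain ⟨r, hr, rfl⟩ := mem_gadOf_arcs.1 hq
  simp only [arJ4, List.mem_cons, List.not_mem_nil, or_false] at hr
  subst hr
  obtain ⟨Φ, h2⟩ := hJ.pureR hn (mem_gadOf_B.2 ⟨8, by decide, rfl⟩) h1.gD (i := 8) (by norm_num)
    (by norm_num) (by norm_num) (h1.word_lo w0 (by norm_num))
  exact ⟨Φ, Or.inl h2⟩

end Pool.OddHC
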