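import Pool.Agent.Work.MP_8f87b2_h84.JEW2
import Pool.Agent.Work.MP_8f87b2_h84.Rows
import Pool.Agent.Work.MP_8f87b2_h49.JVJs

/-!
# MP_8f87b2_co: W-JE-S5, W-JE-J1 (`TyJs`), and the four words `R()()`, `()R()`, `()()R`, `()(R)` against `SqD` words
-/

set_option autoImplicit false
set_option linter.unusedSimpArgs false

namespace Pool.OddHC

open Finset Equiv BinaryTree Pool.Agent.Work.MP_8f87b2_co

open J J3 H1

variable {k : ℕ} {F F' : Set (Cyc k)} {g g' : DG k} {R B S R' B' S' : BinaryTree Unit}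

/-! ### S5 -/

/-- words of JE have at most two parts 1 -/
theorem J3.SqD.o1E (h : SqD k R B S) : ∀ i ∈ ixG13, o1 (H1.W R .nil B S i) ≤ 2 := by
  have h3 := h.h3
  have hS := h.htS
  have r : o1 R = 0 := h.one
  have b : o1 B = 0 := h.oneB
  have s : o1 S = 0 := h.oneS
  have n0 : o1 .nil = 0 := rfl
  have z0 : OddHC.ht (BinaryTree.nil : BinaryTree Unit) = 0 := rfl
  intro i hi
  simp only [ixG13, List.mem_cons, List.not_mem_nil, or_false] at hi
  rcases hi with rfl | rfl | rfl | rfl | rfl | rfl | rfl | rfl | rfl | rfl | rfl | rfl | rfl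
  · change o1 (app R ((.nil △ .nil) △ .nil)) ≤ 2
    rw [o1_app, o1_l1]; omega
  · change o1 (app R (.nil △ (.nil △ .nil))) ≤ 2
    rw [o1_app, o1_o, o1_o]; omega
  · change o1 (.nil △ app R (.nil △ .nil)) ≤ 2
    rw [o1_o, o1_app, o1_o]; omega
  · change o1 (app R (.nil △ .nil) △ .nil) ≤ 2
    rw [o1_hi (by rw [ht_app]; omega), o1_app, o1_o]; omega
  · change o1 ((.nil △ .nil) △ R) ≤ 2
    rw [o1_l1]; omega
  · change o1 (.nil △ (.nil △ R)) ≤ 2
    rw [o1_o, o1_o]; omega
  · change o1 (R △ (.nil △ .nil)) ≤ 2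
    rw [o1_hi (by omega), o1_o]; omega
  · change o1 ((.nil △ R) △ .nil) ≤ 2
    rw [o1_hi (by rw [ht_node]; omega), o1_o]; omega
  · change o1 (.nil △ (R △ .nil)) ≤ 2
    rw [o1_o, o1_hi (by omega)]; omega
  · change o1 ((R △ .nil) △ .nil) ≤ 2
    rw [o1_hi (by rw [ht_node]; omega), o1_hi (by omega)]; omega
  · change o1 (S △ app B (.nil △ .nil)) ≤ 2
    rw [o1_hi (by omega), o1_app, o1_o]; omega
  · change o1 (.nil △ (S △ B)) ≤ 2
    rw [o1_o, o1_hi (by omega)]; omega
  · change o1 ((S △ B) △ .nil) ≤ 2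
    rw [o1_hi (by rw [ht_node]; omega), o1_hi (by omega)]; omega

/-- **W-JE-S5** -/
theorem TyJE.dis_S5 (h : TyJE R F g) (h' : TyS5 F' g') (h3 : ∀ c ∈ F', 3 ≤ (contc c).count 1) :
    ∀ w ∈ g.B, w ∉ g'.B := by
  obtain ⟨B, S, h1, hB⟩ := h.words
  intro w hw hw'
  obtain ⟨i, hi, e⟩ := hB w hw
  have h2 := h1.o1E i hi
  have h4 := S5_o1 h' h3 w hw'
  rw [e] at h4
  omega

/-! ### The four words -/

/-- the four words `R()()`, `()R()`, `()()R`, `()(R)` against the words of `SqD` type over `R'` (JV, J3V, J5V, JE): the same `R`, or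
`R = S'` is the square of `R'` and `B' = nil` -/
theorem J3.SqD.four (h : SqD k R B S) (h' : SqD k R' B' S') {i : ℕ} (hi : i ∈ [1, 2, 5, 8]) {j : ℕ} (hj : j < 20)
    (e : H1.W R .nil B S i = H1.W R' .nil B' S' j) : R = R' ∨ (B' = .nil ∧ R = S') := by
  have hR := h.ne
  have hR' := h'.ne
  have hS' := h'.neS
  have fR := fb_one h.one
  have lR := lastB_one h.one
  have fR' := fb_one h'.one
  have lR' := lastB_one h'.one
  have fS' := fb_one h'.oneS
  have lS' := lastB_one h'.oneS
  have lB' := lastB_one h'.oneB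
  have nn : ∀ A C : BinaryTree Unit, A △ C ≠ .nil := fun _ _ => by simp
  -- `R()` is not of some forms
  have a1 : ∀ Z : BinaryTree Unit, app R (.nil △ .nil) ≠ .nil △ Z := by
    intro Z e1
    have e2 := congrArg H1.fb e1
    rw [fb_app hR, fR] at e2
    exact absurd e2 (by simp [H1.fb, H1.isNil])
  have a2 : ∀ Z : BinaryTree Unit, app R (.nil △ .nil) ≠ Z △ .nil := by
    intro Z e1
    cases R with
    | nil => exact hR rfl
    | node _ P Q =>
      have e2 : P △ app Q (.nil △ .nil) = Z △ .nil := e1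
      exact H1.app_ne (nn _ _) (H1.node_inj e2).2
  have a3 : ∀ Z : BinaryTree Unit, .nil △ R ≠ Z △ .nil := fun Z e1 => hR (H1.node_inj e1).2
  have app_r : ∀ X Y Z : BinaryTree Unit, app X Z = app Y Z → X = Y := by
    intro X Y Z e1
    apply comps_inj
    have e2 := congrArg comps e1
    rw [comps_app, comps_app] at e2
    exact List.append_cancel_right e2
  by_cases h9 : j = 9
  · subst h9
    exfalso
    have e9 : H1.W R' .nil B' S' 9 = (R' △ .nil) △ .nil := rfl
    rw [e9] at e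
    simp only [List.mem_cons, List.not_mem_nil, or_false] at hi
    rcases hi with rfl | rfl | rfl | rfl
    · have e1 : app R (.nil △ (.nil △ .nil)) = (R' △ .nil) △ .nil := e
      cases R with
      | nil => exact hR rfl
      | node _ P Q =>
        have e2 : P △ app Q (.nil △ (.nil △ .nil)) = (R' △ .nil) △ .nil := e1
        exact H1.app_ne (nn _ _) (H1.node_inj e2).2
    · exact absurd (H1.node_inj e).1.symm (nn _ _)
    · exact absurd (H1.node_inj e).1.symm (nn _ _)
    · exact absurd (H1.node_inj e).1.symm (nn _ _)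
  · simp only [List.mem_cons, List.not_mem_nil, or_false] at hi
    rcases hi with rfl | rfl | rfl | rfl
    · -- `R()()`
      have e1 : H1.W R' .nil B' S' j = app (app R (.nil △ .nil)) (.nil △ .nil) := by
        rw [← e, H1.app_assoc]; rfl
      rcases h'.lst hj h9 e1 with ⟨_, e2⟩ | ⟨_, e2⟩ | ⟨_, e2⟩ | ⟨_, e2⟩ | ⟨_, e2⟩ | ⟨_, _, e2⟩
      · exact Or.inl (app_r _ _ _ e2)
      · exact absurd e2 (a1 _)
      · exact absurd e2 (a2 _)
      · exfalso
        have e3 := congrArg H1.lastB e2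
        rw [H1.lastB_app (nn _ _)] at e3
        by_cases hB : B' = .nil
        · rw [hB] at e2
          exact a2 _ e2
        · rw [H1.lastB_cons hB, lB'] at e3
          exact absurd e3 (by simp [H1.lastB, H1.isNil])
      · -- `S'(B')`
        have e3 := congrArg H1.lastB e2
        rw [H1.lastB_app (nn _ _), H1.lastB_app (nn _ _)] at e3
        by_cases hB : B' = .nil
        · subst hB
          exact Or.inr ⟨rfl, app_r _ _ _ e2⟩
        · exfalso
          have e4 : H1.lastB (B' △ .nil) = H1.isNil B' := rfl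
          rw [e4, H1.isNil_f.2 hB] at e3
          exact absurd e3 (by simp [H1.lastB, H1.isNil])
      · exact absurd e2 (a1 _)
    · -- `()R()`
      have e1 : H1.W R' .nil B' S' j = .nil △ app R (.nil △ .nil) := by rw [← e]; rfl
      rcases h'.fst hj h9 e1 with ⟨_, e2⟩ | ⟨_, e2⟩ | ⟨_, e2⟩ | ⟨_, e2⟩ | ⟨_, e2⟩ | ⟨_, _, e2⟩
      · exact Or.inl (app_r _ _ _ e2)
      · exact absurd e2 (a1 _)
      · exact absurd e2 (a2 _)
      · exfalso
        have e3 := congrArg H1.lastB e2
        rw [H1.lastB_app (nn _ _)] at e3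
        by_cases hB : B' = .nil
        · rw [hB] at e2
          exact a2 _ e2
        · rw [H1.lastB_cons hB, lB'] at e3
          exact absurd e3 (by simp [H1.lastB, H1.isNil])
      · have e3 := congrArg H1.lastB e2
        rw [H1.lastB_app (nn _ _), H1.lastB_app (nn _ _)] at e3
        by_cases hB : B' = .nil
        · subst hB
          exact Or.inr ⟨rfl, app_r _ _ _ e2⟩
        · exfalso
          have e4 : H1.lastB (B' △ .nil) = H1.isNil B' := rfl
          rw [e4, H1.isNil_f.2 hB] at e3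
          exact absurd e3 (by simp [H1.lastB, H1.isNil])
      · exact absurd e2 (a1 _)
    · -- `()()R`
      have e1 : H1.W R' .nil B' S' j = .nil △ (.nil △ R) := by rw [← e]; rfl
      rcases h'.fst hj h9 e1 with ⟨_, e2⟩ | ⟨_, e2⟩ | ⟨_, e2⟩ | ⟨_, e2⟩ | ⟨_, e2⟩ | ⟨_, hB, e2⟩
      · exfalso
        have e3 := congrArg H1.fb e2
        rw [fb_app hR', fR'] at e3
        exact absurd e3 (by simp [H1.fb, H1.isNil])
      · exact Or.inl (H1.node_inj e2).2
      · exact absurd (H1.node_inj e2).2 hR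
      · exact absurd (H1.node_inj e2).1.symm hS'
      · exfalso
        have e3 := congrArg H1.fb e2
        rw [fb_app hS', fS'] at e3
        exact absurd e3 (by simp [H1.fb, H1.isNil])
      · exact Or.inr ⟨hB, (H1.node_inj e2).2⟩
    · -- `()(R)`
      have e1 : H1.W R' .nil B' S' j = .nil △ (R △ .nil) := by rw [← e]; rfl
      rcases h'.fst hj h9 e1 with ⟨_, e2⟩ | ⟨_, e2⟩ | ⟨_, e2⟩ | ⟨_, e2⟩ | ⟨_, e2⟩ | ⟨_, _, e2⟩
      · exfalso
        cases R' with
        | nil => exact hR' rfl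
        | node _ P Q =>
          have e3 : R △ .nil = P △ app Q (.nil △ .nil) := e2
          exact H1.app_ne (nn _ _) (H1.node_inj e3).2.symm
      · exact absurd (H1.node_inj e2).1 hR
      · exact Or.inl (H1.node_inj e2).1
      · exact Or.inr ⟨(H1.node_inj e2).2.symm, (H1.node_inj e2).1⟩
      · exfalso
        cases S' with
        | nil => exact hS' rfl
        | node _ P Q =>
          have e3 : R △ .nil = P △ app Q (B' △ .nil) := e2
          exact H1.app_ne (nn _ _) (H1.node_inj e3).2.symm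
      · exact absurd (H1.node_inj e2).1 hR

/-- the four words of JE against a gadget over `R'` whose words are of `SqD` type and whose group contains `cyc R'()()`, or
`cyc R'(())`: disjoint groups, then only `B' = nil`, `R = S'` -/
theorem TyJE.four (h : TyJE R F g) {x : X k} (hx : x ∈ g.B) (h' : SqD k R' B' S') {j : ℕ} (hj : j < 20)
    (e : x.1 = H1.W R' .nil B' S' j) (hR : R ≠ R') (hS : B' = .nil → R ≠ S') :
    (∀ i ∈ [1, 2, 5, 8], x.1 ≠ H1.W R .nil (Tsq.sq R).2 (Tsq.sq R).1 i) := by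
  obtain ⟨B, S, h1, _⟩ := h.words
  intro i hi e1
  have hsq : (Tsq.sq R).2 = B ∧ (Tsq.sq R).1 = S := by rw [h1.sq]; exact ⟨rfl, rfl⟩
  rw [hsq.1, hsq.2, e] at e1
  rcases h1.four h' hi hj e1.symm with h2 | ⟨h2, h3⟩
  · exact hR h2
  · exact hS h2 h3

/-! ### J1 at (s, 3, 2) -/

/-- components of the four words -/
theorem comps4 (R B S : BinaryTree Unit) :
    comps (H1.W R .nil B S 1) = comps R ++ [.nil, .nil] ∧
    comps (H1.W R .nil B S 2) = .nil :: (comps R ++ [.nil]) ∧
    comps (H1.W R .nil B S 5) = .nil :: .nil :: comps R ∧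
    comps (H1.W R .nil B S 8) = [.nil, R] := by
  refine ⟨?_, ?_, rfl, rfl⟩
  · change comps (app R (.nil △ (.nil △ .nil))) = _
    rw [comps_app]; rfl
  · change comps (.nil △ app R (.nil △ .nil)) = _
    rw [comps_node, comps_app]; rfl

/-- the four words as words of `TyJs`: `R = [n+1][3]` -/
theorem four_jl {n : ℕ} (hn : 3 ≤ n) {i : ℕ} (hi : i ∈ [1, 2, 5, 8]) {j : ℕ} (hj : j < 20)
    (e : comps (H1.W R .nil B S i) = J1.jl n j) : comps R = [H1.ch n, H1.ch 2] := by
  obtain ⟨n, rfl⟩ : ∃ m, n = m + 1 := ⟨n - 1, by omega⟩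
  have c1 : H1.ch (n + 1) ≠ .nil := by rw [H1.ch_succ]; simp
  have c2 : H1.ch (n + 1 + 1) ≠ .nil := by rw [H1.ch_succ]; simp
  have c3 : H1.ch 2 ≠ .nil := by rw [H1.ch_succ]; simp
  have c4 : H1.ch 3 ≠ .nil := by rw [H1.ch_succ]; simp
  have c5 : H1.ch 1 ≠ .nil := by rw [H1.ch_succ]; simp
  have cR : J1.RR (n + 1) ≠ .nil := by change H1.ch (n + 1) △ H1.ch 3 ≠ .nil; simp
  obtain ⟨k1, k2, k5, k8⟩ := comps4 R B S
  simp only [List.mem_cons, List.not_mem_nil, or_false] at hi
  rcases hi with rfl | rfl | rfl | rfl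
  · rw [k1] at e
    have e2 := congrArg List.reverse e
    rw [List.reverse_append] at e2
    interval_cases j <;> simp [J1.jl, c1, c2, c3, c4, c5, c1.symm, c2.symm, c3.symm, c4.symm, c5.symm, cR, cR.symm] at e2
    exact List.reverse_injective (by simpa using e2)
  · rw [k2] at e
    interval_cases j <;> simp [J1.jl, c1, c2, c3, c4, c5, c1.symm, c2.symm, c3.symm, c4.symm, c5.symm, cR, cR.symm] at e
    all_goals
      have e2 := congrArg List.reverse e
      rw [List.reverse_append] at e2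
      simp [c1, c2, c3, c4, c5, c1.symm, c2.symm, c3.symm, c4.symm, c5.symm, cR, cR.symm] at e2
    all_goals exact List.reverse_injective (by simpa using e2)
  · rw [k5] at e
    interval_cases j <;> simp [J1.jl, c1, c2, c3, c4, c5, c1.symm, c2.symm, c3.symm, c4.symm, c5.symm, cR, cR.symm] at e
    exact e
  · rw [k8] at e
    interval_cases j <;> simp [J1.jl, c1, c2, c3, c4, c5, c1.symm, c2.symm, c3.symm, c4.symm, c5.symm, cR, cR.symm] at e
    rw [e]
    rfl

/-- **W-JE-J1** (`TyJs`): no condition but `11 ≤ k` -/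
theorem TyJE.dis_Js (h : TyJE R F g) (hk : 11 ≤ k) (h' : J1.TyJs F' g') (hd : ∀ c ∈ F, c ∉ F') :
    ∀ w ∈ g.B, w ∉ g'.B := by
  intro w hw hw'
  refine h.cases hw ?_ ?_
  · intro F1 g1 h9 hs hx
    obtain ⟨B, S, h1, _⟩ := h.words
    have := h'.disj_JV hk h9 (Set.disjoint_left.2 fun c hc hc' => hd c (hs hc') hc) h1.one h1.h3
    exact Finset.disjoint_left.1 this hw' hx
  · intro B S w0 h1 hF i hi e
    obtain ⟨n, hn, hk', hj, hnew⟩ := h'.words
    obtain ⟨j, hj20, e1⟩ := hj w hw'
    rw [e, h1.word w0 ((by decide : ∀ i ∈ [1, 2, 5, 8], i < 20) i hi)] at e1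
    have hR := four_jl hn hi hj20 e1
    refine hd _ (hF 0 (by decide)) (hnew (sX R B S w0 0) (Or.inl ?_))
    rw [h1.word w0 (by norm_num)]
    change comps (app R ((.nil △ .nil) △ .nil)) = _
    rw [comps_app, hR]
    rfl

end Pool.OddHC
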