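import Pool.Agent.Work.MP_8f87b2_h84.Inn1
import Pool.Agent.Work.MP_8f87b2_h24.J1Node

/-!
# MP_8f87b2_co: inner words of J1a `(s + 1, 3)` right against J1a `(s, 4)` mirrored, and conversely
-/

set_option autoImplicit false

namespace Pool.OddHC

open Finset Equiv BinaryTree Pool.Agent.Work.MP_8f87b2_co

namespace J

variable {k n s c : ℕ} {F F' : Set (Cyc k)} {g g' : DG k}

theorem o3_hi {A : BinaryTree Unit} (h : 4 ≤ ht A) (C : BinaryTree Unit) :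
    o3 (A △ C) = o3 A + o3 C := by
  rw [o3_node]
  congr 1
  exact count_raise 3 (by rw [← OddHC.ht_eq]; omega) (by rw [← OddHC.ht_eq]; omega)

theorem o3_o (C : BinaryTree Unit) : o3 (.nil △ C) = o3 C :=
  o3_zero (by change (0 : ℕ) ≠ 2; omega) rfl C

theorem o3_l1 (C : BinaryTree Unit) : o3 ((.nil △ .nil) △ C) = o3 C :=
  o3_zero (by change (1 : ℕ) ≠ 2; omega) rfl C

theorem j1_o3_all (hs : 4 ≤ s) {i : ℕ} (hi : i < 20) : o3 (j1w s 4 i) = 0 := by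
  obtain ⟨s, rfl⟩ : ∃ m, s = m + 4 := ⟨s - 4, by omega⟩
  have h00 : ht (BinaryTree.nil : BinaryTree Unit) = 0 := rfl
  have hS : ht (H1.ch (s + 4)) = s + 4 := H1.ch_ht _
  have hC : ht (H1.ch 4) = 4 := H1.ch_ht _
  have z0 : o3 (BinaryTree.nil : BinaryTree Unit) = 0 := rfl
  have zS : o3 (H1.ch (s + 4)) = 0 := o3_ch _
  have zC : o3 (H1.ch 4) = 0 := o3_ch 0
  have n1 : ∀ {A : BinaryTree Unit} (C : BinaryTree Unit), 4 ≤ ht A → o3 (A △ C) = o3 A + o3 C :=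
    fun C h => o3_hi h C
  rcases lt_or_ge i 19 with h19 | h19
  · interval_cases i <;>
      simp (disch := (simp only [ht_app, ht_node, hS, hC, h00]; omega)) only [j1w, H1.W, app, n1,
        o3_app, o3_o, o3_l1, zS, zC, z0]
  · obtain rfl : i = 19 := by omega
    change o3 (app (H1.ch (s + 4)) (H1.ch 4 △ .nil) △ .nil) = 0
    simp (disch := (simp only [ht_app, ht_node, hS, hC, h00]; omega)) only [n1, o3_app, zS, zC, z0]

theorem j1_o3_pos (hs : 4 ≤ s) {i : ℕ} (hi : i < 20) (h : i ≠ 13 ∧ i ≠ 16 ∧ i ≠ 18 ∧ i ≠ 19) :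
    o3 (j1w s 3 i) = 1 := by
  obtain ⟨s, rfl⟩ : ∃ m, s = m + 4 := ⟨s - 4, by omega⟩
  have h00 : ht (BinaryTree.nil : BinaryTree Unit) = 0 := rfl
  have hS : ht (H1.ch (s + 4)) = s + 4 := H1.ch_ht _
  have hC : ht (H1.ch 3) = 3 := H1.ch_ht _
  have z0 : o3 (BinaryTree.nil : BinaryTree Unit) = 0 := rfl
  have zS : o3 (H1.ch (s + 4)) = 0 := o3_ch _
  have zC : o3 (H1.ch 3) = 1 := by
    unfold o3
    rw [cont_ch']
    simp
  have n1 : ∀ {A : BinaryTree Unit} (C : BinaryTree Unit), 4 ≤ ht A → o3 (A △ C) = o3 A + o3 C :=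
    fun C h => o3_hi h C
  obtain ⟨h1, h2, h3, h4⟩ := h
  interval_cases i <;> first
    | exact absurd rfl h1
    | exact absurd rfl h2
    | exact absurd rfl h3
    | exact absurd rfl h4
    | simp (disch := (simp only [ht_app, ht_node, hS, hC, h00]; omega)) only [j1w, H1.W, app, n1,
        o3_app, o3_o, o3_l1, zS, zC, z0]

/-- **I-J1-J1M** -/
theorem J1.inner_J1M (hs : 4 ≤ s) (hA : J1A (s + 1) 3 g) {B : Finset (X k)}
    (h' : ∀ w ∈ B, IsJ1M s 4 w.1) : ∀ a ∈ g.arcs, ∀ w ∈ innA a, w ∉ B := by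
  intro a ha w hw hw'
  obtain ⟨i, hi, hx⟩ := hA a ha
  have e : w = TT a.1 := hw
  have hi' : i < 20 ∧ i ≠ 13 ∧ i ≠ 16 ∧ i ≠ 18 ∧ i ≠ 19 := by
    simp only [List.mem_cons, List.not_mem_nil, or_false] at hi
    omega
  have h1 : o3 w.1 = 1 := by
    rw [e, o3_TT, hx]
    exact j1_o3_pos (by omega) hi'.1 hi'.2
  obtain ⟨j, hj, h2⟩ := h' w hw'
  have h3 : o3 w.1 = 0 := by
    rw [← o3_mir, h2]
    exact j1_o3_all hs hj
  omega

/-- **I-J1M-J1** -/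
theorem J1M.inner_J1 (hs : 6 ≤ s) (hA : J1MA s 4 g) {B : Finset (X k)}
    (h' : ∀ w ∈ B, IsJ1 (s + 1) 3 w.1) : ∀ a ∈ g.arcs, ∀ w ∈ innA a, w ∉ B := by
  intro a ha w hw hw'
  obtain ⟨h0, i, hi, hx⟩ := hA a ha
  have e : w = TT a.1 := hw
  have e2 : TT w = a.2 := by rw [e, h0]
  have h3 : o3 w.1 = 0 := by
    rw [← o3_TT, e2, ← o3_mir, hx]
    exact j1_o3 (by omega) le_rfl hi
  obtain ⟨j, hj, h4⟩ := h' w hw'
  have hj' : j = 13 ∨ j = 16 ∨ j = 18 ∨ j = 19 := by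
    by_contra hc
    have h5 : o3 (j1w (s + 1) 3 j) = 1 := j1_o3_pos (by omega) hj (by omega)
    rw [h4] at h3
    change o3 (j1w (s + 1) 3 j) = 0 at h3
    omega
  obtain ⟨r, hr⟩ := j1_start (x := Tsq.mirX a.2) (by omega) (by omega) hi hx
  have e3 : TT (Tsq.mirX a.2) = Tsq.mirX w := by rw [← e2, Tsq.TT_mir]
  rw [e3] at hr
  have e4 : (Tsq.mirX w).1 = Tsq.mir (j1w (s + 1) 3 j) := by
    change Tsq.mir w.1 = _
    rw [h4]
    rfl
  rw [e4] at hr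
  obtain ⟨m, rfl⟩ : ∃ m, s = 6 + m := ⟨s - 6, by omega⟩
  rw [List.replicate_add, List.append_assoc] at hr
  have hm0 : Tsq.mir (BinaryTree.nil : BinaryTree Unit) = .nil := rfl
  rcases hj' with rfl | rfl | rfl | rfl <;>
    simp [wd, j1w, H1.W, app, H1.ch, Tsq.mir_node, hm0] at hr

end J

open J

variable {k n s c : ℕ} {F F' : Set (Cyc k)} {g g' : DG k}

/-- the gadget J1a over `[s][c]` : words and arcs -/
theorem J1_data {R B S : BinaryTree Unit} (h1 : J1.JDat k R B S) (w0 : X k)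
    (hR : R = app (H1.ch s) (H1.ch c)) (hB : B = H1.ch c) (hS : S = H1.ch s) :
    (∀ w ∈ (gadJA (J1.jX R B S w0)).B, IsJ1 s c w.1) ∧ J1A s c (gadJA (J1.jX R B S w0)) := by
  subst hR hB hS
  constructor
  · intro w hw
    obtain ⟨i, hi, rfl⟩ := J1.mem_gadJA.1 hw
    exact ⟨i, hi, J1.jX_eq h1 w0 hi⟩
  · intro p hp
    have hp' : p = (J1.jX _ _ _ w0 1, J1.jX _ _ _ w0 11) ∨
      p = (J1.jX _ _ _ w0 3, J1.jX _ _ _ w0 12) ∨
      p = (J1.jX _ _ _ w0 6, J1.jX _ _ _ w0 15) ∨ p = (J1.jX _ _ _ w0 8, J1.jX _ _ _ w0 14) ∨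
      p = (J1.jX _ _ _ w0 9, J1.jX _ _ _ w0 17) := hp
    rcases hp' with e | e | e | e | e
    · exact ⟨1, by simp, by rw [e]; exact J1.jX_eq h1 w0 (by norm_num)⟩
    · exact ⟨3, by simp, by rw [e]; exact J1.jX_eq h1 w0 (by norm_num)⟩
    · exact ⟨6, by simp, by rw [e]; exact J1.jX_eq h1 w0 (by norm_num)⟩
    · exact ⟨8, by simp, by rw [e]; exact J1.jX_eq h1 w0 (by norm_num)⟩
    · exact ⟨9, by simp, by rw [e]; exact J1.jX_eq h1 w0 (by norm_num)⟩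

end Pool.OddHC
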