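import Pool.Agent.Work.MP_8f87b2_h84.TyJE
import Pool.Agent.Work.MP_8f87b2_h25.JEBase

/-!
# MP_8f87b2_co: `TyJE` has helper25's data `DE`
-/

set_option autoImplicit false

namespace Pool.OddHC

open Finset Equiv BinaryTree Pool.Agent.Work.MP_8f87b2_co

open J3

variable {k : ℕ} {F : Set (Cyc k)} {g : DG k} {R : BinaryTree Unit}

theorem TyJE.de (h : TyJE R F g) : ∃ (B S : BinaryTree Unit) (w0 : X k), DE k R B S (sX R B S w0) F g := by
  obtain ⟨B, S, w0, h1, hp, rfl, rfl⟩ := h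
  refine ⟨B, S, w0, h1, ?_, hp.n04, ⟨0, by decide, rfl⟩, ⟨4, by decide, rfl⟩, ?_, ?_⟩
  · intro i hi
    exact h1.word w0 ((by decide : ∀ i ∈ ixE, i < 20) i hi)
  · intro w hw
    obtain ⟨i, hi, rfl⟩ := mem_gadOf_B.1 hw
    exact ⟨i, hi, rfl⟩
  · intro p hp1
    have hp' : ∃ q ∈ arG13, p = (sX R B S w0 q.1, sX R B S w0 q.2) := hp1
    obtain ⟨q, hq, rfl⟩ := hp'
    simp only [arG13, List.mem_cons, List.not_mem_nil, or_false] at hq
    rcases hq with rfl | rfl | rfl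
    · exact Or.inl rfl
    · exact Or.inr (Or.inl rfl)
    · exact Or.inr (Or.inr rfl)

end Pool.OddHC
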