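import Pool.Agent.Work.MP_8f87b2_h84.TyJEM
import Pool.Agent.Work.MP_8f87b2_h25.JEBase

/-!
# MP_8f87b2_co: `TyJEM` has helper25's data `DEM`
-/

set_option autoImplicit false

namespace Pool.OddHC

open Finset Equiv BinaryTree Pool.Agent.Work.MP_8f87b2_co

open J3

variable {k : ℕ} {F : Set (Cyc k)} {g : DG k} {S : BinaryTree Unit}

theorem TyJEM.dem (h : TyJEM S F g) : ∃ (B S' : BinaryTree Unit) (w0 : X k),
    DEM k (Tsq.mir S) B S' (sYe (Tsq.mir S) B S' w0) F g := by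
  obtain ⟨B, S', w0, h1, hp, rfl, rfl⟩ := h
  refine ⟨B, S', w0, h1, ?_, ?_, ⟨0, by decide, rfl⟩, ⟨4, by decide, rfl⟩, ?_, ?_⟩
  · intro i hi
    change Tsq.mir (sX (Tsq.mir S) B S' w0 i).1 = _
    rw [h1.word w0 ((by decide : ∀ i ∈ ixE, i < 20) i hi)]
  · intro e
    exact hp.n04 (cyc_mir_iff.1 e)
  · intro w hw
    obtain ⟨i, hi, rfl⟩ := mem_gadOf_B.1 hw
    exact ⟨i, hi, rfl⟩
  · intro p hp1
    have hp' : ∃ q ∈ arG13M, p = (sYe (Tsq.mir S) B S' w0 q.1, sYe (Tsq.mir S) B S' w0 q.2) := hp1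
    obtain ⟨q, hq, rfl⟩ := hp'
    simp only [arG13M, List.mem_cons, List.not_mem_nil, or_false] at hq
    rcases hq with rfl | rfl | rfl
    · exact Or.inl rfl
    · exact Or.inr (Or.inl rfl)
    · exact Or.inr (Or.inr rfl)

end Pool.OddHC
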