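import Pool.Agent.Work.MP_8f87b2_h84.JEW5
import Pool.Agent.Work.MP_8f87b2_h60.A0Gad

/-!
# MP_8f87b2_co: type JEM = the mirror image of JE (13 words, `gadG13M`), phase `S`

`TyJEM S F g`: the words are the mirror images of those of JE over `mir S`:
`F = {cyc (())S, cyc S(()), cyc ()()S, cyc ()S()}`; nine words are those of `Is9M nil nil S`, the other four are
`()()S`, `()S()`, `S()()`, `(S)()`, which are words of the right JE over `S`. `TyJEM.mirr` is the bridge to `TyJE`.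
-/

set_option autoImplicit false
set_option linter.unusedSimpArgs false

namespace Pool.OddHC

open Finset Equiv BinaryTree Pool.Agent.Work.MP_8f87b2_co

open J3

variable {k : ℕ} {F F' : Set (Cyc k)} {g g' : DG k} {R B S S' : BinaryTree Unit}

/-- the mirrored words -/
noncomputable def sYe (R B S : BinaryTree Unit) (w0 : X k) (i : ℕ) : X k := Tsq.mirX (sX R B S w0 i)

/-- TYPE JEM over the phase `S` -/
def TyJEM (S : BinaryTree Unit) (F : Set (Cyc k)) (g : DG k) : Prop :=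
  ∃ (B S' : BinaryTree Unit) (w0 : X k), SqD k (Tsq.mir S) B S' ∧ JEOK (Tsq.mir S) B S' w0 ∧
    F = {c | ∃ i ∈ nwG13, c = cyc (sYe (Tsq.mir S) B S' w0 i)} ∧ g = gadG13M (sYe (Tsq.mir S) B S' w0)

theorem mir2 (x : X k) : Tsq.mirX (Tsq.mirX x) = x := Subtype.ext (Tsq.mir_mir x.1)

theorem cyc_mir_iff {x y : X k} : cyc (Tsq.mirX x) = cyc (Tsq.mirX y) ↔ cyc x = cyc y := by
  constructor
  · intro h
    have := cyc_mir h
    rwa [mir2, mir2] at this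
  · exact cyc_mir

/-- **THE BRIDGE**: the mirror image of JEM over `S` is JE over `mir S` -/
theorem TyJEM.mirr (h : TyJEM S F g) : ∃ (F0 : Set (Cyc k)) (g0 : DG k), TyJE (Tsq.mir S) F0 g0 ∧
    (∀ x : X k, x ∈ g.B ↔ Tsq.mirX x ∈ g0.B) ∧ (∀ x : X k, cyc x ∈ F ↔ cyc (Tsq.mirX x) ∈ F0) ∧
    (∀ p : X k × X k, p ∈ g.arcs → (Tsq.mirX p.2, Tsq.mirX p.1) ∈ g0.arcs) := by
  obtain ⟨B, S', w0, h1, hp, rfl, rfl⟩ := h
  refine ⟨_, _, ⟨B, S', w0, h1, hp, rfl, rfl⟩, ?_, ?_, ?_⟩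
  · intro x
    unfold gadG13M gadG13
    rw [mem_gadOf_B, mem_gadOf_B]
    constructor
    · rintro ⟨i, hi, rfl⟩
      exact ⟨i, hi, by rw [sYe, mir2]⟩
    · rintro ⟨i, hi, e⟩
      exact ⟨i, hi, by rw [sYe, e, mir2]⟩
  · intro x
    constructor
    · rintro ⟨i, hi, e⟩
      refine ⟨i, hi, ?_⟩
      rw [← mir2 (sX (Tsq.mir S) B S' w0 i)]
      exact cyc_mir_iff.2 e
    · rintro ⟨i, hi, e⟩
      refine ⟨i, hi, ?_⟩
      rw [← mir2 x]
      exact cyc_mir_iff.2 e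
  · rintro p ⟨q, hq, rfl⟩
    have key : ∀ q ∈ arG13M, (q.2, q.1) ∈ arG13 := by decide
    exact ⟨_, key q hq, by simp only [sYe, mir2]⟩

/-- the disjointness of groups under the mirror -/
theorem mir_disj {F F' F0 F0' : Set (Cyc k)} (h1 : ∀ x : X k, cyc x ∈ F ↔ cyc (Tsq.mirX x) ∈ F0)
    (h2 : ∀ x : X k, cyc x ∈ F' ↔ cyc (Tsq.mirX x) ∈ F0') (hd : ∀ c ∈ F', c ∉ F) : ∀ c ∈ F0', c ∉ F0 := by
  intro c hc hc'
  obtain ⟨x, rfl⟩ : ∃ x : X k, cyc x = c := by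
    induction c using Quotient.inductionOn with
    | h x => exact ⟨x, rfl⟩
  rw [← mir2 x] at hc hc'
  exact hd _ ((h2 _).2 hc) ((h1 _).2 hc')

theorem TyJEM.hF (h : TyJEM S F g) : ∀ w, w ∈ g.F ↔ cyc w ∈ F := by
  obtain ⟨B, S', w0, h1, hp, rfl, rfl⟩ := h
  intro w
  unfold gadG13M
  rw [mem_gadOf_F]
  constructor
  · rintro ⟨c, hc, hs⟩
    exact ⟨c, hc, (cyc_eq.2 hs).symm⟩
  · rintro ⟨c, hc, hs⟩
    exact ⟨c, hc, cyc_eq.1 hs.symm⟩

theorem TyJEM.new (h : TyJEM S F g) : ∀ c ∈ F, ∃ u ∈ g.B, cyc u = c := by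
  obtain ⟨B, S', w0, h1, hp, rfl, rfl⟩ := h
  rintro c ⟨i, hi, rfl⟩
  have hix : ∀ i ∈ nwG13, i ∈ ixG13 := by decide
  exact ⟨_, mem_gadOf_B.2 ⟨i, hix i hi, rfl⟩, rfl⟩

theorem same_mirE {x y : X k} : TT.SameCycle (Tsq.mirX x) (Tsq.mirX y) ↔ TT.SameCycle x y := by
  rw [← cyc_eq, ← cyc_eq]
  exact cyc_mir_iff

/-- **the mirrored gadget absorbs** -/
theorem TyJEM.abs (h : TyJEM S F g) : g.Abs := by
  obtain ⟨B, S', w0, h, hp, rfl, rfl⟩ := h
  have e := h.num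
  have es := h.size
  have n0 : (BinaryTree.nil : BinaryTree Unit).numNodes = 0 := rfl
  have hlt : ∀ i ∈ ixG13, i < 20 := by decide
  refine gadG13M_abs (R := Tsq.mir (Tsq.mir S)) (Q := .nil) (B := Tsq.mir B) (S := Tsq.mir S') ?_ ?_ ?_ ?_ ?_ ?_ ?_ ?_
  · rw [Tsq.mir_num]; omega
  · rw [Tsq.mir_num, Tsq.mir_num]; omega
  · intro i hi
    have hi20 := hlt i hi
    change Tsq.mir (sX (Tsq.mir S) B S' w0 i).1 = _
    rw [h.word w0 hi20, HM.mir_W _ _ _ _ hi20]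
    rfl
  · intro i hi j hj e1
    exact h.inn9 hp i hi j hj (by
      have := congrArg Tsq.mirX e1
      simp only [sYe, mir2] at this
      exact this)
  · intro i hi j hj hs
    exact h.sepE hp i hi j hj (same_mirE.1 hs)
  · intro hs
    exact h.zy (h.cont0 w0) (h.cont5 w0) (same_mirE.1 hs)
  · intro hs
    exact h.zy (h.cont4 w0) (h.cont5 w0) (same_mirE.1 hs)
  · intro i hi j hj hs
    exact h.oldE w0 i hi j hj (same_mirE.1 hs)

/-- the group has the height of `S` -/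
theorem TyJEM.htp' (h : TyJEM S F g) : ∀ c ∈ F, htc c = OddHC.ht S := by
  obtain ⟨F0, g0, h0, _, hF, _⟩ := h.mirr
  intro c hc
  obtain ⟨x, rfl⟩ : ∃ x : X k, cyc x = c := by
    induction c using Quotient.inductionOn with
    | h x => exact ⟨x, rfl⟩
  have h1 := h0.htp' _ ((hF x).1 hc)
  rw [HM.ht_mir, htc_cyc] at h1
  rw [htc_cyc, ← h1]
  exact (HM.ht_mir x.1).symm

theorem TyJEM.htg (h : TyJEM S F g) : ∀ c ∈ F, ∀ d ∈ F, htc c = htc d := by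
  intro c hc d hd
  rw [h.htp' c hc, h.htp' d hd]

/-- contents of the group -/
theorem TyJEM.contF (h : TyJEM S F g) : ∀ c ∈ F, contc c = OddHC.cont S + {2} ∨
    contc c = OddHC.cont S + ({1} + {1}) := by
  obtain ⟨F0, g0, h0, _, hF, _⟩ := h.mirr
  intro c hc
  obtain ⟨x, rfl⟩ : ∃ x : X k, cyc x = c := by
    induction c using Quotient.inductionOn with
    | h x => exact ⟨x, rfl⟩
  have h1 := h0.contF _ ((hF x).1 hc)
  rw [HM.cont_mir] at h1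
  have e : contc (cyc (Tsq.mirX x)) = contc (cyc x) := HM.cont_mir x.1
  rw [e] at h1
  exact h1

/-- rank: every old word is HIGHER, except the word `S()()`, of content `cont S + {1, 1}` -/
theorem TyJEM.rank (h : TyJEM S F g) : ∀ w ∈ g.B, cyc w ∈ F ∨ (∀ c ∈ F, htc c < htc (cyc w)) ∨
    (w.1 = app S (.nil △ (.nil △ .nil)) ∧ contc (cyc w) = OddHC.cont S + ({1} + {1})) := by
  have hh := h.htp'
  obtain ⟨F0, g0, h0, hB, hF, _⟩ := h.mirr
  intro w hw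
  have hh0 := h0.htp'
  rcases h0.rank _ ((hB w).1 hw) with h1 | h1 | ⟨h1, h2⟩
  · exact Or.inl ((hF w).2 h1)
  · right; left
    intro c hc
    obtain ⟨x, rfl⟩ : ∃ x : X k, cyc x = c := by
      induction c using Quotient.inductionOn with
      | h x => exact ⟨x, rfl⟩
    have h2 := h1 _ ((hF x).1 hc)
    rw [htc_cyc, htc_cyc] at h2
    have e1 : OddHC.ht (Tsq.mirX x).1 = OddHC.ht x.1 := HM.ht_mir x.1
    have e2 : OddHC.ht (Tsq.mirX w).1 = OddHC.ht w.1 := HM.ht_mir w.1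
    rw [e1, e2] at h2
    rw [htc_cyc, htc_cyc]
    exact h2
  · right; right
    constructor
    · have h3 : Tsq.mir w.1 = .nil △ (.nil △ Tsq.mir S) := h1
      have h4 := congrArg Tsq.mir h3
      rw [Tsq.mir_mir] at h4
      rw [h4]
      simp only [Tsq.mir_node, Tsq.mir_mir, H1.app_assoc]
      rfl
    · rw [HM.cont_mir] at h2
      have e : contc (cyc (Tsq.mirX w)) = contc (cyc w) := HM.cont_mir w.1
      rw [e] at h2
      exact h2

/-- rank as a LATE group: the old words are `Lower` than the content `cont S + {2}` -/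
theorem TyJEM.rankL (h : TyJEM S F g) : ∀ w ∈ g.B, cyc w ∈ F ∨ H1.Lower (contc (cyc w)) (OddHC.cont S + {2}) := by
  obtain ⟨F0, g0, h0, hB, hF, _⟩ := h.mirr
  intro w hw
  rcases h0.rankL _ ((hB w).1 hw) with h1 | h1
  · exact Or.inl ((hF w).2 h1)
  · right
    rw [HM.cont_mir] at h1
    have e : contc (cyc (Tsq.mirX w)) = contc (cyc w) := HM.cont_mir w.1
    rw [e] at h1
    exact h1

theorem TyJEM.old (h : TyJEM S F g) : ∃ u ∈ g.B, cyc u ∉ F := by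
  obtain ⟨F0, g0, h0, hB, hF, _⟩ := h.mirr
  obtain ⟨u, hu, hu'⟩ := h0.old
  refine ⟨Tsq.mirX u, (hB _).2 (by rw [mir2]; exact hu), ?_⟩
  intro e
  rw [hF, mir2] at e
  exact hu' e

theorem TyJEM.path (h : TyJEM S F g) : ∀ a ∈ g.arcs, ∃ n : ℕ, (TT ^ (n + 1)) a.1 = a.2 ∧ a.1 ∈ g.B ∧
    ∀ i < n, (TT ^ (i + 1)) a.1 ∈ innA a := by
  obtain ⟨B, S', w0, h1, hp, rfl, rfl⟩ := h
  intro p hq
  have hq' : ∃ q ∈ arG13M, p = (sYe (Tsq.mir S) B S' w0 q.1, sYe (Tsq.mir S) B S' w0 q.2) := hq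
  obtain ⟨q, hq1, rfl⟩ := hq'
  have h2 : q.1 ∈ ixG13 ∧ (q.2, q.1) ∈ [(0, 10), (1, 11), (3, 12), (6, 15), (8, 14), (9, 17)] :=
    (by decide : ∀ q ∈ arG13M, q.1 ∈ ixG13 ∧ (q.2, q.1) ∈ [(0, 10), (1, 11), (3, 12), (6, 15), (8, 14), (9, 17)]) q hq1
  refine ⟨1, ?_, mem_gadOf_B.2 ⟨q.1, h2.1, rfl⟩, ?_⟩
  · rw [pow_succ, pow_one, Perm.mul_apply]
    exact Tsq.TT_mir2 (h1.link w0 h2.2)
  · intro n hn
    obtain rfl : n = 0 := by omega
    rw [pow_one]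
    rfl

/-! ### The words -/

/-- positions of the nine words of JVm -/
theorem w9_We {R B S : BinaryTree Unit} (h : Tsq.sq R = (S, B)) : ∀ i < 9,
    H1.W R .nil B S (ix9E i) = w9L .nil .nil R (xT R) i := by
  intro i hi
  have hx : xT R = S △ B := by rw [xT_sq, h]
  rw [hx]
  interval_cases i <;> rfl

theorem J3.SqD.d9M {B S' : BinaryTree Unit} (h : SqD k (Tsq.mir S) B S') {w0 : X k}
    (hp : JEOK (Tsq.mir S) B S' w0) : D9M .nil .nil S (fun i => sYe (Tsq.mir S) B S' w0 (ix9E i)) := by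
  have h3 := h.h3
  have ht2 := h.two
  have h0 : OddHC.ht (BinaryTree.nil : BinaryTree Unit) = 0 := rfl
  rw [HM.ht_mir] at h3 ht2
  rw [Tsq.mir_num] at ht2
  refine ⟨by rw [h0]; omega, by rw [h0]; omega, ht2, ?_, ?_⟩
  · intro i hi
    have hi' : ix9E i < 20 := (by decide : ∀ i < 9, ix9E i < 20) i hi
    change Tsq.mir (sX (Tsq.mir S) B S' w0 (ix9E i)).1 = _
    rw [h.word w0 hi', w9_We h.sq i hi]
    have h1 := mir_w9LM .nil .nil S (xT (Tsq.mir S)) i hi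
    have e0 : Tsq.mir (.nil : BinaryTree Unit) = .nil := rfl
    rw [e0] at h1
    rw [← h1, Tsq.mir_mir]
    rfl
  · intro e
    exact hp.n04 (cyc_mir_iff.1 e)

/-- the JVm gadget over `S`: its words are words of JEM -/
theorem TyJEM.toIs9M (h : TyJEM S F g) : ∃ F1 g1, Is9M .nil .nil S F1 g1 ∧ F1 ⊆ F ∧ (∀ x ∈ g1.B, x ∈ g.B) ∧
    g1.arcs = g.arcs := by
  obtain ⟨B, S', w0, h1, hp, rfl, rfl⟩ := h
  refine ⟨_, _, ⟨_, h1.d9M hp, rfl, rfl⟩, ?_, ?_, ?_⟩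
  · rintro c (rfl | rfl)
    · exact ⟨0, by decide, rfl⟩
    · exact ⟨4, by decide, rfl⟩
  · intro x hx
    obtain ⟨i, hi, rfl⟩ := mem_gad9M.1 hx
    exact mem_gadOf_B.2 ⟨ix9E i, (by decide : ∀ i < 9, ix9E i ∈ ixG13) i hi, rfl⟩
  · ext p
    change p ∈ ({(sYe (Tsq.mir S) B S' w0 17, sYe (Tsq.mir S) B S' w0 9),
      (sYe (Tsq.mir S) B S' w0 12, sYe (Tsq.mir S) B S' w0 3),
      (sYe (Tsq.mir S) B S' w0 15, sYe (Tsq.mir S) B S' w0 6)} : Set (X k × X k)) ↔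
      ∃ q ∈ arG13M, p = (sYe (Tsq.mir S) B S' w0 q.1, sYe (Tsq.mir S) B S' w0 q.2)
    simp only [arG13M, List.mem_cons, List.not_mem_nil, or_false, exists_eq_or_imp, exists_eq_left,
      Set.mem_insert_iff, Set.mem_singleton_iff]
    tauto

theorem J3.SqD.mirrS {B S' : BinaryTree Unit} (h : SqD k (Tsq.mir S) B S') :
    SqD k S (Tsq.sq S).2 (Tsq.sq S).1 := by
  have h1 := h.h3
  have h2 := h.one
  have h3 := h.two
  have h4 := h.size
  rw [HM.ht_mir] at h1 h3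
  rw [HM.cont_mir] at h2
  rw [Tsq.mir_num] at h3 h4
  exact ⟨rfl, h1, h2, h3, h4⟩

/-- **rows by reuse**: a word of JEM is a word of a JVm gadget over `S` (group in `F`) or one of `S()()`, `()S()`, `()()S`, `(S)()`,
which are the words 1, 2, 5, 6 of the right words over `S` -/
theorem TyJEM.cases (h : TyJEM S F g) {x : X k} (hx : x ∈ g.B)
    (hV : ∀ F1 g1, Is9M .nil .nil S F1 g1 → F1 ⊆ F → x ∉ g1.B)
    (h4 : ∀ (B2 S2 : BinaryTree Unit) (w0 : X k), SqD k S B2 S2 → (∀ i ∈ [0, 4, 2, 5], cyc (sX S B2 S2 w0 i) ∈ F) →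
      ∀ i ∈ [1, 2, 5, 6], x ≠ sX S B2 S2 w0 i) : False := by
  obtain ⟨B, S', w0, h1, hp, rfl, rfl⟩ := h
  have hs := h1.mirrS
  obtain ⟨i, hi, rfl⟩ := mem_gadOf_B.1 hx
  have hd : ∀ i ∈ ixG13, i ∈ [1, 2, 5, 8] ∨ ∃ j < 9, ix9E j = i := by decide
  -- the words over `S`
  have e0 : Tsq.mir (BinaryTree.nil : BinaryTree Unit) = .nil := rfl
  have key : ∀ i j, i < 20 → j < 20 → Tsq.mir (H1.W (Tsq.mir S) .nil B S' i) =
      H1.W S .nil (Tsq.sq S).2 (Tsq.sq S).1 j → sYe (Tsq.mir S) B S' w0 i = sX S (Tsq.sq S).2 (Tsq.sq S).1 w0 j := by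
    intro i j hi hj e
    apply Subtype.ext
    rw [hs.word w0 hj]
    change Tsq.mir (sX (Tsq.mir S) B S' w0 i).1 = _
    rw [h1.word w0 hi, e]
  have k0 : sYe (Tsq.mir S) B S' w0 0 = sX S (Tsq.sq S).2 (Tsq.sq S).1 w0 4 := by
    refine key 0 4 (by norm_num) (by norm_num) ?_
    simp only [H1.W, Tsq.mir_app, Tsq.mir_node, Tsq.mir_mir, e0, app]
  have k4 : sYe (Tsq.mir S) B S' w0 4 = sX S (Tsq.sq S).2 (Tsq.sq S).1 w0 0 := by
    refine key 4 0 (by norm_num) (by norm_num) ?_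
    simp only [H1.W, Tsq.mir_app, Tsq.mir_node, Tsq.mir_mir, e0, app]
  have k1 : sYe (Tsq.mir S) B S' w0 1 = sX S (Tsq.sq S).2 (Tsq.sq S).1 w0 5 := by
    refine key 1 5 (by norm_num) (by norm_num) ?_
    simp only [H1.W, Tsq.mir_app, Tsq.mir_node, Tsq.mir_mir, e0, app]
  have k2 : sYe (Tsq.mir S) B S' w0 2 = sX S (Tsq.sq S).2 (Tsq.sq S).1 w0 2 := by
    refine key 2 2 (by norm_num) (by norm_num) ?_
    simp only [H1.W, Tsq.mir_app, Tsq.mir_node, Tsq.mir_mir, e0, app]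
  have k5 : sYe (Tsq.mir S) B S' w0 5 = sX S (Tsq.sq S).2 (Tsq.sq S).1 w0 1 := by
    refine key 5 1 (by norm_num) (by norm_num) ?_
    simp only [H1.W, Tsq.mir_app, Tsq.mir_node, Tsq.mir_mir, e0, app, H1.app_assoc]
  have k8 : sYe (Tsq.mir S) B S' w0 8 = sX S (Tsq.sq S).2 (Tsq.sq S).1 w0 6 := by
    refine key 8 6 (by norm_num) (by norm_num) ?_
    simp only [H1.W, Tsq.mir_app, Tsq.mir_node, Tsq.mir_mir, e0, app]
  have hF : ∀ i ∈ [0, 4, 2, 5], cyc (sX S (Tsq.sq S).2 (Tsq.sq S).1 w0 i) ∈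
      {c | ∃ i ∈ nwG13, c = cyc (sYe (Tsq.mir S) B S' w0 i)} := by
    intro i hi
    simp only [List.mem_cons, List.not_mem_nil, or_false] at hi
    rcases hi with rfl | rfl | rfl | rfl
    · exact ⟨4, by decide, by rw [k4]⟩
    · exact ⟨0, by decide, by rw [k0]⟩
    · exact ⟨2, by decide, by rw [k2]⟩
    · exact ⟨1, by decide, by rw [k1]⟩
  rcases hd i hi with h2 | ⟨j, hj, rfl⟩
  · simp only [List.mem_cons, List.not_mem_nil, or_false] at h2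
    rcases h2 with rfl | rfl | rfl | rfl
    · exact h4 _ _ w0 hs hF 5 (by decide) k1
    · exact h4 _ _ w0 hs hF 2 (by decide) k2
    · exact h4 _ _ w0 hs hF 1 (by decide) k5
    · exact h4 _ _ w0 hs hF 6 (by decide) k8
  · refine hV _ _ ⟨_, h1.d9M hp, rfl, rfl⟩ ?_ (mem_gad9M.2 ⟨j, hj, rfl⟩)
    rintro c (rfl | rfl)
    · exact ⟨0, by decide, rfl⟩
    · exact ⟨4, by decide, rfl⟩

theorem TyJEM.sqd (h : TyJEM S F g) : SqD k S (Tsq.sq S).2 (Tsq.sq S).1 := by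
  obtain ⟨B, S', w0, h1, _⟩ := h
  exact h1.mirrS

end Pool.OddHC
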