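import Pool.Agent.Work.MP_8f87b2_h84.JEW5
import Pool.Agent.Work.MP_8f87b2_h4.J1J3V
import Pool.Agent.Work.MP_8f87b2_h4.W9
import Pool.Agent.Work.MP_8f87b2_h16.MV
import Pool.Agent.Work.MP_8f87b2_h17.TyJ2B

/-!
# MP_8f87b2_co: word rows of the 20 word gadget J2 (words `W R nil B S i`, `i < 20`, `(S, B) = sq R` any): J1 (`TyJs`), J4 (`TyJt`),
J3 / JM / H (`JG`), and the exact list against every pair gadget of the same type (JV, JE, J3V, J2)
-/

set_option autoImplicit false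
set_option linter.unusedSimpArgs false

namespace Pool.OddHC

open Finset Equiv BinaryTree Pool.Agent.Work.MP_8f87b2_co

open J J3 H1

variable {k : ℕ} {F F' : Set (Cyc k)} {g g' : DG k} {R B S R' B' S' : BinaryTree Unit}

/-! ### J1 -/

/-- a word of `SqD` type in `TyJs`: only `S(B)` with a bare square `B = (())` over one soliton -/
theorem J3.SqD.meetJs (h : SqD k R B S) (hk : 11 ≤ k) (h' : J1.TyJs F' g') {w0 : X k}
    (hz : cyc (sX R B S w0 0) ∉ F') (hne : cyc (sX R B S w0 0) ≠ cyc (sX R B S w0 4)) {w : X k} (hw : w ∈ g'.B)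
    {i : ℕ} (hi : i < 20) (e : w.1 = H1.W R .nil B S i) : B = H1.ch 2 ∧ ∃ m, 2 ≤ m ∧ S = H1.ch m := by
  obtain ⟨n, v0, hn, h1, h4, hF, hg⟩ := h'
  subst hF hg
  obtain ⟨j, hj, rfl⟩ := J1.mem_gadJA.1 hw
  have h1' := h1.sqD
  rw [J1.jX_eq h1 v0 hj] at e
  have hnum := h1.num
  rw [num_app', num_ch, num_ch] at hnum
  have hF : ∀ b, b = 0 ∨ b = 10 ∨ b = 4 → ∀ x : X k,
      x.1 = H1.W (app (H1.ch (n + 1)) (H1.ch 3)) .nil (H1.ch 3) (H1.ch (n + 1)) b →
      cyc x = cyc (J1.jX (app (H1.ch (n + 1)) (H1.ch 3)) (H1.ch 3) (H1.ch (n + 1)) v0 0) := by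
    intro b hb x hx
    have hx' : x = J1.jX (app (H1.ch (n + 1)) (H1.ch 3)) (H1.ch 3) (H1.ch (n + 1)) v0 b := Subtype.ext (by
      rw [hx, J1.jX_eq h1 v0 (by rcases hb with rfl | rfl | rfl <;> norm_num)])
    rcases hb with rfl | rfl | rfl
    · rw [hx']
    · rw [hx', ← J1.jX_link h1 v0 (i := 0) (j := 10) (by simp), cyc_eq]
      exact ⟨-2, by simp [zpow_neg, pow_succ]⟩
    · rw [hx', h4]
  have hz0 : cyc (sX R B S w0 0) ≠
      cyc (J1.jX (app (H1.ch (n + 1)) (H1.ch 3)) (H1.ch 3) (H1.ch (n + 1)) v0 0) := hz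
  have hz10 : cyc (sX R B S w0 10) ≠
      cyc (J1.jX (app (H1.ch (n + 1)) (H1.ch 3)) (H1.ch 3) (H1.ch (n + 1)) v0 0) := by
    rw [← cyc_eq.2 (h.same w0 (i := 0) (j := 10) (by simp))]
    exact hz0
  have c3 : H1.ch 3 ≠ .nil := by rw [H1.ch_succ]; simp
  rcases h.meetN h1' hi hj e.symm with k1 | k1 | k1 | ⟨k1, k2⟩ | ⟨k1, k2⟩ | ⟨k1, k2, k3⟩
  · exfalso
    subst k1
    refine hz0 (hF 0 (Or.inl rfl) _ ?_)
    rw [h.word w0 (by norm_num)]
    rfl
  · exact absurd k1.1 c3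
  · -- `B = nil`, `R' = S`: the word `(())S`
    exfalso
    obtain ⟨rfl, k1⟩ := k1
    refine hz10 (hF 4 (Or.inr (Or.inr rfl)) _ ?_)
    rw [h.word w0 (by norm_num), k1]
    rfl
  · -- `(S)B = [n][4]`, the class `(n, 4, 2)` is one T-cycle
    exfalso
    have e1 : S △ B = H1.ch n △ H1.ch 4 := k1
    obtain ⟨e2, e3⟩ := H1.node_inj e1
    obtain ⟨n, rfl⟩ : ∃ m, n = m + 1 := ⟨n - 1, by omega⟩
    have hc : OddHC.cont R = {n + 1} + {4} := by
      rw [← h.cont, e2, e3, H1.ch_cont, H1.ch_cont]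
      exact add_comm _ _
    refine hne (cyc_eq.2 (J1.same_42 (s := n + 1) (by omega) _ _ ?_ ?_))
    · rw [h.cont0, hc]
    · rw [h.cont4, hc]
  · have e1 : H1.ch (n + 1) △ H1.ch 3 = app S (B △ .nil) := k1
    cases S with
    | nil => exact absurd rfl h.neS
    | node _ P Q =>
      have e2 : H1.ch (n + 1) △ H1.ch 3 = P △ app Q (B △ .nil) := e1
      obtain ⟨e3, e4⟩ := H1.node_inj e2
      cases Q with
      | nil =>
        have e5 : H1.ch 2 △ .nil = B △ .nil := e4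
        refine ⟨(H1.node_inj e5).1.symm, n + 2, by omega, ?_⟩
        rw [← e3]
        rfl
      | node _ P' Q' =>
        exfalso
        have e5 : H1.ch 2 △ .nil = P' △ app Q' (B △ .nil) := e4
        exact H1.app_ne (by simp) (H1.node_inj e5).2.symm
  · exfalso
    rcases k1 with rfl | rfl | rfl
    · exact hz0 (hF j (by omega) _ (by rw [h.word w0 (by norm_num), e]))
    · rcases k2 with rfl | rfl | rfl
      · obtain ⟨Q, q1, q2⟩ := h1'.c04 h e
        have := h1.bare 2 (by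
          rw [q1, OddHC.cont_node, OddHC.cont_node, raise_nil, OddHC.cont_nil, add_zero]
          exact Multiset.mem_add.2 (Or.inl (by decide)))
        omega
      · exact k3 rfl
      · rcases h.c410 h1' e.symm with ⟨q1, q2⟩ | ⟨Q, q1, q2⟩
        · exact c3 q1
        · have h5 : 2 ∈ OddHC.cont (app (H1.ch (n + 1)) (H1.ch 3)) := by
            rw [← h1.cont, q1, OddHC.cont_node, OddHC.cont_node, raise_nil, OddHC.cont_nil, add_zero]
            exact Multiset.mem_add.2 (Or.inl (Multiset.mem_add.2 (Or.inl (by decide))))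
          have := h1.bare 2 h5
          omega
    · exact hz10 (hF j (by omega) _ (by rw [h.word w0 (by norm_num), e]))

/-! ### J4 -/

/-- a mirrored word of `SqD` type (the other 7 words) in the list of `TyJt`: the content of `R` is `{n+1, 4}` -/
theorem J3.SqD.jtb (h : SqD k R B S) {n : ℕ} (hn : 6 ≤ n) {i : ℕ} (hi : i ∈ [10, 11, 13, 14, 16, 18, 19]) {j : ℕ} (hj : j < 20)
    (e : comps (Tsq.mir (H1.W R .nil B S i)) = J1.jt n j) : OddHC.cont R = {n + 1} + {4} := by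
  obtain ⟨n, rfl⟩ : ∃ m, n = m + 6 := ⟨n - 6, by omega⟩
  have chn : ∀ m, H1.ch (m + 1) ≠ .nil := fun m => by rw [H1.ch_succ]; simp
  have c1 : H1.ch (n + 6) ≠ .nil := chn _
  have c2 : H1.ch (n + 6 + 1) ≠ .nil := chn _
  have c3 : H1.ch 3 ≠ .nil := chn _
  have c4 : H1.ch 4 ≠ .nil := chn _
  have c5 : H1.ch 1 ≠ .nil := chn _
  have cR : J1.RS (n + 6) ≠ .nil := by change H1.ch (n + 6) △ H1.ch 4 ≠ .nil; simp
  have l11 : H1.ch 1 = .nil △ .nil := rfl
  have chi : ∀ a b, H1.ch a = H1.ch b → a = b := fun a b e1 => by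
    have := congrArg OddHC.ht e1
    rwa [ht_ch, ht_ch] at this
  have chi' : ∀ a b, H1.ch a = H1.ch b ↔ a = b := fun a b => ⟨chi a b, fun e1 => by rw [e1]⟩
  have d1 : (.nil △ .nil : BinaryTree Unit) ≠ H1.ch (n + 6) := fun e1 => by have := chi 1 (n + 6) e1; omega
  have d2 : (.nil △ .nil : BinaryTree Unit) ≠ H1.ch (n + 6 + 1) := fun e1 => by have := chi 1 (n + 6 + 1) e1; omega
  have d3 : (.nil △ .nil : BinaryTree Unit) ≠ H1.ch 3 := fun e1 => by have := chi 1 3 e1; omega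
  have d4 : (.nil △ .nil : BinaryTree Unit) ≠ H1.ch 4 := fun e1 => by have := chi 1 4 e1; omega
  have f1 : ∀ (m : ℕ) (Z : BinaryTree Unit), .nil △ Z = H1.ch (m + 2) ↔ False := fun m Z => by
    refine ⟨fun e1 => ?_, False.elim⟩
    rw [H1.ch_succ] at e1
    exact chn m (H1.node_inj e1).1.symm
  have f2 : ∀ Z : BinaryTree Unit, .nil △ Z = J1.RS (n + 6) ↔ False := fun Z =>
    ⟨fun e1 => c1 (H1.node_inj (show BinaryTree.nil △ Z = H1.ch (n + 6) △ H1.ch 4 from e1)).1.symm, False.elim⟩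
  have rS : comps (J1.RS (n + 6)) = [H1.ch (n + 6), H1.ch 3] := rfl
  have h0 : Tsq.mir BinaryTree.nil = BinaryTree.nil := rfl
  have hht : OddHC.ht B ≤ OddHC.ht S := by rw [h.htS]; exact h.htB
  have mS : Tsq.mir S ≠ .nil := mir_ne4 h.neS
  have hB1 : (OddHC.cont (Tsq.mir B)).count 1 = 0 := by rw [HM.cont_mir]; exact h.oneB
  have hS1 : (OddHC.cont (Tsq.mir S)).count 1 = 0 := by rw [HM.cont_mir]; exact h.oneS
  have nS : .nil ∉ comps (Tsq.mir S) := MV.nil_mem hS1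
  have nB : .nil ∉ comps (Tsq.mir B) := MV.nil_mem hB1
  have hS0 : comps (Tsq.mir S) ≠ [] := comps_ne mS
  have g1 : ∀ m, BinaryTree.nil = H1.ch (m + 1) ↔ False := fun m => ⟨fun e1 => chn m e1.symm, False.elim⟩
  have g2 : BinaryTree.nil = J1.RS (n + 6) ↔ False := ⟨fun e1 => cR e1.symm, False.elim⟩
  have g3 : comps (Tsq.mir S) = [] ↔ False := ⟨fun e1 => hS0 e1, False.elim⟩
  have q3 : comps (H1.ch 3) = [H1.ch 2] := rfl
  have q4 : comps (H1.ch 4) = [H1.ch 3] := rfl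
  have q6 : comps (H1.ch (n + 6)) = [H1.ch (n + 5)] := rfl
  have q7 : comps (H1.ch (n + 6 + 1)) = [H1.ch (n + 6)] := rfl
  have aS : ∀ Z, app (Tsq.mir S) (.nil △ .nil) = Z ↔ comps (Tsq.mir S) ++ [.nil] = comps Z := fun Z =>
    ⟨fun e1 => by rw [← e1, comps_app]; rfl, fun e1 => comps_inj (by rw [comps_app]; exact e1)⟩
  have aC : ∀ (L M : List (BinaryTree Unit)) (x y : BinaryTree Unit), L ++ [x] = M ++ [y] ↔ L = M ∧ x = y :=
    fun L M x y => by simp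
  -- good
  have goodS : comps (Tsq.mir B) = [] → comps (Tsq.mir S) = [H1.ch (n + 6), H1.ch 3] →
      OddHC.cont R = {n + 6 + 1} + {4} := by
    intro e1 e2
    have e3 : Tsq.mir B = .nil := comps_inj (by rw [e1]; rfl)
    have e4 : Tsq.mir S = J1.RS (n + 6) := comps_inj (by rw [e2]; rfl)
    have e5 : B = .nil := by
      by_contra hB
      exact mir_ne4 hB e3
    rw [← h.cont, e5, cont_nil, zero_add, ← HM.cont_mir S, e4]
    change OddHC.cont (app (H1.ch (n + 6 + 1)) (H1.ch 4)) = _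
    rw [cont_app, H1.ch_cont, H1.ch_cont]
  -- bad
  have badh : ∀ m p, comps (Tsq.mir S) = [H1.ch m] → comps (Tsq.mir B) = [H1.ch p] → m < p → False := by
    intro m p e1 e2 h5
    have e3 : Tsq.mir B = H1.ch (p + 1) := comps_inj (by rw [e2]; rfl)
    have e4 : Tsq.mir S = H1.ch (m + 1) := comps_inj (by rw [e1]; rfl)
    have k1 := ht_mir4 S
    have k2 := ht_mir4 B
    rw [e4, ht_ch] at k1
    rw [e3, ht_ch] at k2
    omega
  have cB : ∀ m, Tsq.mir B = H1.ch (m + 1) → comps (Tsq.mir B) = [H1.ch m] := fun m e1 => by rw [e1]; rfl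
  have cS : ∀ m, Tsq.mir S = H1.ch (m + 1) → comps (Tsq.mir S) = [H1.ch m] := fun m e1 => by rw [e1]; rfl
  have e10 : comps (Tsq.mir (H1.W R .nil B S 10)) = comps (Tsq.mir S) ++ (.nil △ .nil) :: comps (Tsq.mir B) := by
    simp only [H1.W, Tsq.mir_node, Tsq.mir_app, h0, app, comps_node, comps_app, comps, List.nil_append, List.append_assoc, List.cons_append]
  have e11 : comps (Tsq.mir (H1.W R .nil B S 11)) = comps (Tsq.mir S) ++ .nil :: .nil :: comps (Tsq.mir B) := by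
    simp only [H1.W, Tsq.mir_node, Tsq.mir_app, h0, app, comps_node, comps_app, comps, List.nil_append, List.append_assoc, List.cons_append]
  have e13 : comps (Tsq.mir (H1.W R .nil B S 13)) = (.nil △ Tsq.mir B) :: comps (Tsq.mir S) := by
    simp only [H1.W, Tsq.mir_node, Tsq.mir_app, h0, app, comps_node, comps_app, comps, List.nil_append, List.append_assoc, List.cons_append]
  have e14 : comps (Tsq.mir (H1.W R .nil B S 14)) = comps (Tsq.mir B) ++ [app (Tsq.mir S) (.nil △ .nil)] := by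
    simp only [H1.W, Tsq.mir_node, Tsq.mir_app, h0, app, comps_node, comps_app, comps, List.nil_append, List.append_assoc, List.cons_append]
  have e16 : comps (Tsq.mir (H1.W R .nil B S 16)) = .nil :: Tsq.mir B :: comps (Tsq.mir S) := by
    simp only [H1.W, Tsq.mir_node, Tsq.mir_app, h0, app, comps_node, comps_app, comps, List.nil_append, List.append_assoc, List.cons_append]
  have e18 : comps (Tsq.mir (H1.W R .nil B S 18)) = Tsq.mir B :: (comps (Tsq.mir S) ++ [.nil]) := by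
    simp only [H1.W, Tsq.mir_node, Tsq.mir_app, h0, app, comps_node, comps_app, comps, List.nil_append, List.append_assoc, List.cons_append]
  have e19 : comps (Tsq.mir (H1.W R .nil B S 19)) = [Tsq.mir B △ Tsq.mir S] := by
    simp only [H1.W, Tsq.mir_node, Tsq.mir_app, h0, app, comps_node, comps_app, comps, List.nil_append, List.append_assoc, List.cons_append]
  simp only [List.mem_cons, List.not_mem_nil, or_false] at hi
  rcases hi with rfl | rfl | rfl | rfl | rfl | rfl | rfl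
  · rw [e10] at e
    rcases hL : comps (Tsq.mir S) with _ | ⟨a, _ | ⟨b, _ | ⟨c, l⟩⟩⟩
    · exact absurd hL hS0
    all_goals
      rw [hL] at e
      interval_cases j <;> simp [J1.jt, chi', l11, f1, f2, g1, g2, g3] at e
    all_goals
      first
        | exact goodS e.2.2 (by rw [hL, e.1, e.2.1])
        | exact (badh _ _ (by rw [hL, e.1]) e.2 (by omega)).elim
        | (exfalso; apply nS; rw [hL]; simp [e.1, e.2.1, e.2.2.1])
  · rw [e11] at e
    rcases hL : comps (Tsq.mir S) with _ | ⟨a, _ | ⟨b, _ | ⟨c, l⟩⟩⟩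
    · exact absurd hL hS0
    all_goals
      rw [hL] at e
      interval_cases j <;> simp [J1.jt, chi', l11, f1, f2, g1, g2, g3] at e
    all_goals
      first
        | exact goodS e.2.2 (by rw [hL, e.1, e.2.1])
        | exact (badh _ _ (by rw [hL, e.1]) e.2 (by omega)).elim
        | (exfalso; apply nS; rw [hL]; simp [e.1, e.2.1, e.2.2.1])
  · rw [e13] at e
    interval_cases j <;> simp [J1.jt, chi', l11, f1, f2, g1, g2, g3] at e
    all_goals
      first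
        | exact goodS (by rw [e.1]; rfl) e.2
        | exact (badh _ _ e.2 (cB _ e.1) (by omega)).elim
  · rw [e14] at e
    have gl : ∀ (L M : List (BinaryTree Unit)) (y : BinaryTree Unit), L ++ [.nil] = M ++ [y] → L = M ∧ BinaryTree.nil = y :=
      fun L M y e1 => (aC L M .nil y).1 e1
    rcases hL : comps (Tsq.mir B) with _ | ⟨a, _ | ⟨b, _ | ⟨c, l⟩⟩⟩
    all_goals
      rw [hL] at e
      interval_cases j <;> simp [J1.jt, chi', l11, f1, f2, g1, g2, g3, aS, q3, q4, q6, q7, rS, comps_node, comps] at e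
    all_goals
      first
        | exact goodS hL (gl _ [H1.ch (n + 6), H1.ch 3] _ e).1
        | exact ((g1 _).1 (gl _ [.nil, H1.ch (n + 6)] _ e).2).elim
        | exact (g2.1 (gl _ [] _ e).2).elim
        | exact ((g1 _).1 (gl _ [H1.ch (n + 6 + 1)] _ e).2).elim
        | exact ((g1 _).1 (gl _ [H1.ch (n + 6)] _ e).2).elim
        | exact (badh 3 (n + 6) (gl _ [H1.ch 3] _ e.2).1 (by rw [hL, e.1]) (by omega)).elim
        | exact ((g1 _).1 (gl _ [] _ e.2).2).elim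
        | exact ((g1 _).1 (gl _ [] _ e.2.2).2).elim
        | (exfalso; apply nB; rw [hL]; simp [e.1, e.2.1, e.2.2.1])
        | (exfalso; apply nB; rw [hL]; simp [e.1])
  · rw [e16] at e
    interval_cases j <;> simp [J1.jt, chi', l11, f1, f2, g1, g2, g3] at e
    all_goals
      first
        | exact goodS (by rw [e.1]; rfl) e.2
        | exact (badh _ _ e.2 (cB _ e.1) (by omega)).elim
        | (exfalso; apply nS; rw [e.2]; simp)
  · rw [e18] at e
    rcases hL : comps (Tsq.mir S) with _ | ⟨a, _ | ⟨b, _ | ⟨c, l⟩⟩⟩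
    · exact absurd hL hS0
    all_goals
      rw [hL] at e
      interval_cases j <;> simp [J1.jt, chi', l11, f1, f2, g1, g2, g3] at e
    all_goals
      first
        | exact goodS (by rw [e.1]; rfl) (by rw [hL, e.2.1, e.2.2])
        | exact (badh _ _ (by rw [hL, e.2]) (cB _ e.1) (by omega)).elim
        | (exfalso; apply nS; rw [hL]; simp [e.2.2])
  · rw [e19] at e
    interval_cases j <;> simp [J1.jt, chi', l11, f1, f2, g1, g2, g3] at e
    all_goals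
      first
        | exact goodS (by rw [e.1]; rfl) (by rw [e.2]; rfl)
        | exact absurd e.2 mS
        | exact (badh 3 _ (by rw [e.2]; rfl) (cB _ e.1) (by omega)).elim
        | exact (badh 4 _ (by rw [e.2]; rfl) (cB _ e.1) (by omega)).elim
        | (exfalso; apply nS; rw [e.2]; simp [comps_node, comps])

/-- all 20 words -/
theorem J3.SqD.jt20 (h : SqD k R B S) {n : ℕ} (hn : 6 ≤ n) {i : ℕ} (hi : i < 20) {j : ℕ} (hj : j < 20)
    (e : comps (Tsq.mir (H1.W R .nil B S i)) = J1.jt n j) : OddHC.cont R = {n + 1} + {4} := by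
  rcases (by decide : ∀ i < 20, i ∈ ixG13 ∨ i ∈ [10, 11, 13, 14, 16, 18, 19]) i hi with h1 | h1
  · exact h.jt (by omega) h1 hj e
  · exact h.jtb hn h1 hj e

/-- **no word of `SqD` type in `TyJt`** (`k ≥ 13`; for `k = 12` there is `[5]([5])()`, the mirrored word 18 of `[7][4]`) -/
theorem J3.SqD.dis_Jt (h : SqD k R B S) (hk : 13 ≤ k) (h' : J1.TyJt F' g') {w0 : X k}
    (hz : cyc (sX R B S w0 0) ∉ F') {w : X k} {i : ℕ} (hi : i < 20) (e : w.1 = H1.W R .nil B S i) : w ∉ g'.B := by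
  obtain ⟨n, hn, hk', h3, h4⟩ := h'.one
  intro hw
  obtain ⟨j, hj, e1⟩ := h3 _ hw
  rw [e] at e1
  have hc := h.jt20 (by omega) hi hj e1
  exact hz (h4 _ (by rw [h.cont0, hc]))

/-- **W-J2B-Jt** -/
theorem TyJ2R.dis_Jt (h : TyJ2R R B S F g) (hk : 13 ≤ k) (h' : J1.TyJt F' g') (hd : ∀ c ∈ F, c ∉ F') :
    ∀ w ∈ g.B, w ∉ g'.B := by
  intro w hw
  obtain ⟨i, hi, e⟩ := h.words w hw
  exact h.sqd.dis_Jt hk h' (w0 := w) (hd _ ((h.memF w _).2 (Or.inl rfl))) hi e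

/-- **W-J2B-Js** : `R` with two parts larger than 2 -/
theorem TyJ2R.dis_Js (h : TyJ2R R B S F g) (hk : 11 ≤ k) (h2 : 2 ≤ J3.cc R) (h' : J1.TyJs F' g')
    (hd : ∀ c ∈ F, c ∉ F') : ∀ w ∈ g.B, w ∉ g'.B := by
  intro w hw hw'
  obtain ⟨i, hi, e⟩ := h.words w hw
  have h4 : cyc (sX R B S w 0) ≠ cyc (sX R B S w 4) := by
    obtain ⟨w0, h1, hp, _, _⟩ := h
    have e0 : sX R B S w 0 = sX R B S w0 0 := Subtype.ext (by rw [h1.word w (by norm_num), h1.word w0 (by norm_num)])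
    have e4 : sX R B S w 4 = sX R B S w0 4 := Subtype.ext (by rw [h1.word w (by norm_num), h1.word w0 (by norm_num)])
    rw [e0, e4]
    exact fun e => hp.n4 e.symm
  obtain ⟨e1, m, hm, e2⟩ := h.sqd.meetJs hk h' (w0 := w) (hd _ ((h.memF w _).2 (Or.inl rfl))) h4 hw' hi e
  obtain ⟨m, rfl⟩ : ∃ a, m = a + 1 := ⟨m - 1, by omega⟩
  have hc := h.sqd.cont
  rw [e1, e2, H1.ch_cont, H1.ch_cont] at hc
  unfold J3.cc J.c3 at h2
  rw [← hc, Multiset.countP_add] at h2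
  have c1 : Multiset.countP (3 ≤ ·) ({1 + 1} : Multiset ℕ) = 0 := by decide
  have c2 : Multiset.countP (3 ≤ ·) ({m + 1} : Multiset ℕ) ≤ 1 := by
    have := Multiset.countP_le_card (p := (3 ≤ ·)) (s := ({m + 1} : Multiset ℕ))
    simpa using this
  omega

/-- **W-J2B-JG (J3, JM, J5, H)** by helper4's `dis_JG20` -/
theorem TyJ2R.dis_JG (h : TyJ2R R B S F g) (h4 : 4 ≤ OddHC.ht R) (h2 : 2 ≤ J3.cc R) {n : ℕ}
    (hn : 1 ≤ n) {B' : Finset (X k)} {P U M : Set (ZMod (2 * n + 1) → ℕ)} (hJ : J.JG n B' P U M) :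
    ∀ w ∈ g.B, w ∉ B' := by
  intro w hw
  obtain ⟨i, hi, e⟩ := h.words w hw
  exact h.sqd.dis_JG20 h2 h4 hn hJ hi e

/-- **W-J2B-T** by helper4's `TyT.dis20`: no condition -/
theorem TyJ2R.dis_T (h : TyJ2R R B S F g) (h' : TyT F' g') : ∀ w ∈ g.B, w ∉ g'.B := by
  intro w hw
  obtain ⟨i, hi, e⟩ := h.words w hw
  exact h'.dis20 h.sqd hi e

/-! ### The exact list against the gadgets of the same type -/

/-- two phases with disjoint groups containing `z`, `z'`: a common word only by the shift `S B = S'(B')` (or conversely) -/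
theorem J3.SqD.meetF (h : SqD k R B S) (h' : SqD k R' B' S') {w0 w0' : X k} (hd : ∀ c ∈ F, c ∉ F')
    (m0 : cyc (sX R B S w0 0) ∈ F) (m4 : cyc (sX R B S w0 4) ∈ F) (m0' : cyc (sX R' B' S' w0' 0) ∈ F')
    (m4' : cyc (sX R' B' S' w0' 4) ∈ F') {i j : ℕ} (hi : i < 20) (hj : j < 20)
    (e : H1.W R .nil B S i = H1.W R' .nil B' S' j) :
    (S △ B = app S' (B' △ .nil) ∧ OddHC.ht R' = OddHC.ht R + 1 ∧ B ≠ .nil ∧ B' ≠ .nil ∧
      ((i = 15 ∧ j = 18) ∨ (i = 12 ∧ j = 16) ∨ (i = 17 ∧ j = 19))) ∨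
    (S' △ B' = app S (B △ .nil) ∧ OddHC.ht R = OddHC.ht R' + 1 ∧ B ≠ .nil ∧ B' ≠ .nil ∧
      ((i = 18 ∧ j = 15) ∨ (i = 16 ∧ j = 12) ∨ (i = 19 ∧ j = 17))) := by
  have hF : ∀ i, i = 0 ∨ i = 4 ∨ i = 10 → cyc (sX R B S w0 i) ∈ F := by
    rintro i (rfl | rfl | rfl)
    · exact m0
    · exact m4
    · rw [← cyc_eq.2 (h.same w0 (i := 0) (j := 10) (by simp))]
      exact m0
  have hF' : ∀ i, i = 0 ∨ i = 4 ∨ i = 10 → cyc (sX R' B' S' w0' i) ∈ F' := by
    rintro i (rfl | rfl | rfl)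
    · exact m0'
    · exact m4'
    · rw [← cyc_eq.2 (h'.same w0' (i := 0) (j := 10) (by simp))]
      exact m0'
  rcases h.meetN h' hi hj e with h2 | ⟨h2, h3⟩ | ⟨h2, h3⟩ | ⟨h2, h3⟩ | ⟨h2, h3⟩ | ⟨h2, h3, _⟩
  · exfalso
    refine hd _ m0 ?_
    rw [← h.zR h' w0 w0' h2]
    exact m0'
  · exfalso
    refine hd _ m4 ?_
    rw [← h.z10 h' w0 w0' h2 h3]
    exact m0'
  · exfalso
    refine hd _ m0 ?_
    rw [h'.z10 h w0' w0 h2 h3]
    exact m4'
  · obtain ⟨a1, a2, a3⟩ := h.sh h' h2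
    exact Or.inl ⟨h2, a1, a2, a3, by omega⟩
  · obtain ⟨a1, a2, a3⟩ := h'.sh h h2
    exact Or.inr ⟨h2, a1, a3, a2, by omega⟩
  · exfalso
    refine hd _ (hF i h2) ?_
    have e1 : sX R B S w0 i = sX R' B' S' w0' j := Subtype.ext (by rw [h.word w0 hi, h'.word w0' hj]; exact e)
    rw [e1]
    exact hF' j (by tauto)

/-- **W-J2B-J2B** with the word numbers -/
theorem TyJ2R.meet_J2 (h : TyJ2R R B S F g) (h' : TyJ2R R' B' S' F' g') (hd : ∀ c ∈ F, c ∉ F') {w : X k}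
    (hw : w ∈ g.B) (hw' : w ∈ g'.B) :
    (S △ B = app S' (B' △ .nil) ∧ OddHC.ht R' = OddHC.ht R + 1 ∧ B ≠ .nil ∧ B' ≠ .nil) ∨
    (S' △ B' = app S (B △ .nil) ∧ OddHC.ht R = OddHC.ht R' + 1 ∧ B ≠ .nil ∧ B' ≠ .nil) := by
  obtain ⟨i, hi, e⟩ := h.words w hw
  obtain ⟨j, hj, e'⟩ := h'.words w hw'
  rcases h.sqd.meetF h'.sqd (w0 := w) (w0' := w) hd ((h.memF w _).2 (Or.inl rfl)) ((h.memF w _).2 (Or.inr rfl))
    ((h'.memF w _).2 (Or.inl rfl)) ((h'.memF w _).2 (Or.inr rfl)) hi hj (e.symm.trans e') with k1 | k1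
  · exact Or.inl ⟨k1.1, k1.2.1, k1.2.2.1, k1.2.2.2.1⟩
  · exact Or.inr ⟨k1.1, k1.2.1, k1.2.2.1, k1.2.2.2.1⟩

/-- **W-J2B-JE**: only `(S')B' = S(B)`, JE one below, `B, B'` not nil -/
theorem TyJ2R.meet_JE (h : TyJ2R R B S F g) (h' : TyJE R' F' g') (hd : ∀ c ∈ F, c ∉ F') {w : X k}
    (hw : w ∈ g.B) (hw' : w ∈ g'.B) :
    (Tsq.sq R').1 △ (Tsq.sq R').2 = app S (B △ .nil) ∧ OddHC.ht R = OddHC.ht R' + 1 ∧ B ≠ .nil ∧
      (Tsq.sq R').2 ≠ .nil := by
  obtain ⟨B', S', w0', h1', hp', hB', hF', _⟩ := h'.inn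
  obtain ⟨i, hi, e⟩ := h.words w hw
  obtain ⟨j, hj, e'⟩ := hB' w hw'
  obtain ⟨j1, j3, j4, j5⟩ := (by decide : ∀ i ∈ ixG13, i < 20 ∧ i ≠ 18 ∧ i ≠ 16 ∧ i ≠ 19) j hj
  have m0' : ∀ i ∈ [0, 4], cyc (sX R' B' S' w0' i) ∈ F' := fun i hi => by
    rw [hF']; exact ⟨i, (by decide : ∀ i ∈ [0, 4], i ∈ nwG13) i hi, rfl⟩
  have e2 := congrArg Subtype.val e'
  rw [h1'.word w0' j1] at e2
  rw [h1'.sq]
  rcases h.sqd.meetF h1' (w0 := w) (w0' := w0') hd ((h.memF w _).2 (Or.inl rfl)) ((h.memF w _).2 (Or.inr rfl))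
    (m0' 0 (by simp)) (m0' 4 (by simp)) hi j1 (e.symm.trans e2) with k1 | k1
  · exfalso
    omega
  · exact ⟨k1.1, k1.2.1, k1.2.2.1, k1.2.2.2.1⟩

/-- **W-J2B-JV**: only `(S')B' = S(B)`, JV one below, `B, B'` not nil -/
theorem TyJ2R.meet_JV (h : TyJ2R R B S F g) (h' : Is9 .nil .nil R' F' g') (h1' : (OddHC.cont R').count 1 = 0)
    (h3' : 3 ≤ OddHC.ht R') (hd : ∀ c ∈ F, c ∉ F') {w : X k} (hw : w ∈ g.B) (hw' : w ∈ g'.B) :
    (Tsq.sq R').1 △ (Tsq.sq R').2 = app S (B △ .nil) ∧ OddHC.ht R = OddHC.ht R' + 1 ∧ B ≠ .nil ∧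
      (Tsq.sq R').2 ≠ .nil := by
  obtain ⟨v, hD, hF', rfl⟩ := h'
  have hq := hD.sqD h1' h3'
  obtain ⟨i, hi, e⟩ := h.words w hw
  obtain ⟨j, hj, rfl⟩ := mem_gad9.1 hw'
  obtain ⟨j1, j3, j4, j5⟩ := (by decide : ∀ i ∈ ixG13, i < 20 ∧ i ≠ 18 ∧ i ≠ 16 ∧ i ≠ 19) (ix9E j)
    ((by decide : ∀ i < 9, ix9E i ∈ ixG13) j hj)
  have v0 : v 0 = sX R' (Tsq.sq R').2 (Tsq.sq R').1 (v 0) 0 :=
    Subtype.ext (by rw [hq.word _ (by norm_num)]; exact hD.wordE 0 (by norm_num))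
  have v1 : v 1 = sX R' (Tsq.sq R').2 (Tsq.sq R').1 (v 0) 4 :=
    Subtype.ext (by rw [hq.word _ (by norm_num)]; exact hD.wordE 1 (by norm_num))
  have m0' : cyc (sX R' (Tsq.sq R').2 (Tsq.sq R').1 (v 0) 0) ∈ F' := by rw [hF', ← v0]; exact Or.inl rfl
  have m4' : cyc (sX R' (Tsq.sq R').2 (Tsq.sq R').1 (v 0) 4) ∈ F' := by rw [hF', ← v1]; exact Or.inr rfl
  rcases h.sqd.meetF hq (w0 := v j) (w0' := v 0) hd ((h.memF _ _).2 (Or.inl rfl)) ((h.memF _ _).2 (Or.inr rfl))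
    m0' m4' hi j1 (e.symm.trans (hD.wordE j hj)) with k1 | k1
  · exfalso
    omega
  · exact ⟨k1.1, k1.2.1, k1.2.2.1, k1.2.2.2.1⟩

end Pool.OddHC
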