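import Pool.Agent.Work.MP_8f87b2_h84.JEW4
import Pool.Agent.Work.MP_8f87b2_h4.Meet2

/-!
# MP_8f87b2_co: W-JE-JE, W-JE-JV, W-JE-J3V (by helper4's `SqD.meetN`)
-/

set_option autoImplicit false
set_option linter.unusedSimpArgs false

namespace Pool.OddHC

open Finset Equiv BinaryTree Pool.Agent.Work.MP_8f87b2_co

open J J3 H1

variable {k : ℕ} {F F' : Set (Cyc k)} {g g' : DG k} {R B S R' B' S' : BinaryTree Unit}

/-- if `B' = nil` and `R = S'`, the T-cycle of `R'(())` is that of `(())R` -/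
theorem J3.SqD.z10 (h : SqD k R B S) (h' : SqD k R' B' S') (w0 w0' : X k) (hB : B' = .nil) (hR : R = S') :
    cyc (sX R' B' S' w0' 0) = cyc (sX R B S w0 4) := by
  rw [cyc_eq.2 (h'.same w0' (i := 0) (j := 10) (by simp))]
  congr 1
  apply Subtype.ext
  rw [h'.word w0' (by norm_num), h.word w0 (by norm_num)]
  subst hB hR
  rfl

theorem J3.SqD.zR (h : SqD k R B S) (h' : SqD k R' B' S') (w0 w0' : X k) (hR : R = R') :
    cyc (sX R' B' S' w0' 0) = cyc (sX R B S w0 0) := by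
  congr 1
  apply Subtype.ext
  rw [h'.word w0' (by norm_num), h.word w0 (by norm_num)]
  subst hR
  rfl

/-- **W-JE-JE**: no condition -/
theorem TyJE.dis_JE (h : TyJE R F g) (h' : TyJE R' F' g') (hd : ∀ c ∈ F, c ∉ F') : ∀ w ∈ g.B, w ∉ g'.B := by
  obtain ⟨B, S, w0, h1, hp, hB, hF, _⟩ := h.inn
  obtain ⟨B', S', w0', h1', hp', hB', hF', _⟩ := h'.inn
  have lt : ∀ i ∈ ixG13, i < 20 ∧ i ≠ 10 ∧ i ≠ 18 ∧ i ≠ 16 ∧ i ≠ 19 := by decide
  intro w hw hw'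
  obtain ⟨i, hi, e⟩ := hB w hw
  obtain ⟨j, hj, e'⟩ := hB' w hw'
  obtain ⟨i1, i2, i3, i4, i5⟩ := lt i hi
  obtain ⟨j1, j2, j3, j4, j5⟩ := lt j hj
  have e1 := congrArg Subtype.val (e.symm.trans e')
  rw [h1.word w0 i1, h1'.word w0' j1] at e1
  have m0 : ∀ i ∈ [0, 4], cyc (sX R B S w0 i) ∈ F := fun i hi => by
    rw [hF]; exact ⟨i, (by decide : ∀ i ∈ [0, 4], i ∈ nwG13) i hi, rfl⟩
  have m0' : ∀ i ∈ [0, 4], cyc (sX R' B' S' w0' i) ∈ F' := fun i hi => by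
    rw [hF']; exact ⟨i, (by decide : ∀ i ∈ [0, 4], i ∈ nwG13) i hi, rfl⟩
  rcases h1.meetN h1' i1 j1 e1 with h2 | ⟨h2, h3⟩ | ⟨h2, h3⟩ | ⟨_, h2⟩ | ⟨_, h2⟩ | ⟨h2, h3, h4⟩
  · refine hd _ (m0 0 (by simp)) ?_
    rw [← h1.zR h1' w0 w0' h2]
    exact m0' 0 (by simp)
  · refine hd _ (m0 4 (by simp)) ?_
    rw [← h1.z10 h1' w0 w0' h2 h3]
    exact m0' 0 (by simp)
  · refine hd _ (m0 0 (by simp)) ?_
    rw [h1'.z10 h1 w0' w0 h2 h3]
    exact m0' 4 (by simp)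
  · rcases h2 with ⟨_, h2⟩ | ⟨_, h2⟩ | ⟨_, h2⟩
    · exact j3 h2
    · exact j4 h2
    · exact j5 h2
  · rcases h2 with ⟨h2, _⟩ | ⟨h2, _⟩ | ⟨h2, _⟩
    · exact i3 h2
    · exact i4 h2
    · exact i5 h2
  · have hi' : i ∈ [0, 4] := by
      rcases h2 with rfl | rfl | rfl
      · simp
      · simp
      · exact absurd rfl i2
    have hj' : j ∈ [0, 4] := by
      rcases h3 with rfl | rfl | rfl
      · simp
      · simp
      · exact absurd rfl j2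
    refine hd (cyc w) ?_ ?_
    · rw [e]; exact m0 i hi'
    · rw [e']; exact m0' j hj'

/-- **W-JE-JV**: no condition but no part 1 and height at least 3 -/
theorem TyJE.dis_JV (h : TyJE R F g) (h' : Is9 .nil .nil R' F' g') (h1' : (OddHC.cont R').count 1 = 0)
    (h3' : 3 ≤ OddHC.ht R') (hd : ∀ c ∈ F, c ∉ F') : ∀ w ∈ g.B, w ∉ g'.B := by
  obtain ⟨B, S, w0, h1, hp, hB, hF, _⟩ := h.inn
  obtain ⟨v, hD, hF', rfl⟩ := h'
  have hq := hD.sqD h1' h3'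
  have lt : ∀ i ∈ ixG13, i < 20 ∧ i ≠ 10 ∧ i ≠ 18 ∧ i ≠ 16 ∧ i ≠ 19 := by decide
  intro w hw hw'
  obtain ⟨i, hi, e⟩ := hB w hw
  obtain ⟨j, hj, rfl⟩ := mem_gad9.1 hw'
  obtain ⟨i1, i2, i3, i4, i5⟩ := lt i hi
  have hj13 : ix9E j ∈ ixG13 := (by decide : ∀ i < 9, ix9E i ∈ ixG13) j hj
  obtain ⟨j1, j2, j3, j4, j5⟩ := lt _ hj13
  have e1 := congrArg Subtype.val e
  rw [h1.word w0 i1, hD.wordE j hj] at e1
  have m0 : ∀ i ∈ [0, 4], cyc (sX R B S w0 i) ∈ F := fun i hi => by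
    rw [hF]; exact ⟨i, (by decide : ∀ i ∈ [0, 4], i ∈ nwG13) i hi, rfl⟩
  have v0 : v 0 = sX R' (Tsq.sq R').2 (Tsq.sq R').1 (v 0) 0 :=
    Subtype.ext (by rw [hq.word _ (by norm_num)]; exact hD.wordE 0 (by norm_num))
  have v1 : v 1 = sX R' (Tsq.sq R').2 (Tsq.sq R').1 (v 0) 4 :=
    Subtype.ext (by rw [hq.word _ (by norm_num)]; exact hD.wordE 1 (by norm_num))
  have m0' : cyc (sX R' (Tsq.sq R').2 (Tsq.sq R').1 (v 0) 0) ∈ F' := by rw [hF', ← v0]; exact Or.inl rfl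
  have m4' : cyc (sX R' (Tsq.sq R').2 (Tsq.sq R').1 (v 0) 4) ∈ F' := by rw [hF', ← v1]; exact Or.inr rfl
  rcases h1.meetN hq i1 j1 e1.symm with h2 | ⟨h2, h3⟩ | ⟨h2, h3⟩ | ⟨_, h2⟩ | ⟨_, h2⟩ | ⟨h2, h3, h4⟩
  · refine hd _ (m0 0 (by simp)) ?_
    rw [← h1.zR hq w0 (v 0) h2]
    exact m0'
  · refine hd _ (m0 4 (by simp)) ?_
    rw [← h1.z10 hq w0 (v 0) h2 h3]
    exact m0'
  · refine hd _ (m0 0 (by simp)) ?_
    rw [hq.z10 h1 (v 0) w0 h2 h3]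
    exact m4'
  · rcases h2 with ⟨_, h2⟩ | ⟨_, h2⟩ | ⟨_, h2⟩
    · exact j3 h2
    · exact j4 h2
    · exact j5 h2
  · rcases h2 with ⟨h2, _⟩ | ⟨h2, _⟩ | ⟨h2, _⟩
    · exact i3 h2
    · exact i4 h2
    · exact i5 h2
  · have hi' : i ∈ [0, 4] := by
      rcases h2 with rfl | rfl | rfl
      · simp
      · simp
      · exact absurd rfl i2
    have hj' : j = 0 ∨ j = 1 := by
      have : ∀ j < 9, (ix9E j = 0 ∨ ix9E j = 4 ∨ ix9E j = 10) → j = 0 ∨ j = 1 := by decide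
      exact this j hj h3
    refine hd (cyc (v j)) ?_ ?_
    · rw [e]; exact m0 i hi'
    · rw [hF']
      rcases hj' with rfl | rfl
      · exact Or.inl rfl
      · exact Or.inr rfl

/-- **W-JE-J3V**: common words only for: the squares `B`, `B'` both not nil and the words 15, 12, 17 of JE (`S B = S'(B')`, heights
`ht R' = ht R + 1`), or the word 4 of J3V: `R' = Q(())`, `R = (())Q` -/
theorem TyJE.meetJ3V (h : TyJE R F g) (h' : TyJ3V F' g') (hd : ∀ c ∈ F, c ∉ F') {w : X k} (hw : w ∈ g.B)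
    (hw' : w ∈ g'.B) : ∃ (R' B' S' : BinaryTree Unit) (w0' : X k), SqD k R' B' S' ∧ J3OK R' B' S' w0' ∧
      F' = {cyc (sX R' B' S' w0' 0), cyc (sX R' B' S' w0' 1), cyc (sX R' B' S' w0' 2)} ∧
      (((Tsq.sq R).1 △ (Tsq.sq R).2 = app S' (B' △ .nil) ∧ OddHC.ht R' = OddHC.ht R + 1) ∨
        ((Tsq.sq R).2 = .nil ∧ R' = (Tsq.sq R).1) ∨
        ∃ Q, R = (.nil △ .nil) △ Q ∧ R' = app Q ((.nil △ .nil) △ .nil)) := by
  obtain ⟨B, S, w0, h1, hp, hB, hF, _⟩ := h.inn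
  obtain ⟨R', B', S', w0', h1', hp', hF', rfl⟩ := h'
  have lt : ∀ i ∈ ixG13, i < 20 ∧ i ≠ 10 ∧ i ≠ 18 ∧ i ≠ 16 ∧ i ≠ 19 := by decide
  obtain ⟨i, hi, e⟩ := hB w hw
  obtain ⟨j, j1, j9, e'⟩ := mem_gadS.1 hw'
  obtain ⟨i1, i2, i3, i4, i5⟩ := lt i hi
  have e1 := congrArg Subtype.val (e.symm.trans e'.symm)
  rw [h1.word w0 i1, h1'.word w0' j1] at e1
  have m0 : ∀ i ∈ [0, 4], cyc (sX R B S w0 i) ∈ F := fun i hi => by
    rw [hF]; exact ⟨i, (by decide : ∀ i ∈ [0, 4], i ∈ nwG13) i hi, rfl⟩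
  have m0' : cyc (sX R' B' S' w0' 0) ∈ F' := by rw [hF']; exact Or.inl rfl
  refine ⟨R', B', S', w0', h1', hp', hF', ?_⟩
  rw [h1.sq]
  rcases h1.meetN h1' i1 j1 e1 with h2 | ⟨h2, h3⟩ | ⟨h2, h3⟩ | ⟨h2, _⟩ | ⟨_, h2⟩ | ⟨h2, h3, h4⟩
  · exfalso
    refine hd _ (m0 0 (by simp)) ?_
    rw [← h1.zR h1' w0 w0' h2]
    exact m0'
  · exfalso
    refine hd _ (m0 4 (by simp)) ?_
    rw [← h1.z10 h1' w0 w0' h2 h3]
    exact m0'
  · exact Or.inr (Or.inl ⟨h2, h3⟩)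
  · exact Or.inl ⟨h2, (h1.sh h1' h2).1⟩
  · exfalso
    rcases h2 with ⟨h2, _⟩ | ⟨h2, _⟩ | ⟨h2, _⟩
    · exact i3 h2
    · exact i4 h2
    · exact i5 h2
  · have hi' : i ∈ [0, 4] := by
      rcases h2 with rfl | rfl | rfl
      · simp
      · simp
      · exact absurd rfl i2
    by_cases hj4 : j = 4
    · subst hj4
      have hi0 : i = 0 := by
        rcases h2 with rfl | rfl | rfl
        · rfl
        · exact absurd rfl h4
        · exact absurd rfl i2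
      subst hi0
      exact Or.inr (Or.inr (h1.c04 h1' e1))
    · exfalso
      refine hd (cyc w) (by rw [e]; exact m0 i hi') ?_
      rw [← e']
      rcases h3 with rfl | rfl | rfl
      · exact m0'
      · exact absurd rfl hj4
      · rw [← cyc_eq.2 (h1'.same w0' (i := 0) (j := 10) (by simp))]
        exact m0'

/-- **W-JE-J3V**, the form of the plug-in: no common word if the T-cycles over which the squares move are different, the heights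
do not differ by `ht R' = ht R + 1`, or the square of a `J3V` word is bare -/
theorem TyJE.dis_J3V (h : TyJE R F g) (h' : TyJ3V F' g') (hd : ∀ c ∈ F, c ∉ F')
    (hh : ∀ c ∈ F', htc c ≠ OddHC.ht R + 1)
    (hU : ∀ (R' B' S' : BinaryTree Unit), SqD k R' B' S' → ((Tsq.sq R).2 = .nil ∧ R' = (Tsq.sq R).1) ∨
      (∃ Q, R = (.nil △ .nil) △ Q ∧ R' = app Q ((.nil △ .nil) △ .nil)) → (∀ w : X k, w.1 = app R' ((.nil △ .nil) △ .nil) →
        cyc w ∈ F') → False) : ∀ w ∈ g.B, w ∉ g'.B := by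
  intro w hw hw'
  obtain ⟨R', B', S', w0', h1', hp', hF', h2⟩ := h.meetJ3V h' hd hw hw'
  have hR : ∀ w : X k, w.1 = app R' ((.nil △ .nil) △ .nil) → cyc w ∈ F' := by
    intro w e
    rw [hF']
    left
    congr 1
    apply Subtype.ext
    rw [e, h1'.word w0' (by norm_num)]
    rfl
  rcases h2 with ⟨_, h2⟩ | h2
  · refine hh (cyc (sX R' B' S' w0' 0)) (by rw [hF']; exact Or.inl rfl) ?_
    change (OddHC.cont (sX R' B' S' w0' 0).1).sup = _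
    rw [h1'.cont0, h1'.supz, h2]
  · exact hU R' B' S' h1' h2 hR

end Pool.OddHC
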