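import Pool.Agent.Work.MP_8f87b2_h84.TyJE
import Pool.Agent.Work.MP_8f87b2_h4.J3VE
import Pool.Agent.Work.MP_8f87b2_h4.J3VP
import Pool.Agent.Work.MP_8f87b2_h4.Ends
import Pool.Agent.Work.MP_8f87b2_h4.Links

/-!
# MP_8f87b2_co: the rows W-JE-x for the plain triples x = E, L, K, K', Cr, Cl

The common words with the exact shapes. `JE` = 13 words, `TyJE R F g`.
-/

set_option autoImplicit false

namespace Pool.OddHC

open Finset Equiv BinaryTree Pool.Agent.Work.MP_8f87b2_co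

open J3

variable {k : ℕ} {F F' : Set (Cyc k)} {g g' : DG k} {R Y : BinaryTree Unit}

/-- the word `((R))` has one component, `(R)` -/
theorem one_comp {P Q Z : BinaryTree Unit} (hPQ : P ≠ .nil ∨ Q ≠ .nil) (A : BinaryTree Unit)
    (e : w1 P A Q = Z △ .nil) : False := by
  have e1 := congrArg comps e
  rw [comps_w1, comps_node] at e1
  have e2 := congrArg List.length e1
  simp only [List.length_append, List.length_cons, comps, List.length_nil] at e2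
  rcases hPQ with h | h
  · have := List.length_pos_iff.2 (comps_ne h)
    omega
  · have := List.length_pos_iff.2 (comps_ne h)
    omega

/-- a plain triple with `((R))` as a word: it is the host `(R)`, without sides, or `P`, `R'`, `Q` are nil in two places -/
theorem tri9 {P A Q : BinaryTree Unit} (ht : IsTri P A Q F' g') (hA : A ≠ .nil) (hPQ : P ≠ .nil ∨ Q ≠ .nil) {w : X k}
    (hw' : w ∈ g'.B) {Z : BinaryTree Unit} (e : w.1 = Z △ .nil) : False := by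
  rcases ht.words w hw' with e1 | ⟨_, e1 | e1⟩
  · exact one_comp hPQ A (e1.symm.trans e)
  · exact one_comp (Or.inl hA) Q (show w1 A Q P = _ from e1.symm.trans e)
  · exact one_comp (Or.inr hA) P (show w1 Q P A = _ from e1.symm.trans e)

/-- W-E-JE: an E-triple `(Y); Y(), ()Y` and JE have a common word only if `Y = (R)` or `Y = (S)B`, `(S, B) = sq R` -/
theorem TyJE.eW (h : TyJE R F g) (ht : IsTri .nil Y .nil F' g') (hY : Y ≠ .nil) (hd : ∀ c ∈ F', c ∉ F) {w : X k}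
    (hw : w ∈ g.B) (hw' : w ∈ g'.B) : Y = R △ .nil ∨ Y = (Tsq.sq R).1 △ (Tsq.sq R).2 := by
  obtain ⟨B, S, w0, h1, hp, hB, hF, _⟩ := h.inn
  rw [h1.sq]
  obtain ⟨i, hi, rfl⟩ := hB w hw
  rw [hF] at hd
  have d1 : ∀ c ∈ F', c ≠ cyc (sX R B S w0 1) := fun c hc e => hd c hc ⟨1, by decide, e⟩
  have d2 : ∀ c ∈ F', c ≠ cyc (sX R B S w0 2) := fun c hc e => hd c hc ⟨2, by decide, e⟩
  have n1 : Y ≠ app R (.nil △ .nil) := by
    rintro rfl
    obtain ⟨a, b, c, ha, hb, hc, h1', h2, h3, rfl, rfl⟩ := ht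
    refine d1 (cyc b) (Or.inl rfl) ?_
    congr 1
    apply Subtype.ext
    rw [hb, h1.word w0 (by norm_num)]
    change app (app R (.nil △ .nil)) (.nil △ .nil) = app R (.nil △ (.nil △ .nil))
    rw [H1.app_assoc]; rfl
  have n2 : Y ≠ .nil △ R := by
    rintro rfl
    obtain ⟨a, b, c, ha, hb, hc, h1', h2, h3, rfl, rfl⟩ := ht
    refine d2 (cyc b) (Or.inl rfl) ?_
    congr 1
    apply Subtype.ext
    rw [hb, h1.word w0 (by norm_num)]
    rfl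
  have hx : ∀ i ∈ ixG13, i ≠ 19 ∧ i ≠ 14 ∧ i ≠ 16 ∧ i ≠ 18 ∧ i ≠ 11 := by decide
  obtain ⟨x1, x2, x3, x4, x5⟩ := hx i hi
  by_cases h9 : i = 9
  · subst h9
    have e9 : (sX R B S w0 9).1 = (R △ .nil) △ .nil := h1.word w0 (by norm_num)
    rcases ht.words _ hw' with e1 | ⟨_, e1 | e1⟩
    · rw [e9] at e1
      have e2 : (R △ .nil) △ BinaryTree.nil = Y △ .nil := e1
      injection e2 with _ e3 _
      exact Or.inl e3.symm
    · exact (one_comp (Or.inl hY) .nil (e1.symm.trans e9)).elim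
    · exact (one_comp (Or.inr hY) .nil (e1.symm.trans e9)).elim
  · have hi20 : i < 20 := (by decide : ∀ i ∈ ixG13, i < 20) i hi
    have e0 := h1.word w0 hi20
    rcases ht.words _ hw' with e1 | ⟨-, e1 | e1⟩
    · rcases h1.one1 hi20 h9 (e0.symm.trans e1) with ⟨_, e2⟩ | ⟨_, e2⟩ | ⟨_, e2⟩ | ⟨e3, _⟩ | ⟨e3, _, _⟩
      · exact absurd e2 n1
      · exact absurd e2 n2
      · exact Or.inr e2
      · exact absurd e3 x1
      · exact absurd e3 x2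
    · rcases h1.lst hi20 h9 (e0.symm.trans e1) with ⟨_, e2⟩ | ⟨_, e2⟩ | ⟨_, e2⟩ | ⟨_, e2⟩ | ⟨e3, _⟩ | ⟨e3, _, _⟩
      · exact absurd e2 n1
      · exact absurd e2 n2
      · exact Or.inl e2
      · exact Or.inr e2
      · exact absurd e3 x3
      · exact absurd e3 x4
    · rcases h1.fst hi20 h9 (e0.symm.trans e1) with ⟨_, e2⟩ | ⟨_, e2⟩ | ⟨_, e2⟩ | ⟨_, e2⟩ | ⟨e3, _⟩ | ⟨e3, _, _⟩
      · exact absurd e2 n1
      · exact absurd e2 n2
      · exact Or.inl e2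
      · exact Or.inr e2
      · exact absurd e3 x4
      · exact absurd e3 x5

/-- W-L-JE: an L-triple `()(Y)(); Y(())(), ()(())Y` and JE: only `R = (Y)`, or `B = Y'(())`, `Y = (S)Y'` -/
theorem TyJE.lW (h : TyJE R F g) (ht : IsTri (lp 1) Y (lp 1) F' g') (hY : Y ≠ .nil)
    (hf : H1.fb Y = false) (hl : H1.lastB Y = false) {w : X k} (hw : w ∈ g.B) (hw' : w ∈ g'.B) :
    R = Y △ .nil ∨
    (∃ Y', Y = (Tsq.sq R).1 △ Y' ∧ (Tsq.sq R).2 = app Y' ((.nil △ .nil) △ .nil)) := by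
  obtain ⟨B, S, w0, h1, hp, hB, hF, _⟩ := h.inn
  rw [h1.sq]
  obtain ⟨i, hi, rfl⟩ := hB w hw
  have hlp : lp 1 ≠ .nil := by change BinaryTree.nil △ lp 0 ≠ .nil; simp
  by_cases h9 : i = 9
  · subst h9
    have e9 : (sX R B S w0 9).1 = (R △ .nil) △ .nil := h1.word w0 (by norm_num)
    exact (tri9 ht hY (Or.inl hlp) hw' e9).elim
  · have hi20 : i < 20 := (by decide : ∀ i ∈ ixG13, i < 20) i hi
    have hx : ∀ i ∈ ixG13, i ≠ 18 := by decide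
    rcases h1.lW ht hY hf hl hw' hi20 h9 (h1.word w0 hi20) with ⟨_, e1⟩ | ⟨e1, _⟩ | ⟨_, e1⟩ | ⟨e1, _⟩
    · exact Or.inl e1
    · exact absurd e1 (hx i hi)
    · exact Or.inr e1
    · exact absurd e1 (hx i hi)

/-- W-K-JE: host `(Y)()`, new words `Y(())`, `()()Y`: only `R = R'(())`, `Y = (())R'` or `()()R'`, or `B = B'(())`,
`Y = ()(S)B'` -/
theorem TyJE.kW (h : TyJE R F g) (ht : IsTri .nil Y (.nil △ .nil) F' g') (hY : Y ≠ .nil) (hd : ∀ c ∈ F', c ∉ F) {w : X k}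
    (hw : w ∈ g.B) (hw' : w ∈ g'.B) :
    (∃ R', R = app R' ((.nil △ .nil) △ .nil) ∧ Y = (.nil △ .nil) △ R') ∨
    (∃ R', R = app R' ((.nil △ .nil) △ .nil) ∧ Y = .nil △ (.nil △ R')) ∨
    (∃ B', (Tsq.sq R).2 = app B' ((.nil △ .nil) △ .nil) ∧ Y = .nil △ ((Tsq.sq R).1 △ B')) := by
  obtain ⟨B, S, w0, h1, hp, hB, hF, _⟩ := h.inn
  rw [h1.sq]
  obtain ⟨i, hi, rfl⟩ := hB w hw
  rw [hF] at hd
  have d1 : ∀ c ∈ F', c ≠ cyc (sX R B S w0 0) ∧ c ≠ cyc (sX R B S w0 1) :=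
    fun c hc => ⟨fun e => hd c hc ⟨0, by decide, e⟩, fun e => hd c hc ⟨1, by decide, e⟩⟩
  by_cases h9 : i = 9
  · subst h9
    have e9 : (sX R B S w0 9).1 = (R △ .nil) △ .nil := h1.word w0 (by norm_num)
    exact (tri9 ht hY (Or.inr (by simp)) hw' e9).elim
  · have hi20 : i < 20 := (by decide : ∀ i ∈ ixG13, i < 20) i hi
    have hx : ∀ i ∈ ixG13, i ≠ 14 := by decide
    rcases h1.kW ht hY d1 hw' hi20 h9 (h1.word w0 hi20) with ⟨_, e1⟩ | ⟨_, e1⟩ | ⟨e1, _⟩ | ⟨_, e1⟩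
    · exact Or.inl e1
    · exact Or.inr (Or.inl e1)
    · exact absurd e1 (hx i hi)
    · exact Or.inr (Or.inr e1)

/-- W-K'-JE: the mirrored K, no common word -/
theorem TyJE.kmW (h : TyJE R F g) (ht : IsTri (.nil △ .nil) Y .nil F' g') (hY : Y ≠ .nil) (hd : ∀ c ∈ F', c ∉ F) {w : X k}
    (hw : w ∈ g.B) (hw' : w ∈ g'.B) : False := by
  obtain ⟨B, S, w0, h1, hp, hB, hF, _⟩ := h.inn
  obtain ⟨i, hi, rfl⟩ := hB w hw
  rw [hF] at hd
  have d1 : ∀ c ∈ F', c ≠ cyc (sX R B S w0 0) ∧ c ≠ cyc (sX R B S w0 1) :=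
    fun c hc => ⟨fun e => hd c hc ⟨0, by decide, e⟩, fun e => hd c hc ⟨1, by decide, e⟩⟩
  by_cases h9 : i = 9
  · subst h9
    have e9 : (sX R B S w0 9).1 = (R △ .nil) △ .nil := h1.word w0 (by norm_num)
    exact (tri9 ht hY (Or.inl (by simp)) hw' e9).elim
  · have hi20 : i < 20 := (by decide : ∀ i ∈ ixG13, i < 20) i hi
    have hx : ∀ i ∈ ixG13, i ≠ 13 ∧ i ≠ 16 := by decide
    rcases h1.kmW ht hY d1 hw' hi20 h9 (h1.word w0 hi20) with ⟨e1, _⟩ | ⟨e1, _⟩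
    · exact (hx i hi).1 e1
    · exact (hx i hi).2 e1

/-- W-Cr-JE: host `(Y)[c]`, `c` odd: only `R = R'[c+1]`, `Y = (())R'` or `()()R'`, or `B = B'[c+1]`, `Y = ()(S)B'` -/
theorem TyJE.crW (h : TyJE R F g) {c : ℕ} (hc : 2 ≤ c) (hY : c + 1 ≤ OddHC.ht Y) (hodd : Odd c)
    (ht : IsTri .nil Y (H1.ch c) F' g') (hd : ∀ c ∈ F', c ∉ F) {w : X k} (hw : w ∈ g.B) (hw' : w ∈ g'.B) :
    (∃ R', R = app R' (H1.ch c △ .nil) ∧ Y = (.nil △ .nil) △ R') ∨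
    (∃ R', R = app R' (H1.ch c △ .nil) ∧ Y = .nil △ (.nil △ R')) ∨
    (∃ B', (Tsq.sq R).2 = app B' (H1.ch c △ .nil) ∧ Y = .nil △ ((Tsq.sq R).1 △ B')) := by
  obtain ⟨B, S, w0, h1, hp, hB, hF, _⟩ := h.inn
  rw [h1.sq]
  obtain ⟨i, hi, rfl⟩ := hB w hw
  rw [hF] at hd
  have d1 : ∀ c ∈ F', c ≠ cyc (sX R B S w0 0) ∧ c ≠ cyc (sX R B S w0 1) :=
    fun c hc => ⟨fun e => hd c hc ⟨0, by decide, e⟩, fun e => hd c hc ⟨1, by decide, e⟩⟩
  have hYn : Y ≠ .nil := by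
    rintro rfl
    rw [OddHC.ht] at hY
    omega
  have hch : H1.ch c ≠ .nil := by
    rw [ch_pred (by omega)]
    simp
  by_cases h9 : i = 9
  · subst h9
    have e9 : (sX R B S w0 9).1 = (R △ .nil) △ .nil := h1.word w0 (by norm_num)
    exact (tri9 ht hYn (Or.inr hch) hw' e9).elim
  · have hi20 : i < 20 := (by decide : ∀ i ∈ ixG13, i < 20) i hi
    have hx : ∀ i ∈ ixG13, i ≠ 14 ∧ i ≠ 18 := by decide
    rcases h1.crW hc hY hodd ht d1 hw' hi20 h9 (h1.word w0 hi20) with ⟨e1, _⟩ | ⟨e1, _⟩ | ⟨_, e1⟩ | ⟨_, e1⟩ | ⟨e1, _⟩ | ⟨_, e1⟩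
    · exact absurd e1 (hx i hi).1
    · exact absurd e1 (hx i hi).2
    · exact Or.inl e1
    · exact Or.inr (Or.inl e1)
    · exact absurd e1 (hx i hi).1
    · exact Or.inr (Or.inr e1)

/-- W-Cl-JE: host `[c](Y)`: only for `c = 2`, `R = (Y)` -/
theorem TyJE.clW (h : TyJE R F g) {c : ℕ} (hc : 2 ≤ c) (hY : c + 1 ≤ OddHC.ht Y)
    (ht : IsTri (H1.ch c) Y .nil F' g') (hd : ∀ c ∈ F', c ∉ F) {w : X k} (hw : w ∈ g.B) (hw' : w ∈ g'.B) :
    c = 2 ∧ R = Y △ .nil := by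
  obtain ⟨B, S, w0, h1, hp, hB, hF, _⟩ := h.inn
  obtain ⟨i, hi, rfl⟩ := hB w hw
  rw [hF] at hd
  have d1 : ∀ c ∈ F', c ≠ cyc (sX R B S w0 0) ∧ c ≠ cyc (sX R B S w0 1) :=
    fun c hc => ⟨fun e => hd c hc ⟨0, by decide, e⟩, fun e => hd c hc ⟨1, by decide, e⟩⟩
  have hYn : Y ≠ .nil := by
    rintro rfl
    rw [OddHC.ht] at hY
    omega
  have hch : H1.ch c ≠ .nil := by
    rw [ch_pred (by omega)]
    simp
  by_cases h9 : i = 9
  · subst h9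
    have e9 : (sX R B S w0 9).1 = (R △ .nil) △ .nil := h1.word w0 (by norm_num)
    exact (tri9 ht hYn (Or.inl hch) hw' e9).elim
  · have hi20 : i < 20 := (by decide : ∀ i ∈ ixG13, i < 20) i hi
    have hx : ∀ i ∈ ixG13, i ≠ 10 ∧ i ≠ 13 ∧ i ≠ 16 := by decide
    obtain ⟨x1, x2, x3⟩ := hx i hi
    rcases h1.clW hc hY ht d1 hw' hi20 h9 (h1.word w0 hi20) with ⟨_, e1⟩ | ⟨e1, _⟩ | ⟨e1, _⟩ | ⟨e1, _⟩
    · exact e1
    · exact absurd e1 x1
    · exact absurd e1 x2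
    · exact absurd e1 x3

end Pool.OddHC
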