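import Pool.Agent.Work.MP_8f87b2_h84.JEW3
import Pool.Agent.Work.MP_8f87b2_h63.J4

/-!
# MP_8f87b2_co: W-JE-Jt, W-JV-Jt (the mirrored J1a at `(s, 4, 2)`): no common word
-/

set_option autoImplicit false
set_option linter.unusedSimpArgs false

namespace Pool.OddHC

open Finset Equiv BinaryTree Pool.Agent.Work.MP_8f87b2_co

open J J3 H1

variable {k : ℕ} {F F' : Set (Cyc k)} {g g' : DG k} {R B S : BinaryTree Unit}

theorem comps_mir_nil : comps (Tsq.mir (.nil : BinaryTree Unit)) = [] := rfl

theorem mir_nil_node (C : BinaryTree Unit) : Tsq.mir (.nil △ C) = app (Tsq.mir C) (.nil △ .nil) := by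
  rw [Tsq.mir_node]
  rfl

/-- a mirrored word of `SqD` type (13 words) in the list of `TyJt`: the content of `R` is `{n+1, 4}` -/
theorem J3.SqD.jt (h : SqD k R B S) {n : ℕ} (hn : 4 ≤ n) {i : ℕ} (hi : i ∈ ixG13) {j : ℕ} (hj : j < 20)
    (e : comps (Tsq.mir (H1.W R .nil B S i)) = J1.jt n j) : OddHC.cont R = {n + 1} + {4} := by
  obtain ⟨n, rfl⟩ : ∃ m, n = m + 4 := ⟨n - 4, by omega⟩
  have chn : ∀ m, H1.ch (m + 1) ≠ .nil := fun m => by rw [H1.ch_succ]; simp
  have c1 : H1.ch (n + 4) ≠ .nil := chn _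
  have c2 : H1.ch (n + 4 + 1) ≠ .nil := chn _
  have c3 : H1.ch 3 ≠ .nil := chn _
  have c4 : H1.ch 4 ≠ .nil := chn _
  have c5 : H1.ch 1 ≠ .nil := chn _
  have cR : J1.RS (n + 4) ≠ .nil := by change H1.ch (n + 4) △ H1.ch 4 ≠ .nil; simp
  have l11 : H1.ch 1 = .nil △ .nil := rfl
  have hl : ∀ m, 2 ≤ m → (.nil △ .nil : BinaryTree Unit) ≠ H1.ch m := by
    intro m hm e1
    have := congrArg OddHC.ht e1
    rw [ht_ch] at this
    have h0 : OddHC.ht (.nil △ .nil : BinaryTree Unit) = 1 := rfl
    omega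
  have d1 := hl (n + 4) (by omega)
  have d2 := hl (n + 4 + 1) (by omega)
  have d3 := hl 3 (by omega)
  have d4 := hl 4 (by omega)
  have rS : comps (J1.RS (n + 4)) = [H1.ch (n + 4), H1.ch 3] := rfl
  have r4 : comps (H1.ch 4) = [H1.ch 3] := rfl
  have dR : (.nil △ .nil : BinaryTree Unit) ≠ J1.RS (n + 4) := by
    intro e1
    exact c1 (H1.node_inj (show BinaryTree.nil △ BinaryTree.nil = H1.ch (n + 4) △ H1.ch 4 from e1)).1.symm
  have h0 : Tsq.mir BinaryTree.nil = BinaryTree.nil := rfl
  -- the good cases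
  have good : comps (Tsq.mir R) = [H1.ch (n + 4), H1.ch 3] → OddHC.cont R = {n + 4 + 1} + {4} := by
    intro e1
    have e2 : Tsq.mir R = J1.RS (n + 4) := comps_inj (by rw [e1]; rfl)
    rw [← HM.cont_mir R, e2]
    change OddHC.cont (app (H1.ch (n + 4 + 1)) (H1.ch 4)) = _
    rw [cont_app, H1.ch_cont, H1.ch_cont]
  have good' : Tsq.mir R = J1.RS (n + 4) → OddHC.cont R = {n + 4 + 1} + {4} := fun e1 => good (by rw [e1]; rfl)
  have goodS : B = .nil → Tsq.mir S = J1.RS (n + 4) → OddHC.cont R = {n + 4 + 1} + {4} := by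
    intro hB e1
    rw [← h.cont, hB, cont_nil, zero_add, ← HM.cont_mir S, e1]
    change OddHC.cont (app (H1.ch (n + 4 + 1)) (H1.ch 4)) = _
    rw [cont_app, H1.ch_cont, H1.ch_cont]
  -- the bad cases
  have hht : OddHC.ht B ≤ OddHC.ht S := by rw [h.htS]; exact h.htB
  have mS : Tsq.mir S ≠ .nil := mir_ne4 h.neS
  have mR : Tsq.mir R ≠ .nil := mir_ne4 h.ne
  have hB1 : (OddHC.cont (Tsq.mir B)).count 1 = 0 := by rw [HM.cont_mir]; exact h.oneB
  have badh : ∀ m p, Tsq.mir S = H1.ch m → comps (Tsq.mir B) = [H1.ch p] → p + 1 ≤ m := by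
    intro m p e1 e2
    have e3 : Tsq.mir B = H1.ch (p + 1) := comps_inj (by rw [e2]; rfl)
    have k1 := ht_mir4 S
    have k2 := ht_mir4 B
    rw [e1, ht_ch] at k1
    rw [e3, ht_ch] at k2
    omega
  have bad1 : ∀ l, comps (Tsq.mir B) ≠ .nil :: l := by
    intro l e1
    cases hb : Tsq.mir B with
    | nil => rw [hb] at e1; exact absurd e1 (by simp [comps])
    | node _ P Q =>
      rw [hb, comps_node] at e1
      have : P = .nil := (List.cons.inj e1).1
      subst this
      exact ne_nil_node hB1 hb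
  have nilB : comps (Tsq.mir B) = [] → B = .nil := by
    intro e1
    by_contra hB
    exact comps_ne (mir_ne4 hB) e1
  simp only [ixG13, List.mem_cons, List.not_mem_nil, or_false] at hi
  rcases hi with rfl | rfl | rfl | rfl | rfl | rfl | rfl | rfl | rfl | rfl | rfl | rfl | rfl
  · -- 0
    have e0 : comps (Tsq.mir (H1.W R .nil B S 0)) = (.nil △ .nil) :: comps (Tsq.mir R) := by
      simp only [H1.W, Tsq.mir_node, Tsq.mir_app, h0, app, comps_node, comps_app, comps, List.nil_append, List.append_assoc, List.cons_append]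
    rw [e0] at e
    interval_cases j <;> simp [J1.jt, c1, c2, c3, c4, c5, c1.symm, c2.symm, c3.symm, c4.symm, c5.symm, cR, cR.symm, l11, d1, d2, d3, d4, dR, mS, mR, mS.symm, mR.symm] at e
    all_goals exact good e
  · -- 1
    have e0 : comps (Tsq.mir (H1.W R .nil B S 1)) = .nil :: .nil :: comps (Tsq.mir R) := by
      simp only [H1.W, Tsq.mir_node, Tsq.mir_app, h0, app, comps_node, comps_app, comps, List.nil_append, List.append_assoc, List.cons_append]
    rw [e0] at e
    interval_cases j <;> simp [J1.jt, c1, c2, c3, c4, c5, c1.symm, c2.symm, c3.symm, c4.symm, c5.symm, cR, cR.symm, l11, d1, d2, d3, d4, dR, mS, mR, mS.symm, mR.symm] at e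
    all_goals exact good e
  · -- 2
    have e0 : comps (Tsq.mir (H1.W R .nil B S 2)) = .nil :: (comps (Tsq.mir R) ++ [.nil]) := by
      simp only [H1.W, Tsq.mir_node, Tsq.mir_app, h0, app, comps_node, comps_app, comps, List.nil_append, List.append_assoc, List.cons_append]
    rw [e0] at e
    interval_cases j <;> simp [J1.jt, c1, c2, c3, c4, c5, c1.symm, c2.symm, c3.symm, c4.symm, c5.symm, cR, cR.symm, l11, d1, d2, d3, d4, dR, mS, mR, mS.symm, mR.symm] at e
    all_goals
      have e2 := congrArg List.reverse e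
      rw [List.reverse_append] at e2
      simp [J1.jt, c1, c2, c3, c4, c5, c1.symm, c2.symm, c3.symm, c4.symm, c5.symm, cR, cR.symm, l11, d1, d2, d3, d4, dR, mS, mR, mS.symm, mR.symm] at e2
    all_goals exact good (by simpa using congrArg List.reverse e2)
  · -- 3
    have e0 : comps (Tsq.mir (H1.W R .nil B S 3)) = [.nil △ Tsq.mir R] := by
      simp only [H1.W, Tsq.mir_node, Tsq.mir_app, h0, app, comps_node, comps_app, comps, List.nil_append, List.append_assoc, List.cons_append]
    rw [e0] at e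
    interval_cases j <;> simp [J1.jt, c1, c2, c3, c4, c5, c1.symm, c2.symm, c3.symm, c4.symm, c5.symm, cR, cR.symm, l11, d1, d2, d3, d4, dR, mS, mR, mS.symm, mR.symm] at e
    all_goals exact good' e
  · -- 4
    have e0 : comps (Tsq.mir (H1.W R .nil B S 4)) = comps (Tsq.mir R) ++ [.nil △ .nil] := by
      simp only [H1.W, Tsq.mir_node, Tsq.mir_app, h0, app, comps_node, comps_app, comps, List.nil_append, List.append_assoc, List.cons_append]
    rw [e0] at e
    interval_cases j <;> simp [J1.jt, c1, c2, c3, c4, c5, c1.symm, c2.symm, c3.symm, c4.symm, c5.symm, cR, cR.symm, l11, d1, d2, d3, d4, dR, mS, mR, mS.symm, mR.symm] at e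
    all_goals
      have e2 := congrArg List.reverse e
      rw [List.reverse_append] at e2
      simp [J1.jt, c1, c2, c3, c4, c5, c1.symm, c2.symm, c3.symm, c4.symm, c5.symm, cR, cR.symm, l11, d1, d2, d3, d4, dR, mS, mR, mS.symm, mR.symm] at e2
    all_goals exact good (by simpa using congrArg List.reverse e2)
  · -- 5
    have e0 : comps (Tsq.mir (H1.W R .nil B S 5)) = comps (Tsq.mir R) ++ [.nil, .nil] := by
      simp only [H1.W, Tsq.mir_node, Tsq.mir_app, h0, app, comps_node, comps_app, comps, List.nil_append, List.append_assoc, List.cons_append]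
    rw [e0] at e
    interval_cases j <;> simp [J1.jt, c1, c2, c3, c4, c5, c1.symm, c2.symm, c3.symm, c4.symm, c5.symm, cR, cR.symm, l11, d1, d2, d3, d4, dR, mS, mR, mS.symm, mR.symm] at e
    all_goals
      have e2 := congrArg List.reverse e
      rw [List.reverse_append] at e2
      simp [J1.jt, c1, c2, c3, c4, c5, c1.symm, c2.symm, c3.symm, c4.symm, c5.symm, cR, cR.symm, l11, d1, d2, d3, d4, dR, mS, mR, mS.symm, mR.symm] at e2
    all_goals exact good (by simpa using congrArg List.reverse e2)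
  · -- 6
    have e0 : comps (Tsq.mir (H1.W R .nil B S 6)) = [.nil, Tsq.mir R] := by
      simp only [H1.W, Tsq.mir_node, Tsq.mir_app, h0, app, comps_node, comps_app, comps, List.nil_append, List.append_assoc, List.cons_append]
    rw [e0] at e
    interval_cases j <;> simp [J1.jt, c1, c2, c3, c4, c5, c1.symm, c2.symm, c3.symm, c4.symm, c5.symm, cR, cR.symm, l11, d1, d2, d3, d4, dR, mS, mR, mS.symm, mR.symm] at e
    all_goals exact good' e
  · -- 7
    have e0 : comps (Tsq.mir (H1.W R .nil B S 7)) = [app (Tsq.mir R) (.nil △ .nil)] := by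
      simp only [H1.W, Tsq.mir_node, Tsq.mir_app, h0, app, comps_node, comps_app, comps, List.nil_append, List.append_assoc, List.cons_append]
    rw [e0] at e
    interval_cases j <;> simp [J1.jt, c1, c2, c3, c4, c5, c1.symm, c2.symm, c3.symm, c4.symm, c5.symm, cR, cR.symm, l11, d1, d2, d3, d4, dR, mS, mR, mS.symm, mR.symm] at e
    all_goals
      replace e := congrArg comps e
      rw [comps_app] at e
      simp only [comps_node, comps, rS, r4] at e
    all_goals
      have e2 := congrArg List.reverse e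
      rw [List.reverse_append] at e2
      simp [J1.jt, c1, c2, c3, c4, c5, c1.symm, c2.symm, c3.symm, c4.symm, c5.symm, cR, cR.symm, l11, d1, d2, d3, d4, dR, mS, mR, mS.symm, mR.symm] at e2
    all_goals exact good (by simpa using congrArg List.reverse e2)
  · -- 8
    have e0 : comps (Tsq.mir (H1.W R .nil B S 8)) = [Tsq.mir R, .nil] := by
      simp only [H1.W, Tsq.mir_node, Tsq.mir_app, h0, app, comps_node, comps_app, comps, List.nil_append, List.append_assoc, List.cons_append]
    rw [e0] at e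
    interval_cases j <;> simp [J1.jt, c1, c2, c3, c4, c5, c1.symm, c2.symm, c3.symm, c4.symm, c5.symm, cR, cR.symm, l11, d1, d2, d3, d4, dR, mS, mR, mS.symm, mR.symm] at e
    all_goals exact good' e
  · -- 9
    have e0 : comps (Tsq.mir (H1.W R .nil B S 9)) = [Tsq.mir R △ .nil] := by
      simp only [H1.W, Tsq.mir_node, Tsq.mir_app, h0, app, comps_node, comps_app, comps, List.nil_append, List.append_assoc, List.cons_append]
    rw [e0] at e
    interval_cases j <;> simp [J1.jt, c1, c2, c3, c4, c5, c1.symm, c2.symm, c3.symm, c4.symm, c5.symm, cR, cR.symm, l11, d1, d2, d3, d4, dR, mS, mR, mS.symm, mR.symm] at e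
    all_goals exact good' e
  · -- 12
    have e0 : comps (Tsq.mir (H1.W R .nil B S 12)) = .nil :: (comps (Tsq.mir B) ++ [Tsq.mir S]) := by
      simp only [H1.W, Tsq.mir_node, Tsq.mir_app, h0, app, comps_node, comps_app, comps, List.nil_append, List.append_assoc, List.cons_append]
    rw [e0] at e
    interval_cases j <;> simp [J1.jt, c1, c2, c3, c4, c5, c1.symm, c2.symm, c3.symm, c4.symm, c5.symm, cR, cR.symm, l11, d1, d2, d3, d4, dR, mS, mR, mS.symm, mR.symm] at e
    all_goals
      have e2 := congrArg List.reverse e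
      rw [List.reverse_append] at e2
      simp [J1.jt, c1, c2, c3, c4, c5, c1.symm, c2.symm, c3.symm, c4.symm, c5.symm, cR, cR.symm, l11, d1, d2, d3, d4, dR, mS, mR, mS.symm, mR.symm] at e2
    all_goals
      obtain ⟨a, b⟩ := e2
      first
        | exact goodS (nilB (by simpa using b)) a
        | exact absurd (by simpa using congrArg List.reverse b) (bad1 [H1.ch (n + 4)])
        | (have := badh 3 (n + 4 + 1) a (by simpa using congrArg List.reverse b); omega)
        | (have := badh 4 (n + 4) a (by simpa using congrArg List.reverse b); omega)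
  · -- 15
    have e0 : comps (Tsq.mir (H1.W R .nil B S 15)) = comps (Tsq.mir B) ++ [Tsq.mir S, .nil] := by
      simp only [H1.W, Tsq.mir_node, Tsq.mir_app, h0, app, comps_node, comps_app, comps, List.nil_append, List.append_assoc, List.cons_append]
    rw [e0] at e
    interval_cases j <;> simp [J1.jt, c1, c2, c3, c4, c5, c1.symm, c2.symm, c3.symm, c4.symm, c5.symm, cR, cR.symm, l11, d1, d2, d3, d4, dR, mS, mR, mS.symm, mR.symm] at e
    all_goals
      have e2 := congrArg List.reverse e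
      rw [List.reverse_append] at e2
      simp [J1.jt, c1, c2, c3, c4, c5, c1.symm, c2.symm, c3.symm, c4.symm, c5.symm, cR, cR.symm, l11, d1, d2, d3, d4, dR, mS, mR, mS.symm, mR.symm] at e2
    all_goals
      obtain ⟨a, b⟩ := e2
      first
        | exact goodS (nilB (by simpa using b)) a
        | exact absurd (by simpa using congrArg List.reverse b) (bad1 [H1.ch (n + 4)])
        | (have := badh 3 (n + 4 + 1) a (by simpa using congrArg List.reverse b); omega)
        | (have := badh 4 (n + 4) a (by simpa using congrArg List.reverse b); omega)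
  · -- 17
    have e0 : comps (Tsq.mir (H1.W R .nil B S 17)) = [app (Tsq.mir B) (Tsq.mir S △ .nil)] := by
      simp only [H1.W, Tsq.mir_node, Tsq.mir_app, h0, app, comps_node, comps_app, comps, List.nil_append, List.append_assoc, List.cons_append]
    rw [e0] at e
    interval_cases j <;> simp [J1.jt, c1, c2, c3, c4, c5, c1.symm, c2.symm, c3.symm, c4.symm, c5.symm, cR, cR.symm, l11, d1, d2, d3, d4, dR, mS, mR, mS.symm, mR.symm] at e
    all_goals
      replace e := congrArg comps e
      rw [comps_app] at e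
      simp only [comps_node, comps, rS, r4] at e
    all_goals
      have e2 := congrArg List.reverse e
      rw [List.reverse_append] at e2
      simp [J1.jt, c1, c2, c3, c4, c5, c1.symm, c2.symm, c3.symm, c4.symm, c5.symm, cR, cR.symm, l11, d1, d2, d3, d4, dR, mS, mR, mS.symm, mR.symm] at e2
    all_goals
      obtain ⟨a, b⟩ := e2
      first
        | exact goodS (nilB (by simpa using b)) a
        | exact absurd (by simpa using congrArg List.reverse b) (bad1 [H1.ch (n + 4)])
        | (have := badh 3 (n + 4 + 1) a (by simpa using congrArg List.reverse b); omega)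
        | (have := badh 4 (n + 4) a (by simpa using congrArg List.reverse b); omega)

/-- the class of `TyJt` is one T-cycle -/
theorem J1.TyJt.one (h : J1.TyJt F g) : ∃ n, 4 ≤ n ∧ n + 7 = k ∧
    (∀ w ∈ g.B, ∃ i < 20, comps (Tsq.mir w.1) = J1.jt n i) ∧
    (∀ w : X k, OddHC.cont w.1 = {n + 1} + {4} + {2} → cyc w ∈ F) := by
  obtain ⟨n, h1, h2, h3, _⟩ := h.words
  obtain ⟨m, w0, hm, hd, h4, hF, _⟩ := h
  have hk := hd.num
  change (app (H1.ch (m + 1)) (H1.ch 4)).numNodes + 2 = k at hk
  rw [num_app', num_ch, num_ch] at hk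
  obtain rfl : m = n := by omega
  refine ⟨m, h1, h2, h3, ?_⟩
  intro w hw
  have hk' : k = m + 1 + 6 := by omega
  subst hk'
  have e0 : OddHC.cont (app (H1.ch (m + 1)) (H1.ch 4)) = {m + 1} + {4} := by
    rw [cont_app, H1.ch_cont, H1.ch_cont]
  have c0 : OddHC.cont (J1.jY (app (H1.ch (m + 1)) (H1.ch 4)) (H1.ch 4) (H1.ch (m + 1)) w0 0).1 =
      {m + 1} + {4} + {2} := by
    rw [J1.jY_cont, jX_cont hd w0, e0]
  rw [hF]
  exact cyc_eq.2 (J1.same_42 (s := m + 1) (by omega) w _ hw c0)

/-- **W-JE-Jt** -/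
theorem TyJE.dis_Jt (h : TyJE R F g) (h' : J1.TyJt F' g') (hd : ∀ c ∈ F, c ∉ F') : ∀ w ∈ g.B, w ∉ g'.B := by
  obtain ⟨B, S, w0, h1, hp, hB, hF, _⟩ := h.inn
  obtain ⟨n, hn, _, h3, h4⟩ := h'.one
  intro w hw hw'
  obtain ⟨i, hi, rfl⟩ := hB w hw
  obtain ⟨j, hj, e⟩ := h3 _ hw'
  rw [h1.word w0 ((by decide : ∀ i ∈ ixG13, i < 20) i hi)] at e
  have hc := h1.jt hn hi hj e
  refine hd (cyc (sX R B S w0 0)) (by rw [hF]; exact ⟨0, by decide, rfl⟩) (h4 _ ?_)
  rw [h1.cont0, hc]

/-- the data `SqD` of a JV gadget without a part 1 -/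
theorem D9.sqD {w : ℕ → X k} (h : D9 .nil .nil R w) (h1 : (OddHC.cont R).count 1 = 0) (h3 : 3 ≤ OddHC.ht R) :
    SqD k R (Tsq.sq R).2 (Tsq.sq R).1 := by
  have n0 : (BinaryTree.nil : BinaryTree Unit).numNodes = 0 := rfl
  have hs := h.size
  exact ⟨rfl, h3, h1, h.two, by omega⟩

/-- the nine words of JV as words `W R nil B S i` -/
theorem D9.wordE {w : ℕ → X k} (h : D9 .nil .nil R w) : ∀ i < 9,
    (w i).1 = H1.W R .nil (Tsq.sq R).2 (Tsq.sq R).1 (ix9E i) := by
  intro i hi
  have hx : xT R = (Tsq.sq R).1 △ (Tsq.sq R).2 := xT_sq R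
  rw [h.word i hi, hx]
  interval_cases i <;> rfl

/-- **W-JV-Jt** -/
theorem Is9.dis_Jt (h : Is9 .nil .nil R F g) (h1 : (OddHC.cont R).count 1 = 0) (h3 : 3 ≤ OddHC.ht R)
    (h' : J1.TyJt F' g') (hd : ∀ c ∈ F, c ∉ F') : ∀ w ∈ g.B, w ∉ g'.B := by
  obtain ⟨w, hD, rfl, rfl⟩ := h
  obtain ⟨n, hn, _, h5, h4⟩ := h'.one
  have hq := hD.sqD h1 h3
  intro x hx hx'
  obtain ⟨i, hi, rfl⟩ := mem_gad9.1 hx
  obtain ⟨j, hj, e⟩ := h5 _ hx'
  rw [hD.wordE i hi] at e
  have hc := hq.jt hn ((by decide : ∀ i < 9, ix9E i ∈ ixG13) i hi) hj e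
  refine hd (cyc (w 0)) (Or.inl rfl) (h4 _ ?_)
  have e0 : (w 0).1 = H1.W R .nil (Tsq.sq R).2 (Tsq.sq R).1 0 := hD.wordE 0 (by norm_num)
  have e1 := hq.cont0 (w 0)
  rw [hq.word (w 0) (by norm_num)] at e1
  rw [e0, e1, hc]

end Pool.OddHC
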