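import Pool.Agent.Work.MP_8f87b2_h84.JEW5
import Pool.Agent.Work.MP_8f87b2_h49.JVA

/-!
# MP_8f87b2_co: W-JE-A (windows of type A with a part 1)
-/

set_option autoImplicit false
set_option linter.unusedSimpArgs false

namespace Pool.OddHC

open Finset Equiv BinaryTree Pool.Agent.Work.MP_8f87b2_co

open J J3 H1

variable {k : ℕ} {F F' : Set (Cyc k)} {g g' : DG k} {R B S R' B' S' : BinaryTree Unit}

/-- the four words `R()()`, `()R()`, `()()R`, `()(R)` are no words of a window with a part 1 -/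
theorem four_win (hW : H1.Wd R B S) (hR : JVA.P1 R) (hS : JVA.P1 S) {q i : ℕ} (hi : i < 20)
    (h : SqD k R' B' S') {j : ℕ} (hj : j ∈ [1, 2, 5, 8])
    (e : H1.W R (H1.ch (q + 1)) B S i = H1.W R' .nil B' S' j) : False := by
  have hR' := h.ne
  have h3 := h.h3
  have c0 : (OddHC.cont R').count 1 = 0 := h.one
  have nn : ∀ A C : BinaryTree Unit, A △ C ≠ .nil := fun _ _ => by simp
  have a2 : ∀ Z : BinaryTree Unit, app R' (.nil △ .nil) ≠ Z △ .nil := by
    intro Z e1
    cases R' with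
    | nil => exact hR' rfl
    | node _ P Q =>
      have e2 : P △ app Q (.nil △ .nil) = Z △ .nil := e1
      exact H1.app_ne (nn _ _) (H1.node_inj e2).2
  have a3 : ∀ Z : BinaryTree Unit, .nil △ R' ≠ Z △ .nil := fun Z e1 => hR' (H1.node_inj e1).2
  have cE : (OddHC.cont (app R' (.nil △ .nil))).count 1 = 1 := by
    rw [JVA.c_app, JVA.c_leaf, c0]; rfl
  have cL : (OddHC.cont (.nil △ R')).count 1 = 1 := by rw [JVA.c_leaf, c0]
  have cP : (OddHC.cont (R' △ .nil)).count 1 = 0 := by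
    rw [JVA.c_node (by rw [← OddHC.ht_eq]; omega), c0]; rfl
  have key : ∀ X : BinaryTree Unit, (OddHC.cont X).count 1 ≤ 1 →
      (1 ≤ (OddHC.cont X).count 1 → ∀ Y, X ≠ Y △ .nil) →
      (H1.W R (H1.ch (q + 1)) B S i = X △ .nil ∨ H1.W R (H1.ch (q + 1)) B S i = app X (.nil △ .nil) ∨
      H1.W R (H1.ch (q + 1)) B S i = .nil △ X) → False := by
    intro X x1 x2 x3
    rcases JVA.sh_X hR hS (H1.ae_shape hW hi x3) with h | ⟨h, Y, hY⟩
    · omega
    · exact x2 h Y hY
  simp only [List.mem_cons, List.not_mem_nil, or_false] at hj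
  rcases hj with rfl | rfl | rfl | rfl
  · refine key (app R' (.nil △ .nil)) (by omega) (fun _ => a2) (Or.inr (Or.inl ?_))
    rw [e, H1.app_assoc]; rfl
  · exact key (app R' (.nil △ .nil)) (by omega) (fun _ => a2) (Or.inr (Or.inr (by rw [e]; rfl)))
  · exact key (.nil △ R') (by omega) (fun _ => a3) (Or.inr (Or.inr (by rw [e]; rfl)))
  · exact key (R' △ .nil) (by omega) (fun h => by omega) (Or.inr (Or.inr (by rw [e]; rfl)))

/-- **W-JE-A**: the windows A with a part 1 -/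
theorem TyJE.dis_A (h : TyJE R F g) (hA : TyA F' g') (hm : ∀ c ∈ F', 1 ≤ (contc c).count 1) :
    ∀ w ∈ g.B, w ∉ g'.B := by
  intro w hw hw'
  refine h.cases hw ?_ ?_
  · intro F1 g1 h9 _ hw1
    have h2 : (OddHC.cont R).count 1 = 0 ∧ 2 ≤ ht R := by
      obtain ⟨B, S, w0, h1, _⟩ := h
      exact ⟨h1.one, by have := h1.h3; omega⟩
    exact Finset.disjoint_left.1 (JVA.tyA_JV hA hm h9 h2.1 h2.2) hw' hw1
  · intro B0 S0 w1 h1 _ i hi e
    obtain ⟨q, B1, H, s, B, w0, hg, rfl, rfl⟩ := hA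
    obtain ⟨j, hj, rfl⟩ := mem_gad20.1 hw'
    have h1' := hm _ rfl
    have h3 : OddHC.cont (H1.gX q B1 H s B w0 0).1 = OddHC.cont (H1.gR B1 H s B) + {q + 3} := hg.cont0 w0
    have h4 : 1 ≤ (OddHC.cont (H1.gR B1 H s B)).count 1 := by
      change 1 ≤ (OddHC.cont (H1.gX q B1 H s B w0 0).1).count 1 at h1'
      rw [h3, Multiset.count_add, Multiset.count_singleton, if_neg (by omega)] at h1'
      omega
    have e1 := congrArg Subtype.val e
    rw [hg.word w0 hj, h1.word w1 ((by decide : ∀ i ∈ [1, 2, 5, 8], i < 20) i hi)] at e1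
    have hF := J.winF_A hg h4
    exact four_win (JVA.wd_of_winF hF) ⟨hF.oR, by have := hF.hR; omega⟩ ⟨hF.oS, hF.hS⟩ hj h1 hi e1

end Pool.OddHC
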