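import Pool.Agent.Work.MP_8f87b2_h99.Ty9
import Pool.Agent.Work.MP_8f87b2_mid.Dis
import Pool.Agent.Work.MP_8f87b2_h6.TyJ3V
import Pool.Agent.Work.MP_8f87b2_h35.GadG13

/-!
# MP_8f87b2_co: type JE = a JV pair merged with an E pair (13 words, helper35's gadget G13)

Right version, any `R` without a part 1, at least two solitons, `sq R = (S, B)`: the words `W R nil B S i`, `i` = 0..9, 12, 15, 17,
arcs 3 > 12, 6 > 15, 9 > 17. Group `{cyc R(()), cyc (())R, cyc R()(), cyc ()R()}` (words 0, 4, 1, 2). All old words are HIGHER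
except the word 5 = `()()R`, which may be on the T-cycle of 1 or 2, or on another T-cycle of the same content. The words 0, 4, 7,
9, 3, 6, 17, 12, 15 are the nine words of JV = `Is9 nil nil R` (`TyJE.toIs9`), the inner words are those of JV.
-/

set_option autoImplicit false

namespace Pool.OddHC

open Finset Equiv BinaryTree Pool.Agent.Work.MP_8f87b2_co

namespace J3

variable {k : ℕ} {R B S : BinaryTree Unit}

/-- the conditions of JE: the words 0, 4 are on two T-cycles, the words 1, 2 on two -/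
structure JEOK (R B S : BinaryTree Unit) (w0 : X k) : Prop where
  n04 : cyc (sX R B S w0 0) ≠ cyc (sX R B S w0 4)
  n12 : cyc (sX R B S w0 1) ≠ cyc (sX R B S w0 2)

/-- heights of the words of JE -/
theorem SqD.htE (h : SqD k R B S) (w0 : X k) : ∀ i ∈ ixG13, OddHC.ht (sX R B S w0 i).1 =
    if i = 9 ∨ i = 17 then OddHC.ht R + 2 else if i ∈ odG13 then OddHC.ht R + 1 else OddHC.ht R := by
  intro i hi
  have hi' : i < 20 := (by decide : ∀ i ∈ ixG13, i < 20) i hi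
  rw [h.word w0 hi']
  have hS := h.htS
  have hB := h.htB
  have h3 := h.h3
  have h00 : ht (BinaryTree.nil : BinaryTree Unit) = 0 := rfl
  simp only [ixG13, List.mem_cons, List.not_mem_nil, or_false] at hi
  rcases hi with rfl | rfl | rfl | rfl | rfl | rfl | rfl | rfl | rfl | rfl | rfl | rfl | rfl <;>
    simp only [H1.W, app, ht_app, ht_node, h00, odG13] <;> norm_num <;> omega

theorem SqD.inn9 (h : SqD k R B S) {w0 : X k} (hp : JEOK R B S w0) : ∀ i ∈ ixG13, ∀ j ∈ ixG13,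
    sX R B S w0 i = sX R B S w0 j → i = j := by
  have hlt : ∀ i ∈ ixG13, i < 20 ∧ i ≠ 10 ∧ i ≠ 13 := by decide
  have key : ∀ i ∈ ixG13, ∀ j ∈ ixG13, i < j → sX R B S w0 i ≠ sX R B S w0 j := by
    intro i hi j hj hij e
    obtain ⟨a1, a2, a3⟩ := hlt i hi
    obtain ⟨b1, b2, b3⟩ := hlt j hj
    have e0 := h.htE w0 i hi
    have e2 := h.htE w0 j hj
    rw [← e] at e2
    have e3 := e0.symm.trans e2
    have e1 := congrArg Subtype.val e
    rw [h.word w0 a1, h.word w0 b1] at e1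
    by_cases h9 : i = 9 ∨ j = 9
    · -- only the word 17 has the height of the word 9
      have h17 : i = 9 ∧ j = 17 := by
        have hd : ∀ i ∈ ixG13, ∀ j ∈ ixG13, i < j → (i = 9 ∨ j = 9) → (i = 9 ∧ j = 17) ∨
            ((i = 9 ∨ i = 17) ∧ ¬ (j = 9 ∨ j = 17)) ∨ (¬ (i = 9 ∨ i = 17) ∧ (j = 9 ∨ j = 17)) := by decide
        rcases hd i hi j hj hij h9 with h1 | ⟨h1, h2⟩ | ⟨h1, h2⟩
        · exact h1
        · rw [if_pos h1, if_neg h2] at e3
          split_ifs at e3 <;> omega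
        · rw [if_neg h1, if_pos h2] at e3
          split_ifs at e3 <;> omega
      obtain ⟨rfl, rfl⟩ := h17
      have e4 : (R △ .nil) △ BinaryTree.nil = (S △ B) △ .nil := e1
      injection e4 with _ e5 _
      injection e5 with _ e6 e7
      exact h.neSR e6.symm
    · have hm := h.inj' hij b1 (fun h => h9 (Or.inl h)) (fun h => h9 (Or.inr h)) e1
      simp only [List.mem_cons, Prod.mk.injEq, List.not_mem_nil, or_false] at hm
      rcases hm with ⟨rfl, rfl⟩ | ⟨rfl, rfl⟩ | ⟨rfl, rfl⟩ | ⟨rfl, rfl⟩ | ⟨rfl, rfl⟩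
      · exact hp.n04 (by rw [e])
      · exact b2 rfl
      · exact b2 rfl
      · exact b3 rfl
      · exact a2 rfl
  intro i hi j hj e
  rcases lt_trichotomy i j with h1 | h1 | h1
  · exact absurd e (key i hi j hj h1)
  · exact h1
  · exact absurd e.symm (key j hj i hi h1)

theorem SqD.htEn (h : SqD k R B S) (w0 : X k) : ∀ i ∈ nwG13, OddHC.ht (sX R B S w0 i).1 = OddHC.ht R := by
  intro i hi
  rw [h.htE w0 i ((by decide : ∀ i ∈ nwG13, i ∈ ixG13) i hi)]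
  have hd : ∀ i ∈ nwG13, ¬ (i = 9 ∨ i = 17) ∧ i ∉ odG13 := by decide
  rw [if_neg (hd i hi).1, if_neg (hd i hi).2]

theorem SqD.htEo (h : SqD k R B S) (w0 : X k) : ∀ i ∈ odG13, OddHC.ht R < OddHC.ht (sX R B S w0 i).1 := by
  intro i hi
  rw [h.htE w0 i ((by decide : ∀ i ∈ odG13, i ∈ ixG13) i hi)]
  split_ifs <;> omega

theorem SqD.oldE (h : SqD k R B S) (w0 : X k) : ∀ i ∈ nwG13, ∀ j ∈ odG13,
    ¬ TT.SameCycle (sX R B S w0 i) (sX R B S w0 j) := by
  intro i hi j hj hs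
  have h1 := h.htEn w0 i hi
  have h2 := h.htEo w0 j hj
  have h3 := cont_same hs
  rw [OddHC.ht_eq, h3, ← OddHC.ht_eq] at h1
  omega

/-- a T-cycle of content `cont R + {2}` is not one of content `cont R + {1, 1}` -/
theorem SqD.zy (h : SqD k R B S) {a b : X k} (ha : OddHC.cont a.1 = OddHC.cont R + {2})
    (hb : OddHC.cont b.1 = OddHC.cont R + ({1} + {1})) : ¬ TT.SameCycle a b := by
  intro hs
  have hz1 := h.onez
  have hy1 := h.oney
  have h1 := cont_same hs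
  rw [ha, hb] at h1
  rw [h1] at hz1
  omega

theorem SqD.sepE (h : SqD k R B S) {w0 : X k} (hp : JEOK R B S w0) : ∀ i ∈ nwG13, ∀ j ∈ nwG13,
    TT.SameCycle (sX R B S w0 i) (sX R B S w0 j) → i = j := by
  have c0 := h.cont0 w0
  have c4 := h.cont4 w0
  have c1 := h.cont1 w0
  have c2 := h.cont2 w0
  intro i hi j hj hs
  simp only [nwG13, List.mem_cons, List.not_mem_nil, or_false] at hi hj
  rcases hi with rfl | rfl | rfl | rfl <;> rcases hj with rfl | rfl | rfl | rfl <;>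
    first
      | rfl
      | exact absurd (cyc_eq.2 hs) hp.n04
      | exact absurd (cyc_eq.2 hs) hp.n04.symm
      | exact absurd (cyc_eq.2 hs) hp.n12
      | exact absurd (cyc_eq.2 hs) hp.n12.symm
      | exact absurd hs (h.zy (by assumption) (by assumption))
      | exact absurd hs.symm (h.zy (by assumption) (by assumption))

/-- the absorber -/
theorem SqD.absE (h : SqD k R B S) {w0 : X k} (hp : JEOK R B S w0) : (gadG13 (sX R B S w0)).Abs := by
  have e := h.num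
  have es := h.size
  have n0 : (BinaryTree.nil : BinaryTree Unit).numNodes = 0 := rfl
  have hlt : ∀ i ∈ ixG13, i < 20 := by decide
  refine gadG13_abs (R := R) (Q := .nil) (B := B) (S := S) (by omega) (by omega) ?_ (h.inn9 hp) (h.sepE hp)
    (h.zy (h.cont0 w0) (h.cont5 w0)) (h.zy (h.cont4 w0) (h.cont5 w0)) (h.oldE w0)
  intro i hi
  rw [h.word w0 (hlt i hi), H1.W_w20 _ _ _ _ i (hlt i hi)]

end J3

open J3

variable {k : ℕ} {F : Set (Cyc k)} {g : DG k}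

/-- TYPE JE over the phase `R` -/
def TyJE (R : BinaryTree Unit) (F : Set (Cyc k)) (g : DG k) : Prop :=
  ∃ (B S : BinaryTree Unit) (w0 : X k), SqD k R B S ∧ JEOK R B S w0 ∧
    F = {c | ∃ i ∈ nwG13, c = cyc (sX R B S w0 i)} ∧ g = gadG13 (sX R B S w0)

variable {R : BinaryTree Unit} {w : ℕ → X k}

theorem TyJE.hF (h : TyJE R F g) : ∀ w, w ∈ g.F ↔ cyc w ∈ F := by
  obtain ⟨B, S, w0, h1, hp, rfl, rfl⟩ := h
  intro w
  unfold gadG13
  rw [mem_gadOf_F]
  constructor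
  · rintro ⟨c, hc, hs⟩
    exact ⟨c, hc, (cyc_eq.2 hs).symm⟩
  · rintro ⟨c, hc, hs⟩
    exact ⟨c, hc, cyc_eq.1 hs.symm⟩

theorem TyJE.new (h : TyJE R F g) : ∀ c ∈ F, ∃ u ∈ g.B, cyc u = c := by
  obtain ⟨B, S, w0, h1, hp, rfl, rfl⟩ := h
  rintro c ⟨i, hi, rfl⟩
  have hix : ∀ i ∈ nwG13, i ∈ ixG13 := by decide
  exact ⟨_, mem_gadOf_B.2 ⟨i, hix i hi, rfl⟩, rfl⟩

theorem TyJE.abs (h : TyJE R F g) : g.Abs := by
  obtain ⟨B, S, w0, h1, hp, rfl, rfl⟩ := h
  exact h1.absE hp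

/-- the group has the height of `R` -/
theorem TyJE.htp' (h : TyJE R F g) : ∀ c ∈ F, htc c = OddHC.ht R := by
  obtain ⟨B, S, w0, h1, hp, rfl, rfl⟩ := h
  rintro c ⟨i, hi, rfl⟩
  rw [htc_cyc, h1.htEn w0 i hi]

theorem TyJE.htg (h : TyJE R F g) : ∀ c ∈ F, ∀ d ∈ F, htc c = htc d := by
  intro c hc d hd
  rw [h.htp' c hc, h.htp' d hd]

/-- contents of the group -/
theorem TyJE.contF (h : TyJE R F g) : ∀ c ∈ F, contc c = OddHC.cont R + {2} ∨ contc c = OddHC.cont R + ({1} + {1}) := by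
  obtain ⟨B, S, w0, h1, hp, rfl, rfl⟩ := h
  rintro c ⟨i, hi, rfl⟩
  simp only [nwG13, List.mem_cons, List.not_mem_nil, or_false] at hi
  rcases hi with rfl | rfl | rfl | rfl
  · exact Or.inl (h1.cont0 w0)
  · exact Or.inl (h1.cont4 w0)
  · exact Or.inr (h1.cont1 w0)
  · exact Or.inr (h1.cont2 w0)

/-- rank: every old word is HIGHER, except the word `()()R`, of content `cont R + {1, 1}` -/
theorem TyJE.rank (h : TyJE R F g) : ∀ w ∈ g.B, cyc w ∈ F ∨ (∀ c ∈ F, htc c < htc (cyc w)) ∨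
    (w.1 = .nil △ (.nil △ R) ∧ contc (cyc w) = OddHC.cont R + ({1} + {1})) := by
  have hh := h.htp'
  obtain ⟨B, S, w0, h1, hp, rfl, rfl⟩ := h
  intro w hw
  obtain ⟨i, hi, rfl⟩ := mem_gadOf_B.1 hw
  have hr : ∀ i ∈ ixG13, i ∈ nwG13 ∨ i = 5 ∨ i ∈ odG13 := by decide
  rcases hr i hi with h2 | rfl | h2
  · exact Or.inl ⟨i, h2, rfl⟩
  · exact Or.inr (Or.inr ⟨h1.word w0 (by norm_num), h1.cont5 w0⟩)
  · right; left
    intro c hc
    rw [hh c hc, htc_cyc]
    exact h1.htEo w0 i h2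

/-- rank as a LATE group (like J3V): the old words are `Lower` than the content `cont R + {2}` of the moving square -/
theorem TyJE.rankL (h : TyJE R F g) : ∀ w ∈ g.B, cyc w ∈ F ∨ H1.Lower (contc (cyc w)) (OddHC.cont R + {2}) := by
  obtain ⟨B, S, w0, h1, hp, rfl, rfl⟩ := h
  intro w hw
  obtain ⟨i, hi, rfl⟩ := mem_gadOf_B.1 hw
  have hr : ∀ i ∈ ixG13, i ∈ nwG13 ∨ (i < 20 ∧ i ≠ 0 ∧ i ≠ 4 ∧ i ≠ 10 ∧ i ≠ 13) := by decide
  rcases hr i hi with h2 | ⟨h2, h3, h4, h5, h6⟩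
  · exact Or.inl ⟨i, h2, rfl⟩
  · exact Or.inr (h1.rank w0 i h2 h3 h4 h5 (fun e => absurd e h6))

theorem TyJE.old (h : TyJE R F g) : ∃ u ∈ g.B, cyc u ∉ F := by
  obtain ⟨B, S, w0, h1, hp, rfl, rfl⟩ := h
  refine ⟨_, mem_gadOf_B.2 ⟨3, by decide, rfl⟩, ?_⟩
  rintro ⟨i, hi, e⟩
  exact h1.oldE w0 i hi 3 (by decide) (cyc_eq.1 e.symm)

theorem TyJE.path (h : TyJE R F g) : ∀ a ∈ g.arcs, ∃ n : ℕ, (TT ^ (n + 1)) a.1 = a.2 ∧ a.1 ∈ g.B ∧
    ∀ i < n, (TT ^ (i + 1)) a.1 ∈ innA a := by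
  obtain ⟨B, S, w0, h1, hp, rfl, rfl⟩ := h
  intro p hq
  have hq' : ∃ q ∈ arG13, p = (sX R B S w0 q.1, sX R B S w0 q.2) := hq
  obtain ⟨q, hq1, rfl⟩ := hq'
  have h2 : q.1 ∈ ixG13 ∧ q ∈ [(0, 10), (1, 11), (3, 12), (6, 15), (8, 14), (9, 17)] :=
    (by decide : ∀ q ∈ arG13, q.1 ∈ ixG13 ∧ q ∈ [(0, 10), (1, 11), (3, 12), (6, 15), (8, 14), (9, 17)]) q hq1
  refine ⟨1, ?_, mem_gadOf_B.2 ⟨q.1, h2.1, rfl⟩, ?_⟩
  · rw [pow_succ, pow_one, Perm.mul_apply]
    exact h1.link w0 h2.2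
  · intro n hn
    obtain rfl : n = 0 := by omega
    rw [pow_one]
    rfl

/-- the words and the inner words -/
theorem TyJE.inn (h : TyJE R F g) : ∃ (B S : BinaryTree Unit) (w0 : X k), SqD k R B S ∧ JEOK R B S w0 ∧
    (∀ w ∈ g.B, ∃ i ∈ ixG13, w = sX R B S w0 i) ∧
    F = {c | ∃ i ∈ nwG13, c = cyc (sX R B S w0 i)} ∧
    ∀ a ∈ g.arcs, ∀ w ∈ innA a, w = TT (sX R B S w0 3) ∨ w = TT (sX R B S w0 6) ∨ w = TT (sX R B S w0 9) := by
  obtain ⟨B, S, w0, h1, hp, rfl, rfl⟩ := h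
  refine ⟨B, S, w0, h1, hp, ?_, rfl, ?_⟩
  · intro w hw
    obtain ⟨i, hi, rfl⟩ := mem_gadOf_B.1 hw
    exact ⟨i, hi, rfl⟩
  · intro a ha w hw
    have ha' : ∃ q ∈ arG13, a = (sX R B S w0 q.1, sX R B S w0 q.2) := ha
    obtain ⟨q, hq1, rfl⟩ := ha'
    have hw' : w = TT (sX R B S w0 q.1) := hw
    simp only [arG13, List.mem_cons, List.not_mem_nil, or_false] at hq1
    rcases hq1 with rfl | rfl | rfl
    · exact Or.inl hw'
    · exact Or.inr (Or.inl hw')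
    · exact Or.inr (Or.inr hw')

/-- the words by their trees -/
theorem TyJE.words (h : TyJE R F g) : ∃ (B S : BinaryTree Unit), SqD k R B S ∧
    ∀ w ∈ g.B, ∃ i ∈ ixG13, w.1 = H1.W R .nil B S i := by
  obtain ⟨B, S, w0, h1, hp, h2, _, _⟩ := h.inn
  refine ⟨B, S, h1, ?_⟩
  intro w hw
  obtain ⟨i, hi, rfl⟩ := h2 w hw
  exact ⟨i, hi, h1.word w0 ((by decide : ∀ i ∈ ixG13, i < 20) i hi)⟩

/-! ### The JV gadget inside -/

/-- positions of the nine words of JV -/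
def ix9E : ℕ → ℕ
  | 0 => 0
  | 1 => 4
  | 2 => 7
  | 3 => 9
  | 4 => 3
  | 5 => 6
  | 6 => 17
  | 7 => 12
  | _ => 15

/-- the nine words -/
theorem J3.SqD.w9 {B S : BinaryTree Unit} (h : SqD k R B S) (w0 : X k) : ∀ i < 9,
    (sX R B S w0 (ix9E i)).1 = w9L .nil .nil R (xT R) i := by
  intro i hi
  have hx : xT R = S △ B := by rw [xT_sq, h.sq]
  rw [hx, h.word w0 ((by decide : ∀ i < 9, ix9E i < 20) i hi)]
  interval_cases i <;> rfl

theorem J3.SqD.d9 {B S : BinaryTree Unit} (h : SqD k R B S) {w0 : X k} (hp : JEOK R B S w0) :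
    D9 .nil .nil R (fun i => sX R B S w0 (ix9E i)) := by
  have h3 := h.h3
  have h0 : OddHC.ht (BinaryTree.nil : BinaryTree Unit) = 0 := rfl
  exact ⟨by rw [h0]; omega, by rw [h0]; omega, h.two, h.w9 w0, hp.n04⟩

/-- the JV gadget over `R`: its words are words of JE, the arcs are the same -/
theorem TyJE.toIs9 (h : TyJE R F g) : ∃ F1 g1, Is9 .nil .nil R F1 g1 ∧ F1 ⊆ F ∧ (∀ x ∈ g1.B, x ∈ g.B) ∧
    g1.arcs = g.arcs := by
  obtain ⟨B, S, w0, h1, hp, rfl, rfl⟩ := h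
  refine ⟨_, _, ⟨_, h1.d9 hp, rfl, rfl⟩, ?_, ?_, ?_⟩
  · rintro c (rfl | rfl)
    · exact ⟨0, by decide, rfl⟩
    · exact ⟨4, by decide, rfl⟩
  · intro x hx
    obtain ⟨i, hi, rfl⟩ := mem_gad9.1 hx
    exact mem_gadOf_B.2 ⟨ix9E i, (by decide : ∀ i < 9, ix9E i ∈ ixG13) i hi, rfl⟩
  · ext p
    change p ∈ ({(sX R B S w0 9, sX R B S w0 17), (sX R B S w0 3, sX R B S w0 12),
      (sX R B S w0 6, sX R B S w0 15)} : Set (X k × X k)) ↔ ∃ q ∈ arG13, p = (sX R B S w0 q.1, sX R B S w0 q.2)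
    simp only [arG13, List.mem_cons, List.not_mem_nil, or_false, exists_eq_or_imp, exists_eq_left,
      Set.mem_insert_iff, Set.mem_singleton_iff]
    tauto

/-- **rows by reuse**: a word of JE is a word of a JV gadget over `R` (group in `F`) or one of `R()()`, `()R()`, `()()R`, `()(R)` -/
theorem TyJE.cases (h : TyJE R F g) {x : X k} (hx : x ∈ g.B)
    (hV : ∀ F1 g1, Is9 .nil .nil R F1 g1 → F1 ⊆ F → x ∉ g1.B)
    (h4 : ∀ (B S : BinaryTree Unit) (w0 : X k), SqD k R B S → (∀ i ∈ nwG13, cyc (sX R B S w0 i) ∈ F) →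
      ∀ i ∈ [1, 2, 5, 8], x ≠ sX R B S w0 i) : False := by
  obtain ⟨B, S, w0, h1, hp, rfl, rfl⟩ := h
  obtain ⟨i, hi, rfl⟩ := mem_gadOf_B.1 hx
  have hd : ∀ i ∈ ixG13, i ∈ [1, 2, 5, 8] ∨ ∃ j < 9, ix9E j = i := by decide
  rcases hd i hi with h2 | ⟨j, hj, rfl⟩
  · exact h4 B S w0 h1 (fun i hi => ⟨i, hi, rfl⟩) i h2 rfl
  · refine hV _ _ ⟨_, h1.d9 hp, rfl, rfl⟩ ?_ (mem_gad9.2 ⟨j, hj, rfl⟩)
    rintro c (rfl | rfl)
    · exact ⟨0, by decide, rfl⟩
    · exact ⟨4, by decide, rfl⟩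

/-- rows by reuse, the second way: a word of JE is a word `W R nil B S i`, `i ≠ 9` (the words of J3V), or `((R))` -/
theorem TyJE.casesW (h : TyJE R F g) {x : X k} (hx : x ∈ g.B) : ∃ (B S : BinaryTree Unit) (w0 : X k), SqD k R B S ∧
    (∀ i ∈ nwG13, cyc (sX R B S w0 i) ∈ F) ∧
    ((∃ i < 20, i ≠ 9 ∧ x = sX R B S w0 i) ∨ x.1 = (R △ .nil) △ .nil) := by
  obtain ⟨B, S, w0, h1, hp, rfl, rfl⟩ := h
  obtain ⟨i, hi, rfl⟩ := mem_gadOf_B.1 hx
  refine ⟨B, S, w0, h1, fun i hi => ⟨i, hi, rfl⟩, ?_⟩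
  by_cases h9 : i = 9
  · subst h9
    exact Or.inr (h1.word w0 (by norm_num))
  · exact Or.inl ⟨i, (by decide : ∀ i ∈ ixG13, i < 20) i hi, h9, rfl⟩

/-- a low first component is before the first maximum -/
theorem low_first {A Y : BinaryTree Unit} (hlow : OddHC.ht A + 1 < OddHC.ht (A △ Y)) {a b : List Bool}
    (f : H1.FM (A △ Y) a b) : ∃ u, a = true :: (wd A ++ false :: u) := by
  have hY : Y ≠ .nil := by
    rintro rfl
    rw [ht_node, ht] at hlow
    omega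
  have hhY : OddHC.ht Y = OddHC.ht (A △ Y) := by
    rw [ht_node] at hlow ⊢
    omega
  obtain ⟨aY, cY, g0, -⟩ := H1.FM.ex hY
  have g1 := g0.app_left (P := A △ .nil) (by
    have n0 : Tsq.ht (BinaryTree.nil : BinaryTree Unit) = 0 := rfl
    rw [Tsq.ht_node, n0, H1.ht_eq, H1.ht_eq]; omega)
  have g2 : H1.FM (A △ Y) (wd (A △ .nil) ++ aY) (cY ++ false :: wd (Tsq.sq Y).2) := g1
  obtain ⟨g3, -⟩ := f.uniq g2
  refine ⟨aY, ?_⟩
  rw [g3, wd_node]
  simp [wd]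

/-- `T` of the words `(R())`, `(R)()` is not `()(R)` -/
theorem D9.own8 (h : D9 .nil .nil R w) (h3 : 3 ≤ OddHC.ht R) {A Y : BinaryTree Unit} (hA : R = A △ Y)
    (hlow : OddHC.ht A + 1 < OddHC.ht R) {x : X k} (hx : x.1 = .nil △ (R △ .nil)) {i : ℕ}
    (hi : i = 3 ∨ i = 4 ∨ i = 5) : TT (w i) ≠ x := by
  obtain ⟨a, b, f0, f1, k2, k4, k5, t4, t5⟩ := h.fm
  simp only [wd, List.nil_append, List.map_nil, List.map_cons, List.map_append, Bool.not_true,
    Bool.not_false, List.cons_append] at k2 k4 k5 t4 t5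
  have eS : Tsq.ht R = ht R := H1.ht_eq R
  have n0 : Tsq.ht (BinaryTree.nil : BinaryTree Unit) = 0 := rfl
  have k8 : H1.FM x.1 (true :: false :: true :: a) (b ++ [false]) := by
    have g1 := f0.node (Z := .nil) (by rw [n0]; omega)
    have g2 := g1.app_left (P := .nil △ .nil) (by
      rw [Tsq.ht_node, Tsq.ht_node, n0]; omega)
    rw [hx]
    exact g2
  have hb : 3 ≤ b.count false := by omega
  intro e
  rcases hi with rfl | rfl | rfl
  · have e1 := h.htw (i := 3) (by norm_num)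
    rw [← cyc_TT, e, htc_cyc, hx, ht_node, ht_node] at e1
    have h0 : ht (BinaryTree.nil : BinaryTree Unit) = 0 := rfl
    rw [h0] at e1
    norm_num at e1
  · rw [e] at t4
    obtain ⟨e1, e2⟩ := k8.uniq t4
    rcases b with _ | ⟨y, _ | ⟨z, b⟩⟩
    · simp at hb
    · rw [List.count_cons] at hb
      simp at hb
      split_ifs at hb <;> omega
    · simp at e1 e2
      obtain ⟨-, z1, -⟩ := e1
      obtain ⟨-, z2, -⟩ := e2
      rw [z2] at z1
      simp at z1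
  · rw [e] at t5
    obtain ⟨e1, e2⟩ := k8.uniq t5
    have e3 : b = false :: true :: false :: a.map not := by
      have := congrArg (List.map not) e1
      simpa [Function.comp_def] using this.symm
    rw [e3] at e2
    have e4 : a.map not ++ [false] = false :: a.map not := by simpa using e2
    have e5 := list_rot e4
    rw [hA] at f0 hlow
    obtain ⟨u, hu⟩ := low_first hlow f0
    have e6 : true ∈ a.map not := by
      rw [hu]
      simp
    rw [e5] at e6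
    have e7 := List.eq_of_mem_replicate e6
    simp at e7

/-- own inner words are no words of the gadget: `R = A Y` with `A` low -/
theorem TyJE.own (h : TyJE R F g) {A Y : BinaryTree Unit} (hA : R = A △ Y)
    (hlow : OddHC.ht A + 1 < OddHC.ht R) : ∀ a ∈ g.arcs, ∀ x ∈ innA a, x ∉ g.B := by
  have hh := h.htp'
  obtain ⟨B, S, w0, h1, hp, hB, rfl, hI⟩ := h.inn
  have hD := h1.d9 hp
  intro a ha x hx hx'
  obtain ⟨j, hj, e⟩ := hB x hx'
  have key : ∀ i, i = 3 ∨ i = 4 ∨ i = 5 → x ≠ TT (sX R B S w0 (ix9E i)) := by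
    intro i hi e1
    rw [e1] at e
    have e4 : OddHC.ht R < htc (cyc (sX R B S w0 (ix9E i))) := hD.old (i := i) (by omega) (by omega)
    have hdj : ∀ j ∈ ixG13, (∃ l < 9, ix9E l = j) ∨ j ∈ nwG13 ∨ j = 5 ∨ j = 8 := by decide
    rcases hdj j hj with ⟨l, hl, rfl⟩ | hj2 | rfl | rfl
    · exact hD.own_e h1.h3 hA hlow hi hl e
    · have e3 := hh _ ⟨j, hj2, rfl⟩
      rw [← e, cyc_TT] at e3
      omega
    · have e3 : htc (cyc (sX R B S w0 5)) = OddHC.ht R := by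
        rw [htc_cyc, h1.htE w0 5 (by decide)]
        simp [odG13]
      rw [← e, cyc_TT] at e3
      omega
    · exact hD.own8 h1.h3 hA hlow (h1.word w0 (by norm_num)) hi e
  rcases hI a ha x hx with e1 | e1 | e1
  · exact key 4 (Or.inr (Or.inl rfl)) e1
  · exact key 5 (Or.inr (Or.inr rfl)) e1
  · exact key 3 (Or.inl rfl) e1

end Pool.OddHC
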