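import Pool.Agent.Work.MP_8f87b2_h84.Rows

/-!
# MP_8f87b2_co: inner words of J1a (right and mirrored) against the one-soliton gadgets
-/

set_option autoImplicit false

namespace Pool.OddHC

open Finset Equiv BinaryTree Pool.Agent.Work.MP_8f87b2_co

namespace J

variable {k n s c : ℕ} {F F' : Set (Cyc k)} {g g' : DG k}

theorem mir_b2e (t : ℕ) : Tsq.mir (b2 t) = b2 t := by
  induction t with
  | zero => rfl
  | succ t ih =>
    change Tsq.mir (l1 △ b2 t) = _
    rw [Tsq.mir_node, ih]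
    apply cs_inj
    rw [cs_app, cs_b2, cs_b2, List.replicate_succ']
    rfl

theorem t3_b2 (t : ℕ) : t3 (b2 t) = 0 := by
  induction t with
  | zero => rfl
  | succ t ih =>
    change t3 (l1 △ b2 t) = 0
    rw [t3_l1, ih]

theorem RR_app (t : ℕ) (D : BinaryTree Unit) (u : ℕ) : RR t D u = app (b2 t) (RR 0 D u) := by
  rw [app_b2]; rfl

/-- a mixed word with two parts `≥ 3` -/
theorem mx_t3 (hn : 1 ≤ n) {F : ZMod (2 * n + 1) → ℕ} {w : BinaryTree Unit} (h : IsMx n F w)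
    (h2 : t3 w = 2) : ∃ (t : ℕ) (D : BinaryTree Unit) (u j : ℕ), 1 ≤ t ∧
      GD D ∧ (j = 13 ∨ j = 16 ∨ j = 18 ∨ j = 19) ∧ w = Tsq.mir (mw t D u j) := by
  obtain ⟨t, D, u, j, ht1, hD, h1, hj, hj', rfl⟩ := h
  refine ⟨t, D, u, j, ht1, hD, ?_, rfl⟩
  have e : t3 (RR t D u) = 1 := by rw [← h1, t3_mir, t3_RF hn]
  rw [RR_app, t3_app, t3_b2, zero_add] at e
  have hb := t3_b2 t
  rw [t3_mir] at h2
  have hS : 3 ≤ ht (RR 0 D u) := by
    rw [ht_RR hD]
    have := hD.ht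
    omega
  have e0 : t3 (BinaryTree.nil : BinaryTree Unit) = 0 := rfl
  by_contra hc
  interval_cases j
  · change t3 (app (b2 t) (.nil △ (.nil △ RR 0 D u))) = 2 at h2
    rw [t3_app, t3_o, t3_o] at h2; omega
  · change t3 (RR 0 D u △ app (b2 t) (.nil △ .nil)) = 2 at h2
    rw [t3_hi hS, t3_app, t3_o] at h2; omega
  · exact hc (by omega)
  · change t3 ((.nil △ RR 0 D u) △ b2 t) = 2 at h2
    rw [t3_hi (by rw [ht_node]; omega), t3_o] at h2; omega
  · change t3 (.nil △ (RR 0 D u △ b2 t)) = 2 at h2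
    rw [t3_o, t3_hi hS] at h2; omega
  · exact hc (by omega)
  · change t3 ((RR 0 D u △ b2 t) △ .nil) = 2 at h2
    rw [t3_hi (by rw [ht_node]; omega), t3_hi hS] at h2; omega
  · exact hc (by omega)
  · exact hc (by omega)

/-- it starts with at most four ones -/
theorem mx_start {t u j : ℕ} {D : BinaryTree Unit} (ht : 1 ≤ t)
    (hj : j = 13 ∨ j = 16 ∨ j = 18 ∨ j = 19) {r : List Bool} :
    wd (Tsq.mir (mw t D u j)) ≠ List.replicate 5 true ++ r := by
  obtain ⟨t, rfl⟩ : ∃ m, t = m + 1 := ⟨t - 1, by omega⟩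
  have hb : Tsq.mir (b2 (t + 1)) = l1 △ b2 t := by rw [mir_b2e]; rfl
  have hb' : Tsq.mir (lv2 (t + 1) .nil) = l1 △ b2 t := hb
  have hm0 : Tsq.mir (BinaryTree.nil : BinaryTree Unit) = .nil := rfl
  rcases hj with rfl | rfl | rfl | rfl
  · change wd (Tsq.mir (app (RR 0 D u) (app (b2 (t + 1)) (.nil △ .nil) △ .nil))) ≠ _
    rw [Tsq.mir_app, Tsq.mir_node, Tsq.mir_app]
    intro e
    simp [wd, app, hm0, Tsq.mir_node] at e
  · change wd (Tsq.mir (app (RR 0 D u) (b2 (t + 1) △ (.nil △ .nil)))) ≠ _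
    rw [Tsq.mir_app, Tsq.mir_node]
    intro e
    simp [wd, app, hm0, Tsq.mir_node] at e
  · change wd (Tsq.mir (.nil △ app (RR 0 D u) (b2 (t + 1) △ .nil))) ≠ _
    rw [Tsq.mir_node, Tsq.mir_app, Tsq.mir_node, hb]
    intro e
    simp [wd, app, hm0] at e
  · change wd (Tsq.mir (app (RR 0 D u) (b2 (t + 1) △ .nil) △ .nil)) ≠ _
    rw [Tsq.mir_node, Tsq.mir_app, Tsq.mir_node, hb]
    intro e
    simp [wd, app, hm0] at e

/-! ### The first maximum of the words of J1a -/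

theorem FM_ch (s : ℕ) : H1.FM (H1.ch (s + 1)) (List.replicate s true)
    (List.replicate (s + 1) false) := by
  have hh : Tsq.ht (H1.ch (s + 1)) = s + 1 := by rw [H1.ht_eq, H1.ch_ht]
  refine ⟨?_, ?_, ?_⟩
  · rw [H1.wd_ch, List.replicate_succ']
    simp
  · intro m
    rw [hh, List.take_replicate, List.count_replicate_self, List.count_replicate]
    have := Nat.min_le_right m s
    simp
  · rw [hh, List.count_replicate_self, List.count_replicate]
    simp

/-- **the inner words of J1a start with `1^s`** -/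
theorem j1_start (hs : 1 ≤ s) (hc : c ≤ s) {x : X k} {i : ℕ}
    (hi : i ∈ [1, 3, 6, 8, 9]) (hx : x.1 = j1w s c i) :
    ∃ r, wd (TT x).1 = List.replicate s true ++ r := by
  obtain ⟨s, rfl⟩ : ∃ m, s = m + 1 := ⟨s - 1, by omega⟩
  have h0 := FM_ch s
  have hn : Tsq.ht (.nil : BinaryTree Unit) = 0 := rfl
  have hS : Tsq.ht (H1.ch (s + 1)) = s + 1 := by rw [H1.ht_eq, H1.ch_ht]
  have hC : Tsq.ht (H1.ch c) = c := by rw [H1.ht_eq, H1.ch_ht]
  have hR := h0.app_right (Z := H1.ch c) (by rw [hS, hC]; exact hc)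
  have hRh : Tsq.ht (app (H1.ch (s + 1)) (H1.ch c)) = s + 1 := by rw [Tsq.ht_app, hS, hC]; omega
  have fin : ∀ {y : BinaryTree Unit} {a b : List Bool}, x.1 = y →
      H1.FM y a (List.replicate (s + 1) false ++ b) →
      ∃ r, wd (TT x).1 = List.replicate (s + 1) true ++ r := by
    intro y a b e h
    rw [← e] at h
    refine ⟨b.map not ++ false :: a.map not, ?_⟩
    rw [h.wdT]
    simp
  simp only [List.mem_cons, List.not_mem_nil, or_false] at hi
  rcases hi with rfl | rfl | rfl | rfl | rfl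
  · have h := hR.app_right (Z := .nil △ (.nil △ .nil)) (by
      rw [hRh, Tsq.ht_node, Tsq.ht_node, hn]; omega)
    rw [List.append_assoc] at h
    exact fin hx h
  · have h := (hR.app_right (Z := .nil △ .nil) (by
      rw [hRh, Tsq.ht_node, hn]; omega)).node (Z := .nil) (by rw [hn]; omega)
    rw [List.append_assoc, List.append_assoc] at h
    exact fin hx h
  · have h := hR.node (Z := .nil △ .nil) (by rw [hRh, Tsq.ht_node, hn]; omega)
    rw [List.append_assoc] at h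
    exact fin hx h
  · have h := (hR.node (Z := .nil) (by rw [hn]; omega)).app_left (P := .nil △ .nil) (by
      rw [Tsq.ht_node, Tsq.ht_node, hn, hRh]; omega)
    rw [List.append_assoc] at h
    exact fin hx h
  · have h := (hR.node (Z := .nil) (by rw [hn]; omega)).node (Z := .nil) (by rw [hn]; omega)
    rw [List.append_assoc, List.append_assoc] at h
    exact fin hx h

/-- the arcs of a gadget J1a -/
def J1A (s c : ℕ) (g : DG k) : Prop :=
  ∀ a ∈ g.arcs, ∃ i ∈ [1, 3, 6, 8, 9], a.1.1 = j1w s c i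

/-- the arcs of a mirrored gadget J1a -/
def J1MA (s c : ℕ) (g : DG k) : Prop :=
  ∀ a ∈ g.arcs, TT (TT a.1) = a.2 ∧ ∃ i ∈ [1, 3, 6, 8, 9], Tsq.mir a.2.1 = j1w s c i

theorem us_t3 (hn : 1 ≤ n) {F : ZMod (2 * n + 1) → ℕ} {w : BinaryTree Unit} (h : IsUs n F w) :
    t3 w = 1 := by
  obtain ⟨_, rfl⟩ := h
  exact t3_RF hn F

/-- **I-J1-JM, I-J1-J3** -/
theorem J1.inner_J (hn : 1 ≤ n) (hc : 3 ≤ c) (hcs : c ≤ s) (hs : 5 ≤ s) (hA : J1A s c g)
    {B : Finset (X k)} {P U M : Set (ZMod (2 * n + 1) → ℕ)} (h : JG n B P U M) :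
    ∀ a ∈ g.arcs, ∀ w ∈ innA a, w ∉ B := by
  intro a ha w hw hw'
  obtain ⟨i, hi, hx⟩ := hA a ha
  have e : w = TT a.1 := hw
  have hi20 : i < 20 := by
    simp only [List.mem_cons, List.not_mem_nil, or_false] at hi
    omega
  have h2 : t3 w.1 = 2 := by
    rw [e, t3_TT]
    exact IsJ1.t3 (by omega) hc ⟨i, hi20, hx⟩
  obtain ⟨r, hr⟩ := j1_start (by omega) hcs hi hx
  rw [← e] at hr
  rcases h w hw' with ⟨Φ, _, h1⟩ | ⟨G, _, h1⟩ | ⟨Ψ, _, h1⟩
  · have := h1.t3 hn
    omega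
  · have := us_t3 hn h1
    omega
  · obtain ⟨t, D, u, j, ht, _, hj, h3⟩ := mx_t3 hn h1 h2
    rw [h3] at hr
    obtain ⟨m, rfl⟩ : ∃ m, s = 5 + m := ⟨s - 5, by omega⟩
    rw [List.replicate_add, List.append_assoc] at hr
    exact mx_start ht hj hr

/-- number of parts 3 -/
def o3 (w : BinaryTree Unit) : ℕ := (OddHC.cont w).count 3

theorem o3_mir (w : BinaryTree Unit) : o3 (Tsq.mir w) = o3 w := by
  unfold o3; rw [HM.cont_mir]

theorem o3_TT (x : X k) : o3 (TT x).1 = o3 x.1 := by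
  unfold o3; rw [TT_apply, cont_TF]

theorem o3_app (P Q : BinaryTree Unit) : o3 (app P Q) = o3 P + o3 Q := by
  unfold o3; rw [cont_app, Multiset.count_add]

theorem o3_node (A C : BinaryTree Unit) : o3 (A △ C) = (raise (OddHC.cont A)).count 3 + o3 C := by
  unfold o3; rw [cont_node, Multiset.count_add]

theorem o3_pos {A : BinaryTree Unit} (h : ht A = 2) (C : BinaryTree Unit) : 1 ≤ o3 (A △ C) := by
  rw [o3_node]
  have h1 : (raise (OddHC.cont A)).count ((OddHC.cont A).sup + 1) = 1 := count_raise_top _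
  rw [← OddHC.ht_eq, h] at h1
  have h2 : (raise (OddHC.cont A)).count 3 = 1 := h1
  omega

theorem o3_zero {A : BinaryTree Unit} (h : ht A ≠ 2) (hA : o3 A = 0) (C : BinaryTree Unit) :
    o3 (A △ C) = o3 C := by
  rw [o3_node]
  have : (raise (OddHC.cont A)).count 3 = 0 := by
    rw [Multiset.count_eq_zero]
    intro h1
    unfold raise at h1
    rw [Multiset.mem_cons] at h1
    rcases h1 with h1 | h1
    · rw [← OddHC.ht_eq] at h1
      omega
    · have h2 := Multiset.mem_of_mem_erase h1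
      unfold o3 at hA
      rw [Multiset.count_eq_zero] at hA
      exact hA h2
  omega

theorem mx_o3 {t u j : ℕ} {D : BinaryTree Unit} (ht1 : 1 ≤ t) (hD : GD D)
    (hj : j = 13 ∨ j = 16 ∨ j = 18 ∨ j = 19) : 1 ≤ o3 (mw t D u j) := by
  have h00 : ht (BinaryTree.nil : BinaryTree Unit) = 0 := rfl
  have hb : ht (b2 t) = 2 := by
    obtain ⟨t, rfl⟩ : ∃ m, t = m + 1 := ⟨t - 1, by omega⟩
    have h1 := ht_b2 t
    change ht (l1 △ b2 t) = 2
    rw [ht_node]
    have : ht l1 = 1 := rfl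
    omega
  rcases hj with rfl | rfl | rfl | rfl
  · change 1 ≤ o3 (app (RR 0 D u) (app (b2 t) (.nil △ .nil) △ .nil))
    rw [o3_app]
    have := o3_pos (A := app (b2 t) (.nil △ .nil)) (by rw [ht_app, ht_node, h00, hb]; omega) .nil
    omega
  · change 1 ≤ o3 (app (RR 0 D u) (b2 t △ (.nil △ .nil)))
    rw [o3_app]
    have := o3_pos hb (.nil △ .nil)
    omega
  · change 1 ≤ o3 (.nil △ app (RR 0 D u) (b2 t △ .nil))
    have h2 := o3_pos hb .nil
    rw [o3_node, o3_app]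
    omega
  · change 1 ≤ o3 (app (RR 0 D u) (b2 t △ .nil) △ .nil)
    have h2 := o3_pos hb .nil
    have hS : 3 ≤ ht (RR 0 D u) := by
      rw [ht_RR hD]
      have := hD.ht
      omega
    have hA : ht (app (RR 0 D u) (b2 t △ .nil)) = ht (RR 0 D u) := by
      rw [ht_app, ht_node, hb, h00]; omega
    have hsup : (OddHC.cont (app (RR 0 D u) (b2 t △ .nil))).sup = ht (RR 0 D u) := by
      rw [← OddHC.ht_eq, hA]
    have hne : OddHC.cont (app (RR 0 D u) (b2 t △ .nil)) ≠ 0 := by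
      intro e
      rw [e] at hsup
      simp at hsup
      omega
    rw [o3_node]
    by_cases h3 : ht (RR 0 D u) = 3
    · have e1 := count_raise_sup hne
      rw [hsup, h3] at e1
      have e2 : (OddHC.cont (app (RR 0 D u) (b2 t △ .nil))).count 3 =
        o3 (RR 0 D u) + o3 (b2 t △ .nil) := by
        rw [← o3_app]; rfl
      have e3 : 1 ≤ o3 (RR 0 D u) := by
        have h0 : OddHC.cont (RR 0 D u) ≠ 0 := by
          intro e
          rw [OddHC.ht_eq, e] at h3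
          simp at h3
        have := sup_mem h0
        rw [← OddHC.ht_eq, h3] at this
        exact Multiset.count_pos.2 this
      omega
    · have e1 : (raise (OddHC.cont (app (RR 0 D u) (b2 t △ .nil)))).count 3 =
        (OddHC.cont (app (RR 0 D u) (b2 t △ .nil))).count 3 :=
        count_raise 3 (by rw [hsup]; omega) (by rw [hsup]; omega)
      have e2 : (OddHC.cont (app (RR 0 D u) (b2 t △ .nil))).count 3 =
        o3 (RR 0 D u) + o3 (b2 t △ .nil) := by
        rw [← o3_app]; rfl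
      omega

theorem o3_ch (m : ℕ) : o3 (H1.ch (m + 4)) = 0 := by
  unfold o3
  rw [cont_ch', Multiset.count_eq_zero]
  intro h
  rw [Multiset.mem_singleton] at h
  omega

/-- no part 3 in the linked words of J1a, `c ≥ 4` -/
theorem j1_o3 (hs : 4 ≤ s) (hc : 4 ≤ c) {i : ℕ} (hi : i ∈ [1, 3, 6, 8, 9]) : o3 (j1w s c i) = 0 := by
  obtain ⟨s, rfl⟩ : ∃ m, s = m + 4 := ⟨s - 4, by omega⟩
  obtain ⟨c, rfl⟩ : ∃ m, c = m + 4 := ⟨c - 4, by omega⟩
  have h00 : ht (BinaryTree.nil : BinaryTree Unit) = 0 := rfl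
  have hS : ht (H1.ch (s + 4)) = s + 4 := H1.ch_ht _
  have hC : ht (H1.ch (c + 4)) = c + 4 := H1.ch_ht _
  have z0 : o3 (BinaryTree.nil : BinaryTree Unit) = 0 := rfl
  have z1 : ∀ C, o3 (.nil △ C) = o3 C := fun C => o3_zero (by rw [h00]; omega) z0 C
  have zR : o3 (app (H1.ch (s + 4)) (H1.ch (c + 4))) = 0 := by rw [o3_app, o3_ch, o3_ch]
  have hR : 4 ≤ ht (app (H1.ch (s + 4)) (H1.ch (c + 4))) := by rw [ht_app, hS]; omega
  simp only [List.mem_cons, List.not_mem_nil, or_false] at hi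
  rcases hi with rfl | rfl | rfl | rfl | rfl
  · change o3 (app (app (H1.ch (s + 4)) (H1.ch (c + 4))) (.nil △ (.nil △ .nil))) = 0
    rw [o3_app, zR, z1, z1, z0]
  · change o3 (app (app (H1.ch (s + 4)) (H1.ch (c + 4))) (.nil △ .nil) △ .nil) = 0
    rw [o3_zero (by rw [ht_app]; omega) (by rw [o3_app, zR, z1, z0]), z0]
  · change o3 (app (H1.ch (s + 4)) (H1.ch (c + 4)) △ (.nil △ .nil)) = 0
    rw [o3_zero (by omega) zR, z1, z0]
  · change o3 (.nil △ (app (H1.ch (s + 4)) (H1.ch (c + 4)) △ .nil)) = 0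
    rw [z1, o3_zero (by omega) zR, z0]
  · change o3 ((app (H1.ch (s + 4)) (H1.ch (c + 4)) △ .nil) △ .nil) = 0
    rw [o3_zero (by rw [ht_node]; omega) (by rw [o3_zero (by omega) zR, z0]), z0]

/-- **I-J1M-JM, I-J1M-J3** -/
theorem J1M.inner_J (hn : 1 ≤ n) (hc : 4 ≤ c) (hs : 4 ≤ s) (hA : J1MA s c g)
    {B : Finset (X k)} {P U M : Set (ZMod (2 * n + 1) → ℕ)} (h : JG n B P U M) :
    ∀ a ∈ g.arcs, ∀ w ∈ innA a, w ∉ B := by
  intro a ha w hw hw'
  obtain ⟨h0, i, hi, hx⟩ := hA a ha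
  have e : w = TT a.1 := hw
  have e2 : TT w = a.2 := by rw [e, h0]
  have hi20 : i < 20 := by
    simp only [List.mem_cons, List.not_mem_nil, or_false] at hi
    omega
  have h2 : t3 w.1 = 2 := by
    rw [← t3_TT, e2, ← t3_mir]
    exact IsJ1.t3 (by omega) (by omega) ⟨i, hi20, hx⟩
  have h3 : o3 w.1 = 0 := by
    rw [← o3_TT, e2, ← o3_mir, hx]
    exact j1_o3 hs hc hi
  rcases h w hw' with ⟨Φ, _, h1⟩ | ⟨G, _, h1⟩ | ⟨Ψ, _, h1⟩
  · have := h1.t3 hn
    omega
  · have := us_t3 hn h1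
    omega
  · obtain ⟨t, D, u, j, ht, hD, hj, h4⟩ := mx_t3 hn h1 h2
    rw [h4, o3_mir] at h3
    have := mx_o3 (u := u) ht hD hj
    omega

end J

end Pool.OddHC
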