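import Pool.Agent.Work.MP_8f87b2_h24.J1Ex
import Pool.Agent.Work.MP_8f87b2_h40.JG

/-!
# MP_8f87b2_co: the words of J1a at `[s][c]` against the words of the one-soliton gadgets (JM, J5, NM, J4)
-/

set_option autoImplicit false

namespace Pool.OddHC

open Finset Equiv BinaryTree Pool.Agent.Work.MP_8f87b2_co

namespace J

variable {k n s c : ℕ}

/-- a word of the gadget J1a over `R = [s][c]`, `B = [c]`, `S = [s]` -/
def IsJ1 (s c : ℕ) (w : BinaryTree Unit) : Prop :=
  ∃ i < 20, w = H1.W (app (H1.ch s) (H1.ch c)) .nil (H1.ch c) (H1.ch s) i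

/-- the words, explicit -/
def j1w (s c i : ℕ) : BinaryTree Unit := H1.W (app (H1.ch s) (H1.ch c)) .nil (H1.ch c) (H1.ch s) i

/-- the kinds of the words -/
def j1k : ℕ → ℕ
  | 0 => 0
  | 4 => 0
  | 10 => 0
  | 12 => 16
  | 15 => 18
  | 17 => 19
  | i => i

theorem kn_j1 {i : ℕ} (hi : i < 20) : kn (j1w (s + 4) (c + 3) i) = j1k i := by
  interval_cases i <;> rfl

/-- the kinds of the mirrored words -/
def j1km : ℕ → ℕ
  | 0 => 0
  | 1 => 5
  | 2 => 2
  | 3 => 7
  | 4 => 0
  | 5 => 1
  | 6 => 8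
  | 7 => 3
  | 8 => 6
  | 9 => 9
  | 10 => 0
  | 11 => 11
  | 12 => 18
  | 13 => 14
  | 14 => 13
  | 15 => 16
  | 16 => 18
  | 17 => 19
  | 18 => 16
  | _ => 19

theorem kn_j1m {i : ℕ} (hi : i < 20) : kn (Tsq.mir (j1w (s + 4) (c + 3) i)) = j1km i := by
  interval_cases i <;> rfl

theorem cs_lenRR {p t : ℕ} {D : BinaryTree Unit} : (cs (RR p D t)).length = p + t + 1 := by
  rw [cs_RR]
  simp
  omega

theorem chne1 (m : ℕ) : H1.ch (m + 2) ≠ l1 := by
  intro e
  have := congrArg BinaryTree.numNodes e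
  rw [H1.ch_num] at this
  change m + 2 = 1 at this
  omega

theorem chch_RR {p t : ℕ} {D : BinaryTree Unit} :
    app (H1.ch (s + 4)) (H1.ch (c + 3)) ≠ RR p D t := by
  intro e
  have e1 := congrArg cs e
  have e2 : cs (app (H1.ch (s + 4)) (H1.ch (c + 3))) = [H1.ch (s + 3), H1.ch (c + 2)] := rfl
  rw [e2] at e1
  have e3 := congrArg List.length e1
  rw [cs_lenRR] at e3
  simp only [List.length_cons, List.length_nil] at e3
  rw [cs_RR] at e1
  rcases Nat.eq_zero_or_pos p with hp | hp
  · subst hp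
    obtain rfl : t = 1 := by omega
    simp only [List.replicate_zero, List.nil_append, List.replicate_one, List.cons.injEq,
      and_true] at e1
    exact chne1 _ e1.2
  · obtain rfl : p = 1 := by omega
    obtain rfl : t = 0 := by omega
    simp only [List.replicate_zero, List.replicate_one, List.cons_append, List.nil_append,
      List.cons.injEq] at e1
    exact chne1 _ e1.1

theorem j1_pu (hs : 4 ≤ s) (hc : 3 ≤ c) (hn : 1 ≤ n) {F : ZMod (2 * n + 1) → ℕ}
    {w : BinaryTree Unit} (h : IsJ1 s c w) (h' : IsPu n F w) : False := by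
  obtain ⟨s, rfl⟩ : ∃ m, s = m + 4 := ⟨s - 4, by omega⟩
  obtain ⟨c, rfl⟩ : ∃ m, c = m + 3 := ⟨c - 3, by omega⟩
  obtain ⟨i, hi, rfl⟩ := h
  obtain ⟨j, hj, h0, h4, e⟩ := h'
  obtain ⟨D, hD, e1⟩ := RF_shape hn F
  rw [e1] at e
  have e2 := congrArg kn e
  rw [kn_pw hD hj] at e2
  change kn (j1w (s + 4) (c + 3) i) = _ at e2
  rw [kn_j1 hi] at e2
  have key : i = j := by
    unfold kd at e2
    rw [if_neg h4] at e2
    interval_cases i <;> simp only [j1k] at e2 <;> omega
  subst key
  have key2 : ∀ {R' : BinaryTree Unit}, pw (app (H1.ch (s + 4)) (H1.ch (c + 3))) i = pw R' i →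
      app (H1.ch (s + 4)) (H1.ch (c + 3)) = R' := by
    intro R' e
    interval_cases i
    · exact absurd rfl h0
    · exact app_right e
    · exact app_right (node_inj' e).2
    · exact app_right (node_inj' e).1
    · exact absurd rfl h4
    · exact (node_inj' (node_inj' e).2).2
    · exact (node_inj' e).1
    · exact (node_inj' (node_inj' e).1).2
    · exact (node_inj' (node_inj' e).2).1
    · exact (node_inj' (node_inj' e).1).1
  refine chch_RR (key2 (R' := RR (F 0) D (F (-1))) ?_)
  rw [← e]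
  interval_cases i <;> rfl

theorem j1_us (hs : 4 ≤ s) (hc : 3 ≤ c) (hn : 1 ≤ n) {F : ZMod (2 * n + 1) → ℕ}
    {w : BinaryTree Unit} (h : IsJ1 s c w) (h' : IsUs n F w) : False := by
  obtain ⟨s, rfl⟩ : ∃ m, s = m + 4 := ⟨s - 4, by omega⟩
  obtain ⟨c, rfl⟩ : ∃ m, c = m + 3 := ⟨c - 3, by omega⟩
  obtain ⟨i, hi, rfl⟩ := h
  obtain ⟨h1, e⟩ := h'
  have e2 := congrArg kn e
  obtain ⟨D, hD, e1⟩ := RF_shape hn F
  rw [e1] at e e2
  rw [kn_RR hD h1] at e2
  change kn (j1w (s + 4) (c + 3) i) = _ at e2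
  rw [kn_j1 hi] at e2
  have key : i = 0 ∨ i = 4 ∨ i = 10 := by
    interval_cases i <;> simp only [j1k] at e2 <;> omega
  have e3 := congrArg cs e
  have e4 := congrArg List.length e3
  rw [cs_lenRR] at e4
  rw [cs_RR] at e3
  have hDl := hD.ne
  rcases key with rfl | rfl | rfl
  · have e5 : cs (H1.W (app (H1.ch (s + 4)) (H1.ch (c + 3))) .nil (H1.ch (c + 3)) (H1.ch (s + 4)) 0) =
      [H1.ch (s + 3), H1.ch (c + 2), l1] := rfl
    rw [e5] at e3 e4
    simp only [List.length_cons, List.length_nil] at e4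
    have hp : F 0 = 0 := by
      by_contra hp
      obtain ⟨p, hp⟩ : ∃ m, F 0 = m + 1 := ⟨F 0 - 1, by omega⟩
      rw [hp, List.replicate_succ, List.cons_append, List.cons.injEq] at e3
      exact chne1 _ e3.1
    have ht : F (-1) = 2 := by omega
    rw [hp, ht] at e3
    simp only [List.replicate_zero, List.nil_append, List.replicate_succ, List.cons.injEq] at e3
    exact chne1 _ e3.2.1
  · have e5 : cs (H1.W (app (H1.ch (s + 4)) (H1.ch (c + 3))) .nil (H1.ch (c + 3)) (H1.ch (s + 4)) 4) =
      [l1, H1.ch (s + 3), H1.ch (c + 2)] := rfl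
    rw [e5] at e3 e4
    simp only [List.length_cons, List.length_nil] at e4
    have ht : F (-1) = 0 := by
      by_contra hp
      obtain ⟨p, hp⟩ : ∃ m, F (-1) = m + 1 := ⟨F (-1) - 1, by omega⟩
      have e6 := congrArg List.reverse e3
      rw [rev_RR, hp, List.replicate_succ] at e6
      simp only [List.reverse_cons, List.reverse_nil, List.nil_append, List.cons_append,
        List.cons.injEq] at e6
      exact chne1 _ e6.1
    have hp : F 0 = 2 := by omega
    rw [hp, ht] at e3
    simp only [List.replicate_zero, List.replicate_succ, List.cons_append, List.nil_append,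
      List.cons.injEq] at e3
    exact chne1 _ e3.2.1
  · have e5 : cs (H1.W (app (H1.ch (s + 4)) (H1.ch (c + 3))) .nil (H1.ch (c + 3)) (H1.ch (s + 4)) 10) =
      [H1.ch (c + 2), l1, H1.ch (s + 3)] := rfl
    rw [e5] at e3 e4
    simp only [List.length_cons, List.length_nil] at e4
    have ht : F (-1) = 0 := by
      by_contra hp
      obtain ⟨p, hp⟩ : ∃ m, F (-1) = m + 1 := ⟨F (-1) - 1, by omega⟩
      have e6 := congrArg List.reverse e3
      rw [rev_RR, hp, List.replicate_succ] at e6
      simp only [List.reverse_cons, List.reverse_nil, List.nil_append, List.cons_append,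
        List.cons.injEq] at e6
      exact chne1 _ e6.1
    have hp : F 0 = 2 := by omega
    rw [hp, ht] at e3
    simp only [List.replicate_zero, List.replicate_succ, List.cons_append, List.nil_append,
      List.cons.injEq] at e3
    exact chne1 _ e3.1

theorem ch_b2 {m t : ℕ} : H1.ch (m + 3) ≠ b2 t := by
  intro e
  have e1 := congrArg cs e
  rw [cs_b2] at e1
  have e2 : cs (H1.ch (m + 3)) = [H1.ch (m + 2)] := rfl
  rw [e2] at e1
  cases t with
  | zero => exact absurd e1 (by simp)
  | succ t =>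
    rw [List.replicate_succ, List.cons.injEq] at e1
    exact chne1 _ e1.1

theorem j1_mx (hs : 4 ≤ s) (hc : 3 ≤ c) {F : ZMod (2 * n + 1) → ℕ}
    {w : BinaryTree Unit} (h : IsJ1 s c w) (h' : IsMx n F w) : False := by
  obtain ⟨s, rfl⟩ : ∃ m, s = m + 4 := ⟨s - 4, by omega⟩
  obtain ⟨c, rfl⟩ : ∃ m, c = m + 3 := ⟨c - 3, by omega⟩
  obtain ⟨i, hi, rfl⟩ := h
  obtain ⟨t, D, u, j, ht, hD, _, hj, hj', e⟩ := h'
  have e1 := congrArg Tsq.mir e
  rw [mir_mir'] at e1
  have e2 := congrArg kn e1
  rw [kn_mw hD ht (by omega) hj', if_neg (by omega)] at e2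
  change kn (Tsq.mir (j1w (s + 4) (c + 3) i)) = _ at e2
  rw [kn_j1m hi] at e2
  obtain ⟨t, rfl⟩ : ∃ m, t = m + 1 := ⟨t - 1, by omega⟩
  have f1 := congrArg (fun w => (cs w).head?.any isL) e1
  have f2 := congrArg (fun w => (cs w).reverse.head?.any isL) e1
  have f3 := congrArg (fun w => (cs ((cs w).reverse.headD .nil)).head?.any isL) e1
  have f4 := congrArg (fun w => (cs ((cs w).reverse.tail.headD .nil)).head?.any isL) e1
  have f5 := congrArg (fun w => (cs ((cs ((cs w).headD .nil)).reverse.headD .nil)).head?.any isL) e1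
  have g1 : (cs (mw (t + 1) D u 11)).head?.any isL = true := by
    change (cs (app (b2 (t + 1)) (.nil △ (.nil △ RR 0 D u)))).head?.any isL = true
    rw [cs_app, cs_b2]
    rfl
  have g2 : (cs (mw (t + 1) D u 14)).reverse.head?.any isL = true := by
    change (cs ((.nil △ RR 0 D u) △ b2 (t + 1))).reverse.head?.any isL = true
    rw [cs_node, cs_b2, List.reverse_cons, List.reverse_replicate]
    rfl
  have g3 : (cs ((cs (mw (t + 1) D u 13)).reverse.headD .nil)).head?.any isL = true := by
    change (cs ((cs (app (RR 0 D u) (app (b2 (t + 1)) (.nil △ .nil) △ .nil))).reverse.headD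
      .nil)).head?.any isL = true
    rw [cs_app, List.reverse_append]
    change (cs (app (b2 (t + 1)) (.nil △ .nil))).head?.any isL = true
    rw [cs_app, cs_b2]
    rfl
  have g4 : (cs ((cs (mw (t + 1) D u 16)).reverse.tail.headD .nil)).head?.any isL = true := by
    change (cs ((cs (app (RR 0 D u) (b2 (t + 1) △ (.nil △ .nil)))).reverse.tail.headD
      .nil)).head?.any isL = true
    rw [cs_app, List.reverse_append]
    change (cs (b2 (t + 1))).head?.any isL = true
    rw [cs_b2]
    rfl
  have g5 : (cs ((cs (mw (t + 1) D u 18)).reverse.headD .nil)).head?.any isL = true := by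
    change (cs ((cs (.nil △ app (RR 0 D u) (b2 (t + 1) △ .nil))).reverse.headD
      .nil)).head?.any isL = true
    rw [cs_node, cs_app, List.reverse_cons, List.reverse_append]
    change (cs (b2 (t + 1))).head?.any isL = true
    rw [cs_b2]
    rfl
  have g6 : (cs ((cs ((cs (mw (t + 1) D u 19)).headD .nil)).reverse.headD .nil)).head?.any isL =
      true := by
    change (cs ((cs (app (RR 0 D u) (b2 (t + 1) △ .nil))).reverse.headD .nil)).head?.any isL = true
    rw [cs_app, List.reverse_append]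
    change (cs (b2 (t + 1))).head?.any isL = true
    rw [cs_b2]
    rfl
  have r11 : (cs (Tsq.mir (j1w (s + 4) (c + 3) 11))).head?.any isL = false := rfl
  have r13 : (cs (Tsq.mir (j1w (s + 4) (c + 3) 13))).reverse.head?.any isL = false := rfl
  have r14 : (cs ((cs (Tsq.mir (j1w (s + 4) (c + 3) 14))).reverse.headD .nil)).head?.any isL =
    false := rfl
  have r15 : (cs ((cs (Tsq.mir (j1w (s + 4) (c + 3) 15))).reverse.tail.headD .nil)).head?.any isL =
    false := rfl
  have r18 : (cs ((cs (Tsq.mir (j1w (s + 4) (c + 3) 18))).reverse.tail.headD .nil)).head?.any isL =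
    false := rfl
  have r12 : (cs ((cs (Tsq.mir (j1w (s + 4) (c + 3) 12))).reverse.headD .nil)).head?.any isL =
    false := rfl
  have r16 : (cs ((cs (Tsq.mir (j1w (s + 4) (c + 3) 16))).reverse.headD .nil)).head?.any isL =
    false := rfl
  have r17 : (cs ((cs ((cs (Tsq.mir (j1w (s + 4) (c + 3) 17))).headD .nil)).reverse.headD
    .nil)).head?.any isL = false := rfl
  have r19 : (cs ((cs ((cs (Tsq.mir (j1w (s + 4) (c + 3) 19))).headD .nil)).reverse.headD
    .nil)).head?.any isL = false := rfl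
  interval_cases i <;> simp only [j1km] at e2 <;> first | omega | skip
  · subst e2; exact absurd (r11.symm.trans (f1.trans g1)) (by simp)
  · subst e2; exact absurd (r12.symm.trans (f3.trans g5)) (by simp)
  · subst e2; exact absurd (r13.symm.trans (f2.trans g2)) (by simp)
  · subst e2; exact absurd (r14.symm.trans (f3.trans g3)) (by simp)
  · subst e2; exact absurd (r15.symm.trans (f4.trans g4)) (by simp)
  · subst e2; exact absurd (r16.symm.trans (f3.trans g5)) (by simp)
  · subst e2; exact absurd (r17.symm.trans (f5.trans g6)) (by simp)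
  · subst e2; exact absurd (r18.symm.trans (f4.trans g4)) (by simp)
  · subst e2; exact absurd (r19.symm.trans (f5.trans g6)) (by simp)

/-- **J1a against the one-soliton gadgets: no common word** -/
theorem JG.disj_J1 (hs : 4 ≤ s) (hc : 3 ≤ c) (hn : 1 ≤ n) {B B' : Finset (X k)}
    {P U M : Set (ZMod (2 * n + 1) → ℕ)} (h : JG n B P U M) (h' : ∀ w ∈ B', IsJ1 s c w.1) :
    ∀ w ∈ B, w ∉ B' := by
  intro w hw hw'
  have h2 := h' w hw'
  rcases h w hw with ⟨Φ, _, h1⟩ | ⟨G, _, h1⟩ | ⟨Ψ, _, h1⟩
  · exact j1_pu hs hc hn h2 h1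
  · exact j1_us hs hc hn h2 h1
  · exact j1_mx hs hc h2 h1

end J

end Pool.OddHC
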