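import Pool.Agent.Work.MP_8f87b2_h84.J2W
import Pool.Agent.Work.MP_8f87b2_h84.TyJEM
import Pool.Agent.Work.MP_8f87b2_h16.MVK

/-!
# MP_8f87b2_co: word rows of J2B against the mirrored JVm (`Is9M`) and JEM
-/

set_option autoImplicit false

namespace Pool.OddHC

open Finset Equiv BinaryTree Pool.Agent.Work.MP_8f87b2_co

open J J3 H1

variable {k : ℕ} {F F' : Set (Cyc k)} {g g' : DG k} {R B S Z : BinaryTree Unit}

/-- **W-J2B-JVm**: a common word only if `Z = T^4 R` -/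
theorem TyJ2R.meet_JVm (h : TyJ2R R B S F g) (h9 : Is9M .nil .nil Z F' g') (h3 : 3 ≤ OddHC.ht Z)
    (h1 : (OddHC.cont Z).count 1 = 0) (hd : ∀ c ∈ F, c ∉ F') {w : X k} (hw : w ∈ g.B) (hw' : w ∈ g'.B) :
    MV.T4 R Z := by
  obtain ⟨i, hi, e⟩ := h.words w hw
  have hz : cyc (sX R B S w 0) ∉ F' := hd _ ((h.memF w _).2 (Or.inl rfl))
  rcases h9.meetM h3 h1 h.sqd hz hw' hi e with h4 | ⟨rfl, Q, q1, q2⟩
  · exact h4
  · exfalso
    refine hd (cyc w) ((h.memF w _).2 (Or.inr ?_)) (h9.new01 w (Or.inr ?_))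
    · congr 1
      apply Subtype.ext
      rw [h.sqd.word w (by norm_num), e]
    · rw [e, q1, q2]
      rfl

/-- different contents: no common word -/
theorem TyJ2R.dis_JVm (h : TyJ2R R B S F g) (h9 : Is9M .nil .nil Z F' g') (h3 : 3 ≤ OddHC.ht Z)
    (h1 : (OddHC.cont Z).count 1 = 0) (hd : ∀ c ∈ F, c ∉ F') (hx : OddHC.cont R = OddHC.cont Z → ¬ MV.T4 R Z) :
    ∀ w ∈ g.B, w ∉ g'.B := by
  intro w hw hw'
  have h4 := h.meet_JVm h9 h3 h1 hd hw hw'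
  exact hx h4.cont h4

/-- **W-J2B-JEM**: a common word only if `Z = T^4 R` -/
theorem TyJ2R.meet_JEM (h : TyJ2R R B S F g) (h9 : TyJEM Z F' g') (hd : ∀ c ∈ F, c ∉ F') {w : X k} (hw : w ∈ g.B)
    (hw' : w ∈ g'.B) : MV.T4 R Z := by
  by_contra hT
  have hs := h9.sqd
  refine h9.cases hw' ?_ ?_
  · intro F1 g1 h5 h6 h7
    exact hT (h.meet_JVm h5 hs.h3 hs.one (fun c hc hc' => hd c hc (h6 hc')) hw h7)
  · intro B2 S2 w0 h5 h6 i hi e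
    obtain ⟨j, hj, e'⟩ := h.words w hw
    have hi' : i < 20 ∧ i ≠ 18 ∧ i ≠ 16 ∧ i ≠ 19 ∧ i ≠ 15 ∧ i ≠ 12 ∧ i ≠ 17 :=
      (by decide : ∀ i ∈ [1, 2, 5, 6], i < 20 ∧ i ≠ 18 ∧ i ≠ 16 ∧ i ≠ 19 ∧ i ≠ 15 ∧ i ≠ 12 ∧ i ≠ 17) i hi
    have e2 := congrArg Subtype.val e
    rw [h5.word w0 hi'.1] at e2
    rcases h.sqd.meetF h5 (w0 := w) (w0' := w0) hd ((h.memF w _).2 (Or.inl rfl)) ((h.memF w _).2 (Or.inr rfl))
      (h6 0 (by simp)) (h6 4 (by simp)) hj hi'.1 (e'.symm.trans e2) with k1 | k1 <;> omega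

/-- different contents: no common word -/
theorem TyJ2R.dis_JEM (h : TyJ2R R B S F g) (h9 : TyJEM Z F' g') (hd : ∀ c ∈ F, c ∉ F')
    (hx : OddHC.cont R = OddHC.cont Z → ¬ MV.T4 R Z) : ∀ w ∈ g.B, w ∉ g'.B := by
  intro w hw hw'
  have h4 := h.meet_JEM h9 hd hw hw'
  exact hx h4.cont h4

end Pool.OddHC
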