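import Pool.Agent.Work.MP_8f87b2_fin.Frame
import Pool.Agent.Work.MP_8f87b2_und.Dir

/-!
# Plain gadgets only

Gadgets without arcs whose old words all lie on one T-cycle (a plain gadget with `n` new T-cycles has `n + 1` words). `N` : the
new T-cycles, nothing is asked of the T-cycles outside `N`. `plain_core`, `plain_grp`: a legal permutation `π` such that every
cycle of `TT * π` contains a T-cycle outside `N`.
-/

set_option autoImplicit false

namespace Pool.OddHC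

open Finset Equiv Pool.Agent.Work.MP_8f87b2_co

variable {k : ℕ}

/-- **THE CORE** -/
theorem plain_core {Γ : Type} [Fintype Γ] [DecidableEq Γ] (gad : Γ → DG k) (rk : Γ → ℕ) (O : Set (X k))
    (hdis : ∀ g h, g ≠ h → ∀ w ∈ (gad g).B, w ∉ (gad h).B)
    (hFne : ∀ g, ∀ w ∈ (gad g).F, ∃ u ∈ (gad g).B, TT.SameCycle w u)
    (hold : ∀ g, ∃ u ∈ (gad g).B, u ∉ (gad g).F)
    (hone : ∀ g, ∀ u ∈ (gad g).B, ∀ v ∈ (gad g).B, u ∉ (gad g).F → v ∉ (gad g).F → TT.SameCycle u v)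
    (hFdis : ∀ g h, g ≠ h → ∀ w ∈ (gad g).F, w ∉ (gad h).F)
    (hOF : ∀ g, ∀ w ∈ O, w ∉ (gad g).F)
    (hall : ∀ w, w ∈ O ∨ ∃ g, w ∈ (gad g).F)
    (hB : ∀ g, ∀ w ∈ (gad g).B, w ∈ (gad g).F ∨ w ∈ O ∨ ∃ h, rk h < rk g ∧ w ∈ (gad h).F)
    (harc : ∀ g, (gad g).arcs = ∅)
    (hAbs : ∀ g, (gad g).Abs) :
    ∃ (π : Perm (X k)) (z : X k → ZMod (2 * k + 1)), Legal π z ∧
      (∀ w, (∀ g, w ∉ (gad g).B) → π w = w ∧ z w = 0) ∧
      (∀ g, ∀ u ∈ (gad g).B, ∀ v ∈ (gad g).B, (TT * π).SameCycle u v) ∧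
      (∀ x y, TT.SameCycle x y → (TT * π).SameCycle x y) ∧
      ∀ a, ∃ b ∈ O, (TT * π).SameCycle a b := by
  have key : ∀ s : Finset Γ, (∀ g ∈ s, ∀ h, rk h < rk g → h ∈ s) →
      ∃ (π : Perm (X k)) (z : X k → ZMod (2 * k + 1)), Built gad s π ∧ Legal π z ∧
        (∀ w, (∀ g ∈ s, w ∉ (gad g).B) → z w = 0) ∧
        (∀ w, (w ∈ O ∨ ∃ g ∈ s, w ∈ (gad g).F) → ∃ b ∈ O, (TT * π).SameCycle w b) ∧
        (∀ g ∈ s, ∀ u ∈ (gad g).B, ∀ v ∈ (gad g).B, (TT * π).SameCycle u v) ∧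
        (∀ x y, TT.SameCycle x y → (TT * π).SameCycle x y) := by
    intro s
    induction s using Finset.induction_on_max_value rk with
    | empty =>
      intro _
      refine ⟨1, fun _ => 0, Built.nil, legal_one, fun _ _ => rfl, ?_, ?_, ?_⟩
      · rintro w (h | ⟨g, hg, _⟩)
        · exact ⟨w, h, Perm.SameCycle.refl _ _⟩
        · simp at hg
      · intro g hg
        simp at hg
      · intro x y h
        rw [mul_one]
        exact h
    | insert a s ha hmax ih =>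
      intro hdown
      have hdown' : ∀ g ∈ s, ∀ h, rk h < rk g → h ∈ s := by
        intro g hg h hlt
        rcases mem_insert.1 (hdown g (mem_insert_of_mem hg) h hlt) with h1 | h1
        · exfalso
          rw [h1] at hlt
          have := hmax g hg
          omega
        · exact h1
      have hlow : ∀ h, rk h < rk a → h ∈ s := by
        intro h hlt
        rcases mem_insert.1 (hdown a (mem_insert_self a s) h hlt) with h1 | h1
        · exfalso
          rw [h1] at hlt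
          omega
        · exact h1
      obtain ⟨π, z, hbu, hleg, hz0, hroot', hcon, hmono⟩ := ih hdown'
      -- the words of a and of its new T-cycles are untouched
      have hBa : ∀ w, w ∈ (gad a).B → ∀ g ∈ s, w ∉ (gad g).B := by
        intro w hw g hg
        refine hdis a g ?_ w hw
        rintro rfl
        exact ha hg
      have hFa : ∀ w, w ∈ (gad a).F → ∀ g ∈ s, w ∉ (gad g).B := by
        intro w hw g hg hwg
        have hag : a ≠ g := by
          rintro rfl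
          exact ha hg
        rcases hB g w hwg with h1 | h1 | ⟨h, h1, h2⟩
        · exact hFdis a g hag w hw h1
        · exact hOF a w h1 hw
        · have h3 := hmax g hg
          have h4 : a ≠ h := by
            rintro rfl
            omega
          exact hFdis a h h4 w hw h2
      have hf1 : ∀ w, w ∈ (gad a).B → (TT * π : Perm (X k)) w = TT w := by
        intro w hw
        rw [Perm.mul_apply, hbu.off w (hBa w hw)]
      have hf2 : ∀ w, w ∈ (gad a).F → (TT * π : Perm (X k)) w = TT w := by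
        intro w hw
        rw [Perm.mul_apply, hbu.off w (hFa w hw)]
      have hold' : ∀ u ∈ (gad a).B, u ∉ (gad a).F → ∃ b ∈ O, (TT * π).SameCycle u b := by
        intro u hu huF
        apply hroot'
        rcases hB a u hu with h1 | h1 | ⟨h, h1, h2⟩
        · exact (huF h1).elim
        · exact Or.inl h1
        · exact Or.inr ⟨h, hlow h h1, h2⟩
      obtain ⟨ρ, y, hleg', hρ, hy, hm', hc'⟩ := hAbs a (TT * π) hf1 hf2
        (fun p hp => by rw [harc a] at hp; exact absurd hp (Set.notMem_empty _))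
        (fun u hu v hv huF hvF => hmono u v (hone a u hu v hv huF hvF))
      refine ⟨π * ρ, fun w => z w + y w, Built.step hbu ha hρ,
        Legal.mul (B := (gad a).B) (fun w hw => hbu.off w (hBa w hw))
          (fun w hw => hz0 w (hBa w hw)) hρ hy hleg hleg', ?_, ?_, ?_, ?_⟩
      · intro w hw
        simp only
        rw [hz0 w (fun g hg => hw g (mem_insert_of_mem hg)), hy w (hw a (mem_insert_self a s)),
          add_zero]
      · rw [← mul_assoc]
        have h0 : ∀ w, (w ∈ O ∨ ∃ g ∈ s, w ∈ (gad g).F) → ∃ b ∈ O, (TT * π * ρ).SameCycle w b := by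
          intro w hw
          obtain ⟨b, hb, hs⟩ := hroot' w hw
          exact ⟨b, hb, hm' _ _ hs⟩
        rintro w (h1 | ⟨g, hg, h1⟩)
        · exact h0 w (Or.inl h1)
        · rcases mem_insert.1 hg with rfl | hg
          · obtain ⟨u, hu, hwu⟩ := hFne g w h1
            obtain ⟨v, hv, hvF⟩ := hold g
            obtain ⟨b, hb, hs⟩ := hold' v hv hvF
            exact ⟨b, hb, ((hm' _ _ (hmono w u hwu)).trans (hc' u hu v hv)).trans (hm' _ _ hs)⟩
          · exact h0 w (Or.inr ⟨g, hg, h1⟩)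
      · rw [← mul_assoc]
        intro g hg u hu v hv
        rcases mem_insert.1 hg with rfl | hg
        · exact hc' u hu v hv
        · exact hm' _ _ (hcon g hg u hu v hv)
      · rw [← mul_assoc]
        intro x y' h1
        exact hm' _ _ (hmono x y' h1)
  obtain ⟨π, z, hbu, hleg, hz, hr, hc, hm⟩ := key univ (fun g _ h _ => mem_univ h)
  refine ⟨π, z, hleg, fun w hw => ⟨hbu.off w (fun g _ => hw g), hz w (fun g _ => hw g)⟩,
    fun g => hc g (mem_univ g), hm, fun a => hr a ?_⟩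
  rcases hall a with h | ⟨g, h⟩
  · exact Or.inl h
  · exact Or.inr ⟨g, mem_univ g, h⟩

/-- the fields of a family of plain types -/
structure PlainP {τ : Type} (P : τ → Set (Cyc k) → DG k → Prop) : Prop where
  F_iff : ∀ t F g, P t F g → ∀ w, w ∈ g.F ↔ cyc w ∈ F
  new : ∀ t F g, P t F g → ∀ c ∈ F, ∃ u ∈ g.B, cyc u = c
  old : ∀ t F g, P t F g → ∃ u ∈ g.B, cyc u ∉ F
  one : ∀ t F g, P t F g → ∀ u ∈ g.B, ∀ v ∈ g.B, cyc u ∉ F → cyc v ∉ F → cyc u = cyc v
  up : ∀ t F g, P t F g → ∀ w ∈ g.B, cyc w ∉ F → ∀ c ∈ F, htc c < htc (cyc w)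
  arcs : ∀ t F g, P t F g → g.arcs = ∅
  abs : ∀ t F g, P t F g → g.Abs

/-- **PLAIN GADGETS**: selected gadgets `gg F` -/
theorem plain_grp {τ : Type} {N : Set (Cyc k)} {G : Set (Set (Cyc k))}
    {P : τ → Set (Cyc k) → DG k → Prop} (h : GrpOK N G P) (hP : PlainP P)
    (tt : Set (Cyc k) → τ) (gg : Set (Cyc k) → DG k) (hg : ∀ F ∈ G, P (tt F) F (gg F))
    (dis : ∀ F ∈ G, ∀ F' ∈ G, F ≠ F' → ∀ w ∈ (gg F).B, w ∉ (gg F').B) :
    ∃ (π : Perm (X k)) (z : X k → ZMod (2 * k + 1)), Legal π z ∧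
      (∀ w, (∀ F ∈ G, w ∉ (gg F).B) → π w = w ∧ z w = 0) ∧
      (∀ F ∈ G, ∀ u ∈ (gg F).B, ∀ v ∈ (gg F).B, (TT * π).SameCycle u v) ∧
      (∀ x y, TT.SameCycle x y → (TT * π).SameCycle x y) ∧
      ∀ a, ∃ b, cyc b ∉ N ∧ (TT * π).SameCycle a b := by
  classical
  have : Fintype (Cyc k) := Fintype.ofFinite _
  have : Finite G := Set.toFinite G
  have : Fintype G := Fintype.ofFinite _
  -- the rank
  obtain ⟨H, hH⟩ : ∃ H : ℕ, ∀ c : Cyc k, htc c ≤ H := ⟨univ.sup (fun c : Cyc k => htc c),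
    fun c => le_sup (f := fun c : Cyc k => htc c) (mem_univ c)⟩
  -- the height of a group: the largest height of its members
  let hF : Set (Cyc k) → ℕ := fun F => (univ.filter (fun c => c ∈ F)).sup (fun c : Cyc k => htc c)
  have hF1 : ∀ F : Set (Cyc k), ∀ c ∈ F, htc c ≤ hF F := fun F c hc =>
    le_sup (f := fun c : Cyc k => htc c) (mem_filter.2 ⟨mem_univ c, hc⟩)
  have hF2 : ∀ F : Set (Cyc k), ∀ n, (∀ c ∈ F, htc c < n) → F.Nonempty → hF F < n := by
    intro F n hn ⟨c0, hc0⟩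
    have h1 : 0 < n := lt_of_le_of_lt (Nat.zero_le _) (hn c0 hc0)
    rw [Finset.sup_lt_iff h1]
    intro c hc
    exact hn c (mem_filter.1 hc).2
  have hFH : ∀ F : Set (Cyc k), hF F ≤ H := fun F => Finset.sup_le fun c _ => hH c
  suffices hs : ∃ (π : Perm (X k)) (z : X k → ZMod (2 * k + 1)), Legal π z ∧
      (∀ w, (∀ g : G, w ∉ (gg g.1).B) → π w = w ∧ z w = 0) ∧
      (∀ g : G, ∀ u ∈ (gg g.1).B, ∀ v ∈ (gg g.1).B, (TT * π).SameCycle u v) ∧
      (∀ x y, TT.SameCycle x y → (TT * π).SameCycle x y) ∧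
      ∀ a, ∃ b ∈ {w : X k | cyc w ∉ N}, (TT * π).SameCycle a b by
    obtain ⟨π, z, h1, h2, h3, h4, h5⟩ := hs
    exact ⟨π, z, h1, fun w hw => h2 w (fun F => hw F.1 F.2), fun F hFG => h3 ⟨F, hFG⟩, h4, h5⟩
  refine plain_core (Γ := G) (fun F => gg F.1) (fun F => H - hF F.1)
    {w | cyc w ∉ N} ?_ ?_ ?_ ?_ ?_ ?_ ?_ ?_ ?_ ?_
  · intro F F' hne w hw
    exact dis F.1 F.2 F'.1 F'.2 (fun e => hne (Subtype.ext e)) w hw
  · intro F w hw
    obtain ⟨u, hu, hu'⟩ := hP.new _ _ _ (hg F.1 F.2) _ ((hP.F_iff _ _ _ (hg F.1 F.2) w).1 hw)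
    exact ⟨u, hu, cyc_eq.1 hu'.symm⟩
  · intro F
    obtain ⟨u, hu, hu'⟩ := hP.old _ _ _ (hg F.1 F.2)
    exact ⟨u, hu, fun hh => hu' ((hP.F_iff _ _ _ (hg F.1 F.2) u).1 hh)⟩
  · intro F u hu v hv huF hvF
    exact cyc_eq.1 (hP.one _ _ _ (hg F.1 F.2) u hu v hv
      (fun hh => huF ((hP.F_iff _ _ _ (hg F.1 F.2) u).2 hh))
      (fun hh => hvF ((hP.F_iff _ _ _ (hg F.1 F.2) v).2 hh)))
  · intro F F' hne w hw hw'
    exact hne (Subtype.ext (h.one F.1 F.2 F'.1 F'.2 _ ((hP.F_iff _ _ _ (hg F.1 F.2) w).1 hw)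
      ((hP.F_iff _ _ _ (hg F'.1 F'.2) w).1 hw')))
  · intro F w hw hw'
    exact hw (h.sub F.1 F.2 _ ((hP.F_iff _ _ _ (hg F.1 F.2) w).1 hw'))
  · intro w
    by_cases hw : cyc w ∈ N
    · obtain ⟨F, hFG, hwF⟩ := h.cov _ hw
      exact Or.inr ⟨⟨F, hFG⟩, (hP.F_iff _ _ _ (hg F hFG) w).2 hwF⟩
    · exact Or.inl hw
  · intro F w hw
    by_cases hwF : cyc w ∈ F.1
    · exact Or.inl ((hP.F_iff _ _ _ (hg F.1 F.2) w).2 hwF)
    · by_cases hwN : cyc w ∈ N
      · obtain ⟨F', hFG', hwF'⟩ := h.cov _ hwN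
        refine Or.inr (Or.inr ⟨⟨F', hFG'⟩, ?_, (hP.F_iff _ _ _ (hg F' hFG') w).2 hwF'⟩)
        have e1 : hF F.1 < htc (cyc w) := hF2 F.1 _ (hP.up _ _ _ (hg F.1 F.2) w hw hwF) (h.ne F.1 F.2)
        have e2 : htc (cyc w) ≤ hF F' := hF1 F' _ hwF'
        have e3 := hFH F'
        change H - hF F' < H - hF F.1
        omega
      · exact Or.inr (Or.inl hwN)
  · intro F
    exact hP.arcs _ _ _ (hg F.1 F.2)
  · intro F
    exact hP.abs _ _ _ (hg F.1 F.2)

/-- **FEW CYCLES**, in the form of the lift -/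
theorem plain_few {τ : Type} {N : Set (Cyc k)} {G : Set (Set (Cyc k))}
    {P : τ → Set (Cyc k) → DG k → Prop} (h : GrpOK N G P) (hP : PlainP P)
    (h3 : ∀ t F g, P t F g → 3 ≤ g.B.card)
    (tt : Set (Cyc k) → τ) (gg : Set (Cyc k) → DG k) (hg : ∀ F ∈ G, P (tt F) F (gg F))
    (dis : ∀ F ∈ G, ∀ F' ∈ G, F ≠ F' → ∀ w ∈ (gg F).B, w ∉ (gg F').B) :
    ∃ (π : Perm (X k)) (z : X k → ZMod (2 * k + 1)) (S : Finset (X k)), Legal π z ∧
      (∀ w, (TT * π : Perm (X k)) w = w → π w = w ∧ z w = 0) ∧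
      (∀ w, (TT * π : Perm (X k)) ((TT * π : Perm (X k)) w) = w → (π w = w ∧ z w = 0) ∧ (π (TT w) = TT w ∧ z (TT w) = 0)) ∧
      (∀ w, ∃ r ∈ S, (TT * π).SameCycle r w) ∧ S.card ≤ Nat.card {p : Cyc k // p ∉ N} := by
  classical
  have : Fintype (Cyc k) := Fintype.ofFinite _
  obtain ⟨π, z, a1, a2, a3, a4, a5⟩ := plain_grp h hP tt gg hg dis
  -- short cycles
  have two : ∀ w, (TT * π : Perm (X k)) ((TT * π : Perm (X k)) w) = w → ∀ u, (TT * π).SameCycle w u →
      u = w ∨ u = (TT * π : Perm (X k)) w := by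
    intro w hw u hu
    obtain ⟨n, rfl⟩ := same_nat hu
    induction n with
    | zero => exact Or.inl rfl
    | succ n ih =>
      rw [pow_succ', Perm.mul_apply]
      rcases ih (nat_same n rfl) with e | e
      · rw [e]; exact Or.inr rfl
      · rw [e, hw]; exact Or.inl rfl
  have off : ∀ w, (TT * π : Perm (X k)) ((TT * π : Perm (X k)) w) = w → ∀ v, (v = w ∨ v = (TT * π : Perm (X k)) w) →
      ∀ F ∈ G, v ∉ (gg F).B := by
    intro w hw v hv F hF hvB
    have hwv : (TT * π).SameCycle w v := by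
      rcases hv with rfl | rfl
      · exact Perm.SameCycle.refl _ _
      · exact nat_same 1 (by rw [pow_one])
    have h4 : (gg F).B ⊆ {w, (TT * π : Perm (X k)) w} := by
      intro u hu
      rw [Finset.mem_insert, Finset.mem_singleton]
      exact two w hw u (hwv.trans (a3 F hF v hvB u hu))
    have h5 := (h3 _ _ _ (hg F hF)).trans (card_le_card h4)
    have h6 := Finset.card_le_two (a := w) (b := (TT * π : Perm (X k)) w)
    omega
  choose rep hrep using fun p : Cyc k => (Quotient.exists_rep p : ∃ w : X k, cyc w = p)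
  refine ⟨π, z, (univ.filter (fun p : Cyc k => p ∉ N)).image rep, a1, ?_, ?_, ?_, ?_⟩
  · intro w hw
    exact a2 w (off w (by rw [hw, hw]) w (Or.inl rfl))
  · intro w hw
    have e1 := a2 w (off w hw w (Or.inl rfl))
    refine ⟨e1, ?_⟩
    have e2 : TT w = (TT * π : Perm (X k)) w := by rw [Perm.mul_apply, e1.1]
    exact a2 _ (off w hw (TT w) (Or.inr e2))
  · intro w
    obtain ⟨b, hb, hs⟩ := a5 w
    refine ⟨rep (cyc b), mem_image.2 ⟨cyc b, mem_filter.2 ⟨mem_univ _, hb⟩, rfl⟩, ?_⟩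
    exact (a4 _ _ (cyc_eq.1 (hrep (cyc b)))).trans hs.symm
  · refine card_image_le.trans ?_
    rw [Nat.card_eq_fintype_card, Fintype.card_subtype]

end Pool.OddHC
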