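import Pool.Agent.Work.MP_8f87b2_h84.Plain
import Pool.Agent.Work.MP_8f87b2_mid.Dis

/-!
# Plain triples

`PlainTri`: a family of plain triples; `few_E`: the permutation of a set of disjoint `E` pairs.
-/

set_option autoImplicit false

namespace Pool.OddHC

open Finset Equiv Pool.Agent.Work.MP_8f87b2_co

variable {k : ℕ}

theorem IsTri.one {P Q R : BinaryTree Unit} {F : Set (Cyc k)} {g : DG k} (h : IsTri P Q R F g) :
    ∀ u ∈ g.B, ∀ v ∈ g.B, cyc u ∉ F → cyc v ∉ F → cyc u = cyc v := by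
  intro u hu v hv huF hvF
  rcases h.words u hu with e | ⟨e, _⟩
  · rcases h.words v hv with e' | ⟨e', _⟩
    · have : u = v := Subtype.ext (e.trans e'.symm)
      rw [this]
    · exact absurd e' hvF
  · exact absurd e huF

theorem IsTri.three {P Q R : BinaryTree Unit} {F : Set (Cyc k)} {g : DG k} (h : IsTri P Q R F g) :
    3 ≤ g.B.card := by
  obtain ⟨a, b, c, ha, hb, hc, h1, h2, h3, rfl, rfl⟩ := h
  have e1 : a ≠ b := by rintro rfl; exact lt_irrefl _ h3
  have e2 : a ≠ c := by rintro rfl; rw [h2] at h3; exact lt_irrefl _ h3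
  have e3 : b ≠ c := by rintro rfl; exact h1 rfl
  change 3 ≤ ({a, b, c} : Finset (X k)).card
  rw [card_insert_of_notMem, card_insert_of_notMem, card_singleton]
  · rwa [Finset.mem_singleton]
  · rw [Finset.mem_insert, Finset.mem_singleton]
    rintro (e | e)
    · exact e1 e
    · exact e2 e

/-- **a family of plain triples** -/
theorem plainP_tri {τ : Type} {P : τ → Set (Cyc k) → DG k → Prop}
    (h : ∀ t F g, P t F g → ∃ A B C, IsTri A B C F g) : PlainP P := by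
  refine ⟨?_, ?_, ?_, ?_, ?_, ?_, ?_⟩
  · intro t F g hg
    obtain ⟨A, B, C, hT⟩ := h t F g hg
    exact hT.hF
  · intro t F g hg
    obtain ⟨A, B, C, hT⟩ := h t F g hg
    exact hT.new
  · intro t F g hg
    obtain ⟨A, B, C, hT⟩ := h t F g hg
    exact hT.old
  · intro t F g hg
    obtain ⟨A, B, C, hT⟩ := h t F g hg
    exact hT.one
  · intro t F g hg w hw hwF
    obtain ⟨A, B, C, hT⟩ := h t F g hg
    exact (hT.rank w hw).resolve_left hwF
  · intro t F g hg
    obtain ⟨A, B, C, hT⟩ := h t F g hg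
    exact hT.arcs
  · intro t F g hg
    obtain ⟨A, B, C, hT⟩ := h t F g hg
    exact hT.abs

/-- **E pairs**: few cycles -/
theorem few_E (G : Set (Set (Cyc k))) (hE : ∀ F ∈ G, ∃ g, TyE F g)
    (hd : ∀ F ∈ G, ∀ F' ∈ G, ∀ c, c ∈ F → c ∈ F' → F = F') :
    ∃ (π : Perm (X k)) (z : X k → ZMod (2 * k + 1)) (S : Finset (X k)), Legal π z ∧
      (∀ w, (TT * π : Perm (X k)) w = w → π w = w ∧ z w = 0) ∧
      (∀ w, (TT * π : Perm (X k)) ((TT * π : Perm (X k)) w) = w → (π w = w ∧ z w = 0) ∧ (π (TT w) = TT w ∧ z (TT w) = 0)) ∧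
      (∀ w, ∃ r ∈ S, (TT * π).SameCycle r w) ∧
      S.card ≤ Nat.card {p : Cyc k // ∀ F ∈ G, p ∉ F} := by
  classical
  have : Nonempty (DG k) := ⟨⟨∅, ∅, ∅⟩⟩
  choose! gg hgg using hE
  obtain ⟨π, z, S, h1, h2, h3, h4, h5⟩ := plain_few (τ := Unit) (N := {p | ∃ F ∈ G, p ∈ F}) (G := G)
    (P := fun _ F g => TyE F g)
    ⟨fun F hF => by
      obtain ⟨c, hc, -⟩ := (show ∃ c ∈ F, True by
        obtain ⟨X, hX, ht, -⟩ := (hgg F hF).data
        obtain ⟨a, b, c, ha, hb, hc, e1, e2, e3, e4, e5⟩ := ht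
        exact ⟨cyc b, by rw [e4]; exact Or.inl rfl, trivial⟩)
      exact ⟨c, hc⟩,
     fun F hF c hc => ⟨F, hF, hc⟩, fun c hc => hc, hd, fun F hF => ⟨(), gg F, hgg F hF⟩⟩
    (plainP_tri fun _ F g hg => by
      obtain ⟨X, -, ht, -⟩ := hg.data
      exact ⟨_, _, _, ht⟩)
    (fun _ F g hg => by
      obtain ⟨X, -, ht, -⟩ := hg.data
      exact ht.three)
    (fun _ => ()) gg hgg
    (fun F hF F' hF' hne => dj_EE F (gg F) F' (gg F') (hgg F hF) (hgg F' hF')
      (fun c hc hc' => hne (hd F hF F' hF' c hc hc')))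
  refine ⟨π, z, S, h1, h2, h3, h4, h5.trans (le_of_eq ?_)⟩
  apply Nat.card_congr
  refine Equiv.subtypeEquivRight fun p => ?_
  constructor
  · intro hp F hF hpF
    exact hp ⟨F, hF, hpF⟩
  · rintro hp ⟨F, hF, hpF⟩
    exact hp F hF hpF

end Pool.OddHC
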