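import Pool.Agent.Work.MP_8f87b2_h84.J1J

/-!
# MP_8f87b2_co: number of parts 1 and number of parts ≥ 3 of a word
-/

set_option autoImplicit false

namespace Pool.OddHC

open Finset Equiv BinaryTree Pool.Agent.Work.MP_8f87b2_co

namespace J

variable {k n s c : ℕ}

/-- number of parts `≥ 3` -/
def t3 (w : BinaryTree Unit) : ℕ := (OddHC.cont w).countP (3 ≤ ·)

/-- number of parts `1` -/
def o1 (w : BinaryTree Unit) : ℕ := (OddHC.cont w).count 1

theorem t3_nil : t3 .nil = 0 := rfl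

theorem o1_nil : o1 .nil = 0 := rfl

theorem t3_app (P Q : BinaryTree Unit) : t3 (app P Q) = t3 P + t3 Q := by
  unfold t3; rw [cont_app, Multiset.countP_add]

theorem o1_app (P Q : BinaryTree Unit) : o1 (app P Q) = o1 P + o1 Q := by
  unfold o1; rw [cont_app, Multiset.count_add]

theorem t3_node (A C : BinaryTree Unit) :
    t3 (A △ C) = (raise (OddHC.cont A)).countP (3 ≤ ·) + t3 C := by
  unfold t3; rw [cont_node, Multiset.countP_add]

theorem o1_node (A C : BinaryTree Unit) :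
    o1 (A △ C) = (raise (OddHC.cont A)).count 1 + o1 C := by
  unfold o1; rw [cont_node, Multiset.count_add]

theorem t3_o (C : BinaryTree Unit) : t3 (.nil △ C) = t3 C := by
  rw [t3_node, cont_nil, raise_zero, show ({1} : Multiset ℕ).countP (3 ≤ ·) = 0 from by decide,
    zero_add]

theorem o1_o (C : BinaryTree Unit) : o1 (.nil △ C) = 1 + o1 C := by
  rw [o1_node, cont_nil, raise_zero]
  simp

theorem t3_l1 (C : BinaryTree Unit) : t3 ((.nil △ .nil) △ C) = t3 C := by
  rw [t3_node, cont_node, cont_nil, raise_zero, add_zero, raise_single,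
    show ({1 + 1} : Multiset ℕ).countP (3 ≤ ·) = 0 from by decide, zero_add]

theorem o1_l1 (C : BinaryTree Unit) : o1 ((.nil △ .nil) △ C) = o1 C := by
  rw [o1_node, cont_node, cont_nil, raise_zero, add_zero, raise_single]
  simp

theorem t3_hi {A : BinaryTree Unit} (h : 3 ≤ ht A) (C : BinaryTree Unit) :
    t3 (A △ C) = t3 A + t3 C := by
  rw [t3_node]
  congr 1
  have h0 : OddHC.cont A ≠ 0 := by
    intro e
    rw [OddHC.ht_eq, e] at h
    simp at h
  have h1 : 3 ≤ (OddHC.cont A).sup := by rw [← OddHC.ht_eq]; exact h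
  unfold raise t3
  rw [Multiset.countP_cons_of_pos _ (by omega)]
  conv_rhs => rw [← Multiset.cons_erase (sup_mem h0)]
  rw [Multiset.countP_cons_of_pos _ h1]

theorem o1_le {A : BinaryTree Unit} (h : A ≠ .nil) (C : BinaryTree Unit) :
    o1 (A △ C) ≤ o1 A + o1 C := by
  rw [o1_node]
  have h0 : OddHC.cont A ≠ 0 := fun e => h (cont_eq_zero.1 e)
  have h1 : 1 ≤ (OddHC.cont A).sup := cont_pos _ _ (sup_mem h0)
  have : (raise (OddHC.cont A)).count 1 ≤ o1 A := by
    unfold raise o1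
    rw [Multiset.count_cons_of_ne (by omega)]
    exact Multiset.count_le_of_le _ (Multiset.erase_le _ _)
  omega

theorem o1_le' (A C : BinaryTree Unit) : o1 (A △ C) ≤ 1 + o1 A + o1 C := by
  by_cases h : A = .nil
  · subst h; rw [o1_o, o1_nil]
  · have := o1_le h C
    omega

/-! ### Words of the one-soliton gadgets -/

theorem o1_RF (hn : 1 ≤ n) (F : ZMod (2 * n + 1) → ℕ) : o1 (Ring1.RF n F) = 0 := by
  unfold o1
  rw [Ring1.cont_RF hn, Multiset.count_add, Multiset.count_eq_zero.2, Multiset.count_eq_zero.2]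
  · intro h
    have := Multiset.eq_of_mem_replicate h
    omega
  · intro h
    rw [Multiset.mem_singleton] at h
    omega

theorem t3_RF (hn : 1 ≤ n) (F : ZMod (2 * n + 1) → ℕ) : t3 (Ring1.RF n F) = 1 := by
  unfold t3
  rw [Ring1.cont_RF hn, Multiset.countP_add]
  have h1 : ({n + 2} : Multiset ℕ).countP (3 ≤ ·) = 1 := by
    rw [Multiset.countP_eq_card.2 (by intro a ha; rw [Multiset.mem_singleton] at ha; omega)]
    simp
  have h2 : (Multiset.replicate (∑ x, F x) 2).countP (3 ≤ ·) = 0 := by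
    rw [Multiset.countP_eq_zero]
    intro a ha
    have := Multiset.eq_of_mem_replicate ha
    omega
  rw [h1, h2]

theorem ht_RF (hn : 1 ≤ n) (F : ZMod (2 * n + 1) → ℕ) : 3 ≤ ht (Ring1.RF n F) := by
  rw [OddHC.ht_eq, Ring1.cont_RF hn, sup_add', Multiset.sup_singleton]
  omega

theorem ne_RF (hn : 1 ≤ n) (F : ZMod (2 * n + 1) → ℕ) : Ring1.RF n F ≠ .nil := by
  intro e
  have := ht_RF hn F
  rw [e] at this
  exact absurd this (by decide)

theorem app_ne_left {P Q : BinaryTree Unit} (h : P ≠ .nil) : app P Q ≠ .nil := by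
  cases P with
  | nil => exact absurd rfl h
  | node _ A C => intro e; exact absurd e (by simp [app])

/-- **pure words** -/
theorem IsPu.t3 (hn : 1 ≤ n) {F : ZMod (2 * n + 1) → ℕ} {w : BinaryTree Unit} (h : IsPu n F w) :
    J.t3 w = 1 := by
  obtain ⟨i, hi, h0, h4, rfl⟩ := h
  have hR := t3_RF hn F
  have hh := ht_RF hn F
  have h00 : ht (BinaryTree.nil : BinaryTree Unit) = 0 := rfl
  interval_cases i
  · exact absurd rfl h0
  · change J.t3 (app (Ring1.RF n F) (.nil △ (.nil △ .nil))) = 1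
    rw [t3_app, t3_o, t3_o, t3_nil, hR]
  · change J.t3 (.nil △ app (Ring1.RF n F) (.nil △ .nil)) = 1
    rw [t3_o, t3_app, t3_o, t3_nil, hR]
  · change J.t3 (app (Ring1.RF n F) (.nil △ .nil) △ .nil) = 1
    rw [t3_hi (by rw [ht_app]; omega), t3_app, t3_o, t3_nil, hR]
  · exact absurd rfl h4
  · change J.t3 (.nil △ (.nil △ Ring1.RF n F)) = 1
    rw [t3_o, t3_o, hR]
  · change J.t3 (Ring1.RF n F △ (.nil △ .nil)) = 1
    rw [t3_hi hh, t3_o, t3_nil, hR]
  · change J.t3 ((.nil △ Ring1.RF n F) △ .nil) = 1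
    rw [t3_hi (by rw [ht_node]; omega), t3_o, t3_nil, hR]
  · change J.t3 (.nil △ (Ring1.RF n F △ .nil)) = 1
    rw [t3_o, t3_hi hh, t3_nil, hR]
  · change J.t3 ((Ring1.RF n F △ .nil) △ .nil) = 1
    rw [t3_hi (by rw [ht_node]; omega), t3_hi hh, t3_nil, hR]

theorem pw_o1 {R : BinaryTree Unit} (hR : J.o1 R = 0) (hne : R ≠ .nil) {i : ℕ} (hi : i < 10) :
    J.o1 (pw R i) ≤ 2 := by
  have o0 : J.o1 (BinaryTree.nil : BinaryTree Unit) = 0 := rfl
  interval_cases i
  · change J.o1 (app R ((.nil △ .nil) △ .nil)) ≤ 2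
    rw [o1_app, o1_l1]; omega
  · change J.o1 (app R (.nil △ (.nil △ .nil))) ≤ 2
    rw [o1_app, o1_o, o1_o]; omega
  · change J.o1 (.nil △ app R (.nil △ .nil)) ≤ 2
    rw [o1_o, o1_app, o1_o]; omega
  · change J.o1 (app R (.nil △ .nil) △ .nil) ≤ 2
    have := o1_le (A := app R (.nil △ .nil)) (app_ne_left hne) .nil
    rw [o1_app, o1_o] at this
    omega
  · change J.o1 ((.nil △ .nil) △ R) ≤ 2
    rw [o1_l1]; omega
  · change J.o1 (.nil △ (.nil △ R)) ≤ 2
    rw [o1_o, o1_o]; omega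
  · change J.o1 (R △ (.nil △ .nil)) ≤ 2
    have := o1_le hne (.nil △ .nil)
    rw [o1_o] at this
    omega
  · change J.o1 ((.nil △ R) △ .nil) ≤ 2
    have := o1_le (A := .nil △ R) (by simp) .nil
    rw [o1_o] at this
    omega
  · change J.o1 (.nil △ (R △ .nil)) ≤ 2
    have := o1_le hne .nil
    rw [o1_o]
    omega
  · change J.o1 ((R △ .nil) △ .nil) ≤ 2
    have := o1_le (A := R △ .nil) (by simp) .nil
    have := o1_le hne .nil
    omega

/-- mixed words, `B`, `S` without parts 1 -/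
theorem mix_o1 {B S : BinaryTree Unit} (hB : J.o1 B = 0) (hS : J.o1 S = 0) (hne : S ≠ .nil) {i : ℕ}
    (hi : 10 ≤ i) (hi' : i < 20) : J.o1 (H1.W .nil .nil B S i) ≤ 2 := by
  have o0 : J.o1 (BinaryTree.nil : BinaryTree Unit) = 0 := rfl
  interval_cases i
  · change J.o1 (app B ((.nil △ .nil) △ S)) ≤ 2
    rw [o1_app, o1_l1]; omega
  · change J.o1 (app B (.nil △ (.nil △ S))) ≤ 2
    rw [o1_app, o1_o, o1_o]; omega
  · change J.o1 (S △ app B (.nil △ .nil)) ≤ 2
    have := o1_le hne (app B (.nil △ .nil))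
    rw [o1_app, o1_o] at this
    omega
  · change J.o1 (app S (app B (.nil △ .nil) △ .nil)) ≤ 2
    have := o1_le' (app B (.nil △ .nil)) .nil
    rw [o1_app, o1_o] at this
    rw [o1_app]
    omega
  · change J.o1 ((.nil △ S) △ B) ≤ 2
    have := o1_le (A := .nil △ S) (by simp) B
    rw [o1_o] at this
    omega
  · change J.o1 (.nil △ (S △ B)) ≤ 2
    have := o1_le hne B
    rw [o1_o]
    omega
  · change J.o1 (app S (B △ (.nil △ .nil))) ≤ 2
    have := o1_le' B (.nil △ .nil)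
    rw [o1_o] at this
    rw [o1_app]
    omega
  · change J.o1 ((S △ B) △ .nil) ≤ 2
    have := o1_le (A := S △ B) (by simp) .nil
    have := o1_le hne B
    omega
  · change J.o1 (.nil △ app S (B △ .nil)) ≤ 2
    have := o1_le' B .nil
    rw [o1_o, o1_app]
    omega
  · change J.o1 (app S (B △ .nil) △ .nil) ≤ 2
    have := o1_le (A := app S (B △ .nil)) (app_ne_left hne) .nil
    have := o1_le' B .nil
    rw [o1_app] at *
    omega

theorem o1_mir (w : BinaryTree Unit) : J.o1 (Tsq.mir w) = J.o1 w := by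
  unfold J.o1; rw [HM.cont_mir]

theorem t3_mir (w : BinaryTree Unit) : J.t3 (Tsq.mir w) = J.t3 w := by
  unfold J.t3; rw [HM.cont_mir]

/-- **the words of the one-soliton gadgets have at most two parts 1** -/
theorem JG.o1 (hn : 1 ≤ n) {B : Finset (X k)} {P U M : Set (ZMod (2 * n + 1) → ℕ)}
    (h : JG n B P U M) : ∀ w ∈ B, J.o1 w.1 ≤ 2 := by
  intro w hw
  rcases h w hw with ⟨Φ, _, i, hi, h0, h4, h1⟩ | ⟨G, _, _, h1⟩ | ⟨Ψ, _, t, D, u, i, ht, hD, h1, hi, hi', h2⟩
  · rw [h1]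
    exact pw_o1 (o1_RF hn Φ) (ne_RF hn Φ) hi
  · rw [h1, o1_RF hn]
    omega
  · rw [h2, o1_mir]
    have e : J.o1 (RR t D u) = 0 := by rw [← h1, o1_mir, o1_RF hn]
    have e2 : RR t D u = app (b2 t) (RR 0 D u) := by rw [app_b2]; rfl
    rw [e2, o1_app] at e
    exact mix_o1 (by omega) (by omega) (by
      intro e3
      have := RR_isN (p := 0) (t := u) (D := D)
      rw [e3] at this
      simp at this) (by omega) hi'

/-! ### J1a -/

theorem cont_ch' (m : ℕ) : OddHC.cont (H1.ch (m + 1)) = {m + 1} := H1.ch_cont m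

theorem t3_ch (m : ℕ) : J.t3 (H1.ch (m + 3)) = 1 := by
  unfold J.t3
  rw [cont_ch']
  rw [Multiset.countP_eq_card.2 (by intro a ha; rw [Multiset.mem_singleton] at ha; omega)]
  simp

theorem o1_ch (m : ℕ) : J.o1 (H1.ch (m + 3)) = 0 := by
  unfold J.o1
  rw [cont_ch', Multiset.count_eq_zero]
  intro h
  rw [Multiset.mem_singleton] at h
  omega

theorem ch_ne' (m : ℕ) : H1.ch (m + 1) ≠ .nil := by rw [H1.ch_succ]; simp

/-- the words of J1a have at most two parts 1 -/
theorem IsJ1.o1 (hs : 3 ≤ s) (hc : 3 ≤ c) {w : BinaryTree Unit} (h : IsJ1 s c w) : J.o1 w ≤ 2 := by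
  obtain ⟨s, rfl⟩ : ∃ m, s = m + 3 := ⟨s - 3, by omega⟩
  obtain ⟨c, rfl⟩ : ∃ m, c = m + 3 := ⟨c - 3, by omega⟩
  obtain ⟨i, hi, rfl⟩ := h
  rcases lt_or_ge i 10 with h1 | h1
  · have e : H1.W (app (H1.ch (s + 3)) (H1.ch (c + 3))) .nil (H1.ch (c + 3)) (H1.ch (s + 3)) i =
        pw (app (H1.ch (s + 3)) (H1.ch (c + 3))) i := by
      interval_cases i <;> rfl
    rw [e]
    exact pw_o1 (by rw [o1_app, o1_ch, o1_ch]) (app_ne_left (ch_ne' _)) h1
  · have e : H1.W (app (H1.ch (s + 3)) (H1.ch (c + 3))) .nil (H1.ch (c + 3)) (H1.ch (s + 3)) i =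
        H1.W .nil .nil (H1.ch (c + 3)) (H1.ch (s + 3)) i := by
      interval_cases i <;> rfl
    rw [e]
    exact mix_o1 (o1_ch _) (o1_ch _) (ch_ne' _) h1 hi

/-- the words of J1a have two parts `≥ 3` -/
theorem IsJ1.t3 (hs : 3 ≤ s) (hc : 3 ≤ c) {w : BinaryTree Unit} (h : IsJ1 s c w) : J.t3 w = 2 := by
  obtain ⟨s, rfl⟩ : ∃ m, s = m + 3 := ⟨s - 3, by omega⟩
  obtain ⟨c, rfl⟩ : ∃ m, c = m + 3 := ⟨c - 3, by omega⟩
  obtain ⟨i, hi, rfl⟩ := h
  have h00 : ht (BinaryTree.nil : BinaryTree Unit) = 0 := rfl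
  have hS : ht (H1.ch (s + 3)) = s + 3 := H1.ch_ht _
  have hB : ht (H1.ch (c + 3)) = c + 3 := H1.ch_ht _
  have tS := t3_ch s
  have tB := t3_ch c
  have n1 : ∀ {A : BinaryTree Unit} (C : BinaryTree Unit), 3 ≤ ht A → J.t3 (A △ C) = J.t3 A + J.t3 C :=
    fun C h => t3_hi h C
  rcases lt_or_ge i 19 with h19 | h19
  · interval_cases i <;>
      simp (disch := (simp only [ht_app, ht_node, hS, hB, h00]; omega)) only [H1.W, app, n1, t3_app,
        t3_o, t3_l1, tS, tB, t3_nil]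
  · obtain rfl : i = 19 := by omega
    change J.t3 (app (H1.ch (s + 3)) (H1.ch (c + 3) △ .nil) △ .nil) = 2
    simp (disch := (simp only [ht_app, ht_node, hS, hB, h00]; omega)) only [n1, t3_app, tS, tB,
      t3_nil]

end J

end Pool.OddHC
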